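import Pool.Agent.Helper499.HC.Defs

set_option autoImplicit false

namespace Pool.Agent.Helper499.HC

open Relation Filter Topology Set


section C
variable {X : Type} [MetricSpace X] [CompactSpace X]



theorem round_aux (s : ℝ) : 4 * |s - round s| ≤
    ‖Complex.exp ((2 * Real.pi * s : ℝ) * Complex.I) - 1‖ := by
  have h1 : Complex.exp ((2 * Real.pi * s : ℝ) * Complex.I) =
      Complex.exp (Complex.I * ((2 * Real.pi * (s - round s) : ℝ))) := by
    rw [Complex.exp_eq_exp_iff_exists_int]
    refine ⟨round s, ?_⟩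
    push_cast
    ring
  rw [h1, Complex.norm_exp_I_mul_ofReal_sub_one, norm_mul, Real.norm_eq_abs, Real.norm_eq_abs]
  have h2 : |s - round s| ≤ 1 / 2 := abs_sub_round s
  have hpi := Real.pi_pos
  have h3 : |2 * Real.pi * (s - round s) / 2| = Real.pi * |s - round s| := by
    rw [show 2 * Real.pi * (s - round s) / 2 = Real.pi * (s - round s) by ring, abs_mul,
      abs_of_pos hpi]
  have h4 := Real.mul_abs_le_abs_sin (x := 2 * Real.pi * (s - round s) / 2) (by
    rw [h3]; nlinarith)
  rw [h3] at h4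
  have h5 : 2 / Real.pi * (Real.pi * |s - round s|) = 2 * |s - round s| := by
    field_simp
  rw [h5] at h4
  rw [abs_of_pos (show (0:ℝ) < 2 by norm_num)]
  linarith

theorem rep_of_map (u : C(X, Circle)) : ∃ a : X → X → ℤ, (∃ r > 0, LocCoc r a) ∧ Rep u a := by
  set t : X → ℝ := fun x => Complex.arg (u x : ℂ) / (2 * Real.pi) with ht
  have hpi := Real.pi_pos
  have hu : ∀ x, (u x : ℂ) = Complex.exp ((2 * Real.pi * t x : ℝ) * Complex.I) := by
    intro x
    have h1 : 2 * Real.pi * t x = Complex.arg (u x : ℂ) := by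
      simp only [ht]; field_simp
    rw [h1]
    have h2 := Complex.norm_mul_exp_arg_mul_I (u x : ℂ)
    rw [Circle.norm_coe] at h2
    simpa using h2.symm
  have hest : ∀ x y, 4 * |t y - t x - (round (t y - t x) : ℤ)| ≤ dist (u x : ℂ) (u y : ℂ) := by
    intro x y
    refine (round_aux (t y - t x)).trans (le_of_eq ?_)
    have h1 : Complex.exp ((2 * Real.pi * (t y - t x) : ℝ) * Complex.I) * (u x : ℂ) = u y := by
      rw [hu x, hu y, ← Complex.exp_add]
      congr 1
      push_cast
      ring
    have h2 : dist (u x : ℂ) (u y : ℂ) = ‖(u y : ℂ) - (u x : ℂ)‖ := by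
      rw [dist_comm, dist_eq_norm]
    rw [h2, ← h1]
    rw [show Complex.exp ((2 * Real.pi * (t y - t x) : ℝ) * Complex.I) * (u x : ℂ) - (u x : ℂ) =
      (Complex.exp ((2 * Real.pi * (t y - t x) : ℝ) * Complex.I) - 1) * (u x : ℂ) by ring,
      norm_mul, Circle.norm_coe, mul_one]
  have hcc : Continuous fun x => (u x : ℂ) := by fun_prop
  have huc := CompactSpace.uniformContinuous_of_continuous hcc
  rw [Metric.uniformContinuous_iff] at huc
  have hall : ∀ ε > 0, ∃ r > 0, ∀ x y, dist x y < r →
      |t y - t x - (round (t y - t x) : ℤ)| < ε := by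
    intro ε hε
    obtain ⟨r, hr, h⟩ := huc ε hε
    refine ⟨r, hr, fun x y hxy => ?_⟩
    have h1 := h hxy
    have h2 := hest x y
    have h3 := abs_nonneg (t y - t x - (round (t y - t x) : ℤ))
    linarith
  refine ⟨fun x y => round (t y - t x), ?_, t, hu, hall⟩
  obtain ⟨r, hr, h⟩ := hall (1 / 4) (by norm_num)
  refine ⟨r, hr, fun x y z hxy hyz hxz => ?_⟩
  have h1 := abs_lt.1 (h x y hxy)
  have h2 := abs_lt.1 (h y z hyz)
  have h3 := abs_lt.1 (h x z hxz)
  have h4 : (((round (t y - t x) + round (t z - t y) - round (t z - t x) : ℤ)) : ℝ) < 1 := by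
    push_cast
    linarith [h1.1, h1.2, h2.1, h2.2, h3.1, h3.2]
  have h5 : (-1 : ℝ) < (((round (t y - t x) + round (t z - t y) - round (t z - t x) : ℤ)) : ℝ) := by
    push_cast
    linarith [h1.1, h1.2, h2.1, h2.2, h3.1, h3.2]
  have h6 : round (t y - t x) + round (t z - t y) - round (t z - t x) < 1 := by exact_mod_cast h4
  have h7 : -1 < round (t y - t x) + round (t z - t y) - round (t z - t x) := by exact_mod_cast h5
  simp only
  omega

end C

end Pool.Agent.Helper499.HC
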