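import Pool.Agent.Helper499.HC.Defs

set_option autoImplicit false

namespace Pool.Agent.Helper499.HC

open Relation Filter Topology Set


section C
variable {X : Type} [MetricSpace X] [CompactSpace X]



theorem map_of_coc (a : X → X → ℤ) (r : ℝ) (hr : 0 < r) (ha : LocCoc r a) :
    ∃ u : C(X, Circle), Rep u a := by
  classical
  set s : ℝ := r / 4 with hs
  have hs0 : 0 < s := by positivity
  obtain ⟨Z0, _, hZf, hZc⟩ := (isCompact_univ : IsCompact (univ : Set X)).finite_cover_balls hs0
  set Z : Finset X := hZf.toFinset with hZ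
  have hnet : ∀ x, ∃ z ∈ Z, dist x z < s := by
    intro x
    have := hZc (mem_univ x)
    simp only [mem_iUnion, Metric.mem_ball] at this
    obtain ⟨z, hz, hd⟩ := this
    exact ⟨z, by rw [hZ, Set.Finite.mem_toFinset]; exact hz, hd⟩
  let lam : X → X → ℝ := fun z x => max 0 (s - dist x z)
  have hlam0 : ∀ z x, 0 ≤ lam z x := fun z x => le_max_left _ _
  have hlamc : ∀ z, Continuous (lam z) := by
    intro z
    simp only [lam]
    fun_prop
  let S : X → ℝ := fun x => ∑ z ∈ Z, lam z x
  have hSpos : ∀ x, 0 < S x := by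
    intro x
    obtain ⟨z, hz, hd⟩ := hnet x
    refine Finset.sum_pos' (fun z _ => hlam0 z x) ⟨z, hz, ?_⟩
    exact lt_max_of_lt_right (by linarith)
  have hSc : Continuous S := continuous_finsetSum _ fun z _ => hlamc z
  let w : X → X → ℝ := fun z x => lam z x / S x
  have hwc : ∀ z, Continuous (w z) := fun z => (hlamc z).div hSc fun x => (hSpos x).ne'
  have hw1 : ∀ x, ∑ z ∈ Z, w z x = 1 := by
    intro x
    simp only [w]
    rw [← Finset.sum_div]
    exact div_self (hSpos x).ne'
  have hwz : ∀ z x, w z x ≠ 0 → dist x z < s := by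
    intro z x h
    by_contra hcon
    push Not at hcon
    apply h
    have : lam z x = 0 := max_eq_left (by linarith)
    simp only [w, this, zero_div]
  let t : X → ℝ := fun x => ∑ z ∈ Z, w z x * a z x
  set A : ℝ := ∑ z ∈ Z, ∑ z' ∈ Z, |(a z z' : ℝ)| with hA
  have hA0 : 0 ≤ A := Finset.sum_nonneg fun z _ => Finset.sum_nonneg fun z' _ => abs_nonneg _
  have hAle : ∀ z ∈ Z, ∀ z' ∈ Z, |(a z z' : ℝ)| ≤ A := by
    intro z hz z' hz'
    calc |(a z z' : ℝ)| ≤ ∑ z' ∈ Z, |(a z z' : ℝ)| :=
          Finset.single_le_sum (f := fun z' => |(a z z' : ℝ)|) (fun z' _ => abs_nonneg _) hz'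
      _ ≤ A := Finset.single_le_sum (f := fun z => ∑ z' ∈ Z, |(a z z' : ℝ)|)
          (fun z _ => Finset.sum_nonneg fun z' _ => abs_nonneg _) hz
  -- the key estimate
  have hkey : ∀ x y, dist x y < s → |t y - t x - a x y| ≤ ∑ z ∈ Z, |w z y - w z x| * A := by
    intro x y hxy
    obtain ⟨z0, hz0, hd0⟩ := hnet x
    have hterm : ∀ z ∈ Z, w z y * a z y - w z x * a z x - w z y * a x y - (w z y - w z x) * a z0 x =
        (w z y - w z x) * a z z0 := by
      intro z hz
      by_cases hcase : w z x = 0 ∧ w z y = 0
      · rw [hcase.1, hcase.2]; ring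
      · have hdx : dist x z < 2 * s ∧ dist y z < 2 * s := by
          rw [not_and_or] at hcase
          rcases hcase with h | h
          · have h1 := hwz z x h
            exact ⟨by linarith, by
              have := dist_triangle y x z
              rw [dist_comm y x] at this
              linarith⟩
          · have h1 := hwz z y h
            exact ⟨by
              have := dist_triangle x y z
              linarith, by linarith⟩
        have e1 : a z x + a x y = a z y := by
          refine ha z x y ?_ (by linarith) ?_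
          · rw [dist_comm]; linarith [hdx.1]
          · rw [dist_comm]; linarith [hdx.2]
        have e2 : a z z0 + a z0 x = a z x := by
          refine ha z z0 x ?_ ?_ ?_
          · have := dist_triangle z x z0
            rw [dist_comm z x] at this
            linarith [hdx.1]
          · rw [dist_comm]; linarith
          · rw [dist_comm]; linarith [hdx.1]
        have e1' : (a z y : ℝ) = a z x + a x y := by rw [← e1]; push_cast; ring
        have e2' : (a z x : ℝ) = a z z0 + a z0 x := by rw [← e2]; push_cast; ring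
        rw [e1', e2']
        ring
    have hsum : t y - t x - a x y = ∑ z ∈ Z, (w z y - w z x) * a z z0 := by
      rw [← Finset.sum_congr rfl hterm]
      rw [Finset.sum_sub_distrib, Finset.sum_sub_distrib, Finset.sum_sub_distrib,
        ← Finset.sum_mul, ← Finset.sum_mul, Finset.sum_sub_distrib, hw1, hw1]
      simp only [t]
      ring
    rw [hsum]
    refine (Finset.abs_sum_le_sum_abs _ _).trans (Finset.sum_le_sum fun z hz => ?_)
    rw [abs_mul]
    exact mul_le_mul_of_nonneg_left (hAle z hz z0 hz0) (abs_nonneg _)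
  have hunif : ∀ ε > 0, ∃ δ > 0, ∀ x y, dist x y < δ → |t y - t x - a x y| < ε := by
    intro ε hε
    have h1 : ∀ z, UniformContinuous (w z) := fun z =>
      CompactSpace.uniformContinuous_of_continuous (hwc z)
    set η : ℝ := ε / ((Z.card + 1) * (A + 1)) with hη
    have hη0 : 0 < η := by positivity
    have h2 : ∀ z, ∃ δ > 0, ∀ x y, dist x y < δ → |w z y - w z x| < η := by
      intro z
      obtain ⟨δ, hδ, h⟩ := Metric.uniformContinuous_iff.mp (h1 z) η hη0
      refine ⟨δ, hδ, fun x y hxy => ?_⟩
      have := h (a := x) (b := y) hxy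
      rw [dist_comm, Real.dist_eq] at this
      exact this
    choose δ hδ hδ' using h2
    obtain ⟨δ0, hδ0, hδ0'⟩ : ∃ δ0 > 0, ∀ z ∈ Z, δ0 ≤ δ z := by
      rcases Z.eq_empty_or_nonempty with h | h
      · exact ⟨1, one_pos, by simp [h]⟩
      · refine ⟨Z.inf' h δ, ?_, fun z hz => Finset.inf'_le _ hz⟩
        rw [gt_iff_lt, Finset.lt_inf'_iff]
        exact fun z _ => hδ z
    refine ⟨min s δ0, lt_min hs0 hδ0, fun x y hxy => ?_⟩
    refine (hkey x y (lt_of_lt_of_le hxy (min_le_left _ _))).trans_lt ?_
    have h3 : ∑ z ∈ Z, |w z y - w z x| * A ≤ ∑ z ∈ Z, η * A := by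
      refine Finset.sum_le_sum fun z hz => ?_
      refine mul_le_mul_of_nonneg_right ?_ hA0
      exact (hδ' z x y (lt_of_lt_of_le hxy ((min_le_right _ _).trans (hδ0' z hz)))).le
    refine h3.trans_lt ?_
    rw [Finset.sum_const, nsmul_eq_mul, hη]
    have h4 : (Z.card : ℝ) * (ε / ((Z.card + 1) * (A + 1)) * A) =
        ε * ((Z.card * A) / ((Z.card + 1) * (A + 1))) := by ring
    rw [h4]
    have h5 : ((Z.card : ℝ) * A) / ((Z.card + 1) * (A + 1)) < 1 := by
      rw [div_lt_one (by positivity)]
      have : (0 : ℝ) ≤ Z.card := by positivity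
      nlinarith
    calc ε * ((Z.card * A) / ((Z.card + 1) * (A + 1))) < ε * 1 := by
          exact mul_lt_mul_of_pos_left h5 hε
      _ = ε := mul_one ε
  have hper : ∀ x y, Circle.exp (2 * Real.pi * t y) =
      Circle.exp (2 * Real.pi * t x) * Circle.exp (2 * Real.pi * (t y - t x - a x y)) := by
    intro x y
    rw [← Circle.exp_add]
    have h1 : 2 * Real.pi * t x + 2 * Real.pi * (t y - t x - a x y) =
        2 * Real.pi * t y - (a x y : ℝ) * (2 * Real.pi) := by ring
    rw [h1]
    have := Circle.periodic_exp.sub_int_mul_eq (x := 2 * Real.pi * t y) (a x y)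
    exact this.symm
  have hcont : Continuous fun x => Circle.exp (2 * Real.pi * t x) := by
    rw [continuous_iff_continuousAt]
    intro x
    have h1 : Tendsto (fun y => t y - t x - a x y) (𝓝 x) (𝓝 0) := by
      rw [Metric.tendsto_nhds]
      intro ε hε
      obtain ⟨δ, hδ, h⟩ := hunif ε hε
      filter_upwards [Metric.ball_mem_nhds x hδ] with y hy
      rw [Real.dist_eq, sub_zero]
      refine h x y ?_
      rw [dist_comm]
      exact hy
    have h2 : Tendsto (fun y => Circle.exp (2 * Real.pi * t x) *
        Circle.exp (2 * Real.pi * (t y - t x - a x y))) (𝓝 x)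
        (𝓝 (Circle.exp (2 * Real.pi * t x) * Circle.exp (2 * Real.pi * 0))) := by
      refine Tendsto.const_mul _ ?_
      exact (Circle.exp.continuous.tendsto _).comp (h1.const_mul _)
    rw [mul_zero, Circle.exp_zero, mul_one] at h2
    refine h2.congr fun y => ?_
    exact (hper x y).symm
  refine ⟨⟨fun x => Circle.exp (2 * Real.pi * t x), hcont⟩, t, fun x => ?_, hunif⟩
  simp

end C

end Pool.Agent.Helper499.HC
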