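import Pool.Agent.Helper499.HC.Defs

set_option autoImplicit false

namespace Pool.Agent.Helper499.HC

open Relation Filter Topology Set


section C
variable {X : Type} [MetricSpace X] [CompactSpace X]



theorem rep_prod {n : ℕ} (u : Fin n → C(X, Circle)) (a : Fin n → X → X → ℤ)
    (h : ∀ i, Rep (u i) (a i)) (k : Fin n → ℤ) :
    Rep (fun x => ∏ i, (u i x) ^ (k i)) (fun x y => ∑ i, k i * a i x y) := by
  choose t ht hr using h
  refine ⟨fun x => ∑ i, (k i : ℝ) * t i x, fun x => ?_, fun ε hε => ?_⟩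
  · have h1 : ((∏ i, (u i x) ^ (k i) : Circle) : ℂ) = ∏ i, ((u i x : Circle) : ℂ) ^ (k i) := by
      exact map_prod Circle.coeHom (fun i => (u i x) ^ (k i)) Finset.univ
    rw [h1]
    have h2 : ((2 * Real.pi * (∑ i, (k i : ℝ) * t i x) : ℝ) : ℂ) * Complex.I =
        ∑ i, (k i : ℂ) * (((2 * Real.pi * t i x : ℝ) : ℂ) * Complex.I) := by
      push_cast
      rw [Finset.mul_sum, Finset.sum_mul]
      apply Finset.sum_congr rfl
      intro i _
      ring
    rw [h2, Complex.exp_sum]
    apply Finset.prod_congr rfl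
    intro i _
    rw [ht i x, ← Complex.exp_int_mul]
  · set K : ℝ := ∑ i, |(k i : ℝ)| with hK
    have hK0 : 0 ≤ K := Finset.sum_nonneg fun i _ => abs_nonneg _
    have hδ : 0 < ε / (1 + K) := by positivity
    choose R hR0 hR using fun i => hr i (ε / (1 + K)) hδ
    obtain ⟨r, hr0, hrR⟩ : ∃ r > 0, ∀ i, r ≤ R i := by
      have h1 : ∀ᶠ r in 𝓝[>] (0 : ℝ), ∀ i, r ≤ R i := by
        rw [Filter.eventually_all]
        intro i
        filter_upwards [Ioc_mem_nhdsGT (hR0 i)] with r hr
        exact hr.2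
      obtain ⟨r, h1, h2⟩ := (h1.and self_mem_nhdsWithin).exists
      exact ⟨r, h2, h1⟩
    refine ⟨r, hr0, fun x y hxy => ?_⟩
    have h1 : (∑ i, (k i : ℝ) * t i y) - (∑ i, (k i : ℝ) * t i x) -
        ((∑ i, k i * a i x y : ℤ) : ℝ) = ∑ i, (k i : ℝ) * (t i y - t i x - a i x y) := by
      push_cast
      rw [← Finset.sum_sub_distrib, ← Finset.sum_sub_distrib]
      apply Finset.sum_congr rfl
      intro i _
      ring
    rw [h1]
    calc |∑ i, (k i : ℝ) * (t i y - t i x - a i x y)|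
        ≤ ∑ i, |(k i : ℝ) * (t i y - t i x - a i x y)| := Finset.abs_sum_le_sum_abs _ _
      _ ≤ ∑ i, |(k i : ℝ)| * (ε / (1 + K)) := by
          apply Finset.sum_le_sum
          intro i _
          rw [abs_mul]
          exact mul_le_mul_of_nonneg_left (hR i x y (lt_of_lt_of_le hxy (hrR i))).le (abs_nonneg _)
      _ = K * (ε / (1 + K)) := by rw [← Finset.sum_mul]
      _ < ε := by
          rw [← mul_div_assoc, div_lt_iff₀ (by positivity)]
          nlinarith

theorem cob_of_lift (u : X → Circle) (a : X → X → ℤ) (h : Rep u a) (f : C(X, ℝ))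
    (hf : ∀ x, (u x : ℂ) = Complex.exp ((f x : ℂ) * Complex.I)) : LocCob a := by
  obtain ⟨t, ht, hr⟩ := h
  have h1 : ∀ x, ∃ n : ℤ, 2 * Real.pi * t x = f x + n * (2 * Real.pi) := by
    intro x
    have h2 := (ht x).symm.trans (hf x)
    rw [Complex.exp_eq_exp_iff_exists_int] at h2
    obtain ⟨n, hn⟩ := h2
    refine ⟨n, ?_⟩
    have h3 : ((2 * Real.pi * t x : ℝ) : ℂ) = ((f x + n * (2 * Real.pi) : ℝ) : ℂ) := by
      apply mul_right_cancel₀ Complex.I_ne_zero
      rw [hn]
      push_cast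
      ring
    exact_mod_cast h3
  choose n hn using h1
  obtain ⟨r1, hr1, h1⟩ := hr (1 / 4) (by norm_num)
  have hu := CompactSpace.uniformContinuous_of_continuous f.continuous
  rw [Metric.uniformContinuous_iff] at hu
  obtain ⟨δ, hδ, h2⟩ := hu (Real.pi / 2) (by positivity)
  refine ⟨min r1 δ, lt_min hr1 hδ, n, fun x y hxy => ?_⟩
  have h3 := h1 x y (lt_of_lt_of_le hxy (min_le_left _ _))
  have h4 := h2 (lt_of_lt_of_le hxy (min_le_right _ _))
  rw [Real.dist_eq, abs_lt] at h4
  rw [abs_lt] at h3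
  have hpi := Real.pi_pos
  have e1 := hn x
  have e2 := hn y
  have h5 : |((a x y - (n y - n x) : ℤ) : ℝ)| < 1 := by
    push_cast
    rw [abs_lt]
    constructor
    · have : -(2 * Real.pi) < 2 * Real.pi * (a x y - (n y - n x)) := by
        nlinarith
      nlinarith
    · have : 2 * Real.pi * (a x y - (n y - n x)) < (2 * Real.pi) := by
        nlinarith
      nlinarith
  have h6 : |a x y - (n y - n x)| < 1 := by exact_mod_cast h5
  have h7 := Int.abs_lt_one_iff.1 h6
  omega

theorem lift_of_cob (u : X → Circle) (a : X → X → ℤ) (h : Rep u a) (hc : LocCob a) :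
    ∃ f : C(X, ℝ), ∀ x, (u x : ℂ) = Complex.exp ((f x : ℂ) * Complex.I) := by
  obtain ⟨t, ht, hr⟩ := h
  obtain ⟨r0, hr0, ψ, hψ⟩ := hc
  have hcont : Continuous (fun x => 2 * Real.pi * (t x - ψ x)) := by
    apply Continuous.mul continuous_const
    rw [Metric.continuous_iff]
    intro x ε hε
    obtain ⟨r, hr1, h1⟩ := hr ε hε
    refine ⟨min r r0, lt_min hr1 hr0, fun y hy => ?_⟩
    rw [dist_comm] at hy
    have h2 := h1 x y (lt_of_lt_of_le hy (min_le_left _ _))
    have h3 := hψ x y (lt_of_lt_of_le hy (min_le_right _ _))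
    rw [Real.dist_eq]
    rw [h3] at h2
    push_cast at h2
    convert h2 using 2
    ring
  refine ⟨⟨_, hcont⟩, fun x => ?_⟩
  rw [ht x, Complex.exp_eq_exp_iff_exists_int]
  refine ⟨ψ x, ?_⟩
  simp only [ContinuousMap.coe_mk]
  push_cast
  ring

end C

end Pool.Agent.Helper499.HC
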