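import Mathlib

set_option autoImplicit false

namespace Pool.Agent.Helper499.HC

open Relation

/-! ### Free group words -/

section Tree
variable {α : Type} [DecidableEq α]

/-- first letter of the reduced word -/
def hd (g : FreeGroup α) : Option (α × Bool) := g.toWord.head?

/-- the one letter word -/
def step (t : α × Bool) : FreeGroup α := FreeGroup.mk [t]

/-- inverse letter -/
def flip (t : α × Bool) : α × Bool := (t.1, !t.2)

/-- an end of the Cayley tree, given by the direction `s v` to it from each vertex `v` -/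
structure IsEnd (s : FreeGroup α → α × Bool) : Prop where
  back : ∀ v t, s v ≠ t → s (v * step t) = flip t
  fwd : ∀ v t, s v = t → s (v * step t) ≠ flip t

end Tree

/-! ### Local cocycles with values in a free group and the associated covering space -/

/-- a local cocycle on a metric space with values in a free group, with values of length at most 2 -/
structure Coc (X : Type) [MetricSpace X] (α : Type) [DecidableEq α] where
  c : X → X → FreeGroup α
  lam : ℝ
  lam_pos : 0 < lam
  coc : ∀ x y z, dist x y < lam → dist y z < lam → dist x z < lam → c x y * c y z = c x z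
  bd : ∀ x y, (c x y).norm ≤ 2

section Hat
variable {X : Type} [MetricSpace X] {α : Type} [DecidableEq α]

theorem Coc.self (S : Coc X α) (x : X) : S.c x x = 1 := by
  have h := S.coc x x x (by simpa using S.lam_pos) (by simpa using S.lam_pos)
    (by simpa using S.lam_pos)
  simpa using h

theorem Coc.symm (S : Coc X α) (x y : X) (h : dist x y < S.lam) : S.c y x = (S.c x y)⁻¹ := by
  have h1 := S.coc x y x h (by rwa [dist_comm]) (by simpa using S.lam_pos)
  rw [S.self] at h1
  exact (inv_eq_of_mul_eq_one_right h1).symm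

/-- points of the covering space -/
@[ext]
structure Hat (S : Coc X α) where
  pt : X
  g : FreeGroup α

variable {S : Coc X α}

open Classical in
/-- the metric of the covering space -/
noncomputable def Hat.d (p q : Hat S) : ℝ :=
  if dist p.pt q.pt < S.lam / 4 ∧ q.g = p.g * S.c p.pt q.pt then dist p.pt q.pt else S.lam / 4

theorem Hat.d_le (p q : Hat S) : Hat.d p q ≤ S.lam / 4 := by
  unfold Hat.d
  split_ifs with h
  · exact h.1.le
  · exact le_rfl

theorem Hat.d_nonneg (p q : Hat S) : 0 ≤ Hat.d p q := by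
  unfold Hat.d
  have := S.lam_pos
  split_ifs with h
  · exact dist_nonneg
  · positivity

theorem Hat.d_lt_iff (p q : Hat S) {r : ℝ} (hr : r ≤ S.lam / 4) :
    Hat.d p q < r ↔ dist p.pt q.pt < r ∧ q.g = p.g * S.c p.pt q.pt := by
  unfold Hat.d
  constructor
  · intro h
    split_ifs at h with h1
    · exact ⟨h, h1.2⟩
    · exact absurd h (not_lt.mpr hr)
  · intro h
    rw [if_pos ⟨lt_of_lt_of_le h.1 hr, h.2⟩]
    exact h.1

theorem Hat.d_self (p : Hat S) : Hat.d p p = 0 := by
  unfold Hat.d
  have := S.lam_pos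
  rw [if_pos]
  · simp
  · refine ⟨by simp; positivity, by simp [S.self]⟩

theorem Hat.d_comm_le (p q : Hat S) : Hat.d q p ≤ Hat.d p q := by
  have hl := S.lam_pos
  by_cases h : Hat.d p q < S.lam / 4
  · have h1 := (Hat.d_lt_iff p q le_rfl).mp h
    have h2 : dist q.pt p.pt < S.lam / 4 ∧ p.g = q.g * S.c q.pt p.pt := by
      refine ⟨by rw [dist_comm]; exact h1.1, ?_⟩
      rw [S.symm p.pt q.pt (by linarith [h1.1]), h1.2]
      group
    unfold Hat.d
    rw [if_pos h2, if_pos h1, dist_comm]
  · have := Hat.d_le q p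
    linarith [not_lt.mp h]

theorem Hat.d_tri (p q r : Hat S) : Hat.d p r ≤ Hat.d p q + Hat.d q r := by
  have hl := S.lam_pos
  by_cases h : Hat.d p q + Hat.d q r < S.lam / 4
  · have hpq : Hat.d p q < S.lam / 4 := by linarith [Hat.d_nonneg q r]
    have hqr : Hat.d q r < S.lam / 4 := by linarith [Hat.d_nonneg p q]
    have h1 := (Hat.d_lt_iff p q le_rfl).mp hpq
    have h2 := (Hat.d_lt_iff q r le_rfl).mp hqr
    have e1 : Hat.d p q = dist p.pt q.pt := by unfold Hat.d; rw [if_pos h1]
    have e2 : Hat.d q r = dist q.pt r.pt := by unfold Hat.d; rw [if_pos h2]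
    have h3 : dist p.pt r.pt < S.lam / 4 := by
      have := dist_triangle p.pt q.pt r.pt
      rw [e1, e2] at h
      linarith
    have h4 : r.g = p.g * S.c p.pt r.pt := by
      rw [h2.2, h1.2, ← S.coc p.pt q.pt r.pt (by linarith [h1.1]) (by linarith [h2.1])
        (by linarith)]
      group
    have e3 : Hat.d p r = dist p.pt r.pt := by unfold Hat.d; rw [if_pos ⟨h3, h4⟩]
    rw [e1, e2, e3]
    exact dist_triangle _ _ _
  · exact le_trans (Hat.d_le p r) (not_lt.mp h)

noncomputable instance Hat.instMetric : MetricSpace (Hat S) where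
  dist := Hat.d
  dist_self := Hat.d_self
  dist_comm p q := le_antisymm (Hat.d_comm_le q p) (Hat.d_comm_le p q)
  dist_triangle := Hat.d_tri
  eq_of_dist_eq_zero := by
    intro p q h
    have hl := S.lam_pos
    have h' : Hat.d p q < S.lam / 4 := by
      have : Hat.d p q = 0 := h
      rw [this]; positivity
    have h1 := (Hat.d_lt_iff p q le_rfl).mp h'
    have e1 : Hat.d p q = dist p.pt q.pt := by unfold Hat.d; rw [if_pos h1]
    have h0 : dist p.pt q.pt = 0 := by rw [← e1]; exact h
    have h2 : p.pt = q.pt := dist_eq_zero.mp h0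
    apply Hat.ext h2
    have h3 := h1.2
    rw [← h2, S.self, mul_one] at h3
    exact h3.symm

theorem Hat.dist_lt_iff (p q : Hat S) {r : ℝ} (hr : r ≤ S.lam / 4) :
    dist p q < r ↔ dist p.pt q.pt < r ∧ q.g = p.g * S.c p.pt q.pt :=
  Hat.d_lt_iff p q hr

/-- left action of the free group -/
def Hat.act (γ : FreeGroup α) (p : Hat S) : Hat S := ⟨p.pt, γ * p.g⟩

theorem Hat.dist_act (γ : FreeGroup α) (p q : Hat S) :
    dist (Hat.act γ p) (Hat.act γ q) = dist p q := by
  change Hat.d _ _ = Hat.d _ _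
  unfold Hat.d Hat.act
  simp only [mul_assoc, mul_right_inj]

/-- being joined by a chain with steps less than `δ` -/
def CC {Y : Type} [MetricSpace Y] (δ : ℝ) (p q : Y) : Prop :=
  ReflTransGen (fun a b => dist a b < δ) p q

theorem CC.symm' {Y : Type} [MetricSpace Y] {δ : ℝ} {p q : Y} (h : CC δ p q) : CC δ q p := by
  unfold CC at *
  induction h with
  | refl => exact ReflTransGen.refl
  | tail _ h2 ih => exact ReflTransGen.head (by rwa [dist_comm]) ih

theorem CC.trans' {Y : Type} [MetricSpace Y] {δ : ℝ} {p q r : Y} (h : CC δ p q) (h' : CC δ q r) :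
    CC δ p r := ReflTransGen.trans h h'

theorem CC.act {δ : ℝ} {p q : Hat S} (γ : FreeGroup α) (h : CC δ p q) :
    CC δ (Hat.act γ p) (Hat.act γ q) := by
  unfold CC at *
  induction h with
  | refl => exact ReflTransGen.refl
  | tail _ h2 ih => exact ih.tail (by rwa [Hat.dist_act])

/-- the group of holonomies of closed `δ`-chains at `x₀` -/
def Gam (S : Coc X α) (x₀ : X) (δ : ℝ) : Subgroup (FreeGroup α) where
  carrier := {γ | CC δ (⟨x₀, 1⟩ : Hat S) ⟨x₀, γ⟩}
  one_mem' := ReflTransGen.refl
  mul_mem' := by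
    intro a b ha hb
    have h := CC.act a hb
    have e1 : (Hat.act a (⟨x₀, 1⟩ : Hat S)) = ⟨x₀, a⟩ := by simp [Hat.act]
    have e2 : (Hat.act a (⟨x₀, b⟩ : Hat S)) = ⟨x₀, a * b⟩ := by simp [Hat.act]
    rw [e1, e2] at h
    exact CC.trans' ha h
  inv_mem' := by
    intro a ha
    have h := CC.act a⁻¹ ha
    have e1 : (Hat.act a⁻¹ (⟨x₀, 1⟩ : Hat S)) = ⟨x₀, a⁻¹⟩ := by simp [Hat.act]
    have e2 : (Hat.act a⁻¹ (⟨x₀, a⟩ : Hat S)) = ⟨x₀, 1⟩ := by simp [Hat.act]
    rw [e1, e2] at h
    exact CC.symm' h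

/-- good homeomorphisms of the covering space -/
def Good (S : Coc X α) (H : Hat S ≃ₜ Hat S) : Prop :=
  (∀ γ r, H (Hat.act γ r) = Hat.act γ (H r)) ∧ UniformContinuous H ∧ UniformContinuous H.symm ∧
    ∃ C : ℕ, ∀ r, (r.g⁻¹ * (H r).g).norm ≤ C

/-- the set of points joined to the base point by chains of all scales -/
def Quasi (S : Coc X α) (x₀ : X) : Set (Hat S) := {q | ∀ δ > 0, CC δ (⟨x₀, 1⟩ : Hat S) q}

end Hat

/-! ### Covers of order at most two -/

/-- a finite open cover such that no three different members have a common point -/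
structure Cov (X : Type) [TopologicalSpace X] where
  m : ℕ
  U : Fin m → Set X
  isOpen : ∀ i, IsOpen (U i)
  cover : ∀ x, ∃ i, x ∈ U i
  ord : ∀ x i j k, x ∈ U i → x ∈ U j → x ∈ U k → i = j ∨ i = k ∨ j = k

namespace Cov
variable {X : Type} [TopologicalSpace X] (C : Cov X)

/-- a chosen member containing the point -/
noncomputable def idx (x : X) : Fin C.m := (C.cover x).choose

theorem idx_mem (x : X) : x ∈ C.U (C.idx x) := (C.cover x).choose_spec

/-- the edge elements -/
def e (i j : Fin C.m) : FreeGroup (Fin C.m × Fin C.m) :=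
  if i < j then FreeGroup.of (i, j) else if j < i then (FreeGroup.of (j, i))⁻¹ else 1

theorem e_self (i : Fin C.m) : C.e i i = 1 := by simp [e]

theorem e_symm (i j : Fin C.m) : C.e j i = (C.e i j)⁻¹ := by
  unfold e
  rcases lt_trichotomy i j with h | h | h
  · simp [h, h.not_gt]
  · subst h; simp
  · simp [h, h.not_gt]

theorem e_norm (i j : Fin C.m) : (C.e i j).norm ≤ 1 := by
  unfold e
  split_ifs <;> simp [FreeGroup.norm_of]

theorem e_triple {x : X} {i j k : Fin C.m} (hi : x ∈ C.U i) (hj : x ∈ C.U j) (hk : x ∈ C.U k) :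
    C.e i j * C.e j k = C.e i k := by
  rcases C.ord x i j k hi hj hk with h | h | h
  · subst h; rw [e_self, one_mul]
  · subst h; rw [e_self, C.e_symm i j]; group
  · subst h; rw [e_self, mul_one]

open Classical in
/-- the cocycle of a cover -/
noncomputable def cc (x y : X) : FreeGroup (Fin C.m × Fin C.m) :=
  if h : ∃ i, x ∈ C.U i ∧ y ∈ C.U i then C.e (C.idx x) h.choose * C.e h.choose (C.idx y) else 1

theorem cc_eq {x y : X} {i : Fin C.m} (hx : x ∈ C.U i) (hy : y ∈ C.U i) :
    C.cc x y = C.e (C.idx x) i * C.e i (C.idx y) := by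
  have h : ∃ i, x ∈ C.U i ∧ y ∈ C.U i := ⟨i, hx, hy⟩
  unfold cc
  rw [dif_pos h]
  obtain ⟨h1, h2⟩ := h.choose_spec
  have e1 : C.e (C.idx x) i = C.e (C.idx x) h.choose * C.e h.choose i :=
    (C.e_triple (C.idx_mem x) h1 hx).symm
  have e2 : C.e h.choose (C.idx y) = C.e h.choose i * C.e i (C.idx y) :=
    (C.e_triple h2 hy (C.idx_mem y)).symm
  rw [e1, e2]
  group

theorem cc_norm (x y : X) : (C.cc x y).norm ≤ 2 := by
  unfold cc
  split_ifs with h
  · calc _ ≤ _ := FreeGroup.norm_mul_le _ _
      _ ≤ 1 + 1 := add_le_add (C.e_norm _ _) (C.e_norm _ _)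
      _ = 2 := rfl
  · simp

end Cov

section toCoc
variable {X : Type} [MetricSpace X] [CompactSpace X] (C : Cov X)

theorem Cov.exists_lebesgue : ∃ r > 0, ∀ x : X, ∃ i, Metric.ball x r ⊆ C.U i := by
  obtain ⟨r, hr, h⟩ := lebesgue_number_lemma_of_metric (s := (Set.univ : Set X)) isCompact_univ
    C.isOpen (fun x _ => Set.mem_iUnion.mpr (C.cover x))
  exact ⟨r, hr, fun x => h x trivial⟩

/-- the Lebesgue number of the cover -/
noncomputable def Cov.leb : ℝ := C.exists_lebesgue.choose

theorem Cov.leb_pos : 0 < C.leb := C.exists_lebesgue.choose_spec.1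

theorem Cov.leb_spec (x : X) : ∃ i, Metric.ball x C.leb ⊆ C.U i :=
  C.exists_lebesgue.choose_spec.2 x

/-- the cocycle of a cover -/
noncomputable def Cov.toCoc : Coc X (Fin C.m × Fin C.m) where
  c := C.cc
  lam := C.leb
  lam_pos := C.leb_pos
  coc := by
    intro x y z hxy _ hxz
    obtain ⟨i, hi⟩ := C.leb_spec x
    have hx : x ∈ C.U i := hi (Metric.mem_ball_self C.leb_pos)
    have hy : y ∈ C.U i := hi (by rw [Metric.mem_ball, dist_comm]; exact hxy)
    have hz : z ∈ C.U i := hi (by rw [Metric.mem_ball, dist_comm]; exact hxz)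
    rw [C.cc_eq hx hy, C.cc_eq hy hz, C.cc_eq hx hz]
    rw [C.e_symm i (C.idx y)]
    group
  bd := C.cc_norm

end toCoc

/-! ### Refinements -/

section Refine
variable {X : Type} [MetricSpace X] [CompactSpace X] (C W : Cov X) (ρ : Fin W.m → Fin C.m)

/-- the homomorphism induced by a refinement -/
noncomputable def phi : FreeGroup (Fin W.m × Fin W.m) →* FreeGroup (Fin C.m × Fin C.m) :=
  FreeGroup.lift (fun p => C.e (ρ p.1) (ρ p.2))

/-- the comparison elements -/
noncomputable def bb (x : X) : FreeGroup (Fin C.m × Fin C.m) := C.e (ρ (W.idx x)) (C.idx x)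

/-- the comparison map between the covering spaces -/
noncomputable def cmp (x₀ : X) (p : Hat W.toCoc) : Hat C.toCoc :=
  ⟨p.pt, (bb C W ρ x₀)⁻¹ * phi C W ρ p.g * bb C W ρ p.pt⟩

end Refine

/-- the chain component of the base point -/
def Comp {X : Type} [MetricSpace X] {α : Type} [DecidableEq α] (S : Coc X α) (x₀ : X) (δ : ℝ) :
    Set (Hat S) := {q | CC δ (⟨x₀, 1⟩ : Hat S) q}

/-! ### Local integer cocycles -/

section Loc
variable {X : Type} [MetricSpace X]

/-- local cocycle with integer values at scale `r` -/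
def LocCoc (r : ℝ) (a : X → X → ℤ) : Prop :=
  ∀ x y z, dist x y < r → dist y z < r → dist x z < r → a x y + a y z = a x z

/-- local coboundary -/
def LocCob (a : X → X → ℤ) : Prop :=
  ∃ r > 0, ∃ ψ : X → ℤ, ∀ x y, dist x y < r → a x y = ψ y - ψ x

/-- the circle map `u` is represented by the local cocycle `a` -/
def Rep (u : X → Circle) (a : X → X → ℤ) : Prop :=
  ∃ t : X → ℝ, (∀ x, (u x : ℂ) = Complex.exp ((2 * Real.pi * t x : ℝ) * Complex.I)) ∧
    ∀ ε > 0, ∃ r > 0, ∀ x y, dist x y < r → |t y - t x - a x y| < ε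

end Loc

/-- the covering dimension hypothesis of the problem -/
def DimLeOne (X : Type) [TopologicalSpace X] : Prop :=
  ∀ (n : ℕ) (U : Fin n → Set X), (∀ i, IsOpen (U i)) → (⋃ i, U i) = Set.univ →
    ∃ (m : ℕ) (V : Fin m → Set X), (∀ j, IsOpen (V j)) ∧ (⋃ j, V j) = Set.univ ∧
      (∀ j, ∃ i, V j ⊆ U i) ∧
      ∀ (x : X) (j₁ j₂ j₃ : Fin m), x ∈ V j₁ → x ∈ V j₂ → x ∈ V j₃ →
        j₁ = j₂ ∨ j₁ = j₃ ∨ j₂ = j₃


end Pool.Agent.Helper499.HC
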