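import Pool.Agent.Helper499.HC.Defs

set_option autoImplicit false

namespace Pool.Agent.Helper499.HC

open Relation Filter Topology Set

theorem effros_dense {X : Type} [MetricSpace X] [CompactSpace X]
    (hom : ∀ x y : X, ∃ h : X ≃ₜ X, h x = y) (ε : ℝ) (hε : 0 < ε) (x : X) :
    ∃ δ > 0, ∀ y : X, dist x y < δ → ∀ η > 0, ∃ h : X ≃ₜ X, (∀ z, dist z (h z) < ε) ∧
      dist (h x) y < η := by
  have : SecondCountableTopology X := EMetric.secondCountable_of_sigmaCompact X
  have : Nonempty X := ⟨x⟩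
  set S : Set C(X, X) := range (fun g : X ≃ₜ X => (⟨g.symm, g.symm.continuous⟩ : C(X, X))) with hS
  obtain ⟨t, htc, htd⟩ := TopologicalSpace.exists_countable_dense S
  have : Countable t := htc.to_subtype
  have hk : ∀ s : t, ∃ g : X ≃ₜ X, (⟨g.symm, g.symm.continuous⟩ : C(X, X)) = s.1.1 := fun s => s.1.2
  choose k hk using hk
  set A : Set X := {y | ∃ n : X ≃ₜ X, (∀ z, dist z (n z) < ε / 2) ∧ n x = y} with hA
  have hcov : ⋃ s : t, (k s) '' closure A = univ := by
    rw [eq_univ_iff_forall]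
    intro y
    obtain ⟨g, hg⟩ := hom x y
    have hgS : (⟨g.symm, g.symm.continuous⟩ : C(X, X)) ∈ S := ⟨g, rfl⟩
    obtain ⟨s, hs, hd⟩ := htd.exists_dist_lt (⟨_, hgS⟩ : S) (half_pos hε)
    have hd' : dist (⟨g.symm, g.symm.continuous⟩ : C(X, X)) s.1 < ε / 2 := hd
    have hw : ∀ w, dist (g.symm w) ((k ⟨s, hs⟩).symm w) < ε / 2 := by
      intro w
      have h1 := (ContinuousMap.dist_apply_le_dist (f := (⟨g.symm, g.symm.continuous⟩ : C(X, X)))
        (g := s.1) w).trans_lt hd'
      rw [← hk ⟨s, hs⟩] at h1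
      exact h1
    refine mem_iUnion.2 ⟨⟨s, hs⟩, (k ⟨s, hs⟩).symm y, subset_closure ?_, by simp⟩
    refine ⟨g.trans (k ⟨s, hs⟩).symm, fun z => ?_, by simp [hg]⟩
    have := hw (g z)
    simpa using this
  obtain ⟨s, hs⟩ := nonempty_interior_of_iUnion_of_closed
    (fun s : t => (k s).isClosed_image.2 isClosed_closure) hcov
  rw [← (k s).image_interior] at hs
  obtain ⟨v, hv⟩ : (interior (closure A)).Nonempty := by simpa using hs
  obtain ⟨a, haV, haA⟩ := mem_closure_iff.1 (interior_subset hv) _ isOpen_interior hv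
  obtain ⟨n, hn, hna⟩ := haA
  have hopen : IsOpen (n ⁻¹' interior (closure A)) := isOpen_interior.preimage n.continuous
  obtain ⟨δ, hδ, hball⟩ := Metric.isOpen_iff.1 hopen x (by rw [mem_preimage, hna]; exact haV)
  refine ⟨δ, hδ, fun y hy η hη => ?_⟩
  have hyV : n y ∈ closure A := interior_subset (hball (by rwa [Metric.mem_ball']))
  obtain ⟨η', hη', hc⟩ := Metric.continuous_iff.1 n.symm.continuous (n y) η hη
  obtain ⟨a', ⟨m, hm, hma⟩, hd⟩ := Metric.mem_closure_iff.1 hyV η' hη'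
  refine ⟨m.trans n.symm, fun z => ?_, ?_⟩
  · have h1 := hn (n.symm (m z))
    rw [n.apply_symm_apply] at h1
    calc dist z ((m.trans n.symm) z) = dist z (n.symm (m z)) := rfl
      _ ≤ dist z (m z) + dist (m z) (n.symm (m z)) := dist_triangle _ _ _
      _ = dist z (m z) + dist (n.symm (m z)) (m z) := by rw [dist_comm (m z)]
      _ < ε / 2 + ε / 2 := add_lt_add (hm z) h1
      _ = ε := by ring
  · have h2 := hc a' (by rw [dist_comm]; exact hd)
    rw [n.symm_apply_apply] at h2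
    simpa [hma] using h2

end Pool.Agent.Helper499.HC
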