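import Pool.Agent.Helper499.HC.Defs
import Pool.Agent.Helper499.HC.E01

set_option autoImplicit false

namespace Pool.Agent.Helper499.HC

open Relation Filter Topology Set




theorem exists_limit {X : Type} [MetricSpace X] [CompactSpace X] (P : ℕ → X → X)
    (hc : ∀ j, Continuous (P j)) (a : ℕ → ℝ) (ha : Summable a)
    (h : ∀ j z, dist (P j z) (P (j + 1) z) ≤ a j) :
    ∃ f : X → X, Continuous f ∧ TendstoUniformly P f atTop ∧ ∀ z, dist (P 0 z) (f z) ≤ ∑' j, a j := by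
  have h1 : ∀ z, ∃ w, Tendsto (fun j => P j z) atTop (𝓝 w) := fun z =>
    cauchySeq_tendsto_of_complete (cauchySeq_of_dist_le_of_summable a (fun j => h j z) ha)
  choose f hf using h1
  have hu : TendstoUniformly P f atTop := by
    rw [Metric.tendstoUniformly_iff]
    intro ε hε
    have h2 := tendsto_sum_nat_add a
    filter_upwards [(tendsto_order.1 h2).2 ε hε] with n hn z
    rw [dist_comm]
    refine lt_of_le_of_lt (dist_le_tsum_of_dist_le_of_tendsto a (fun j => h j z) ha (hf z) n) ?_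
    simpa only [add_comm] using hn
  exact ⟨f, hu.continuous (Frequently.of_forall hc), hu, fun z =>
    dist_le_tsum_of_dist_le_of_tendsto₀ a (fun j => h j z) ha (hf z)⟩

theorem limit_homeo {X : Type} [MetricSpace X] [CompactSpace X] (P : ℕ → X ≃ₜ X)
    (a b : ℕ → ℝ) (ha : Summable a) (hb : Summable b)
    (h : ∀ j z, dist (P j z) (P (j + 1) z) ≤ a j)
    (h' : ∀ j z, dist ((P j).symm z) ((P (j + 1)).symm z) ≤ b j) :
    ∃ f : X ≃ₜ X, (∀ z, Tendsto (fun j => P j z) atTop (𝓝 (f z))) ∧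
      ∀ z, dist (P 0 z) (f z) ≤ ∑' j, a j := by
  obtain ⟨f, hf, hfu, hfd⟩ := exists_limit (fun j z => P j z) (fun j => (P j).continuous) a ha h
  obtain ⟨g, hg, hgu, -⟩ := exists_limit (fun j z => (P j).symm z) (fun j => (P j).symm.continuous)
    b hb h'
  have hfg : ∀ z, f (g z) = z := by
    intro z
    have h1 := hfu.tendsto_comp (hf.continuousAt (x := g z)) (hgu.tendsto_at z)
    refine tendsto_nhds_unique h1 ?_
    simp
  have hgf : ∀ z, g (f z) = z := by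
    intro z
    have h1 := hgu.tendsto_comp (hg.continuousAt (x := f z)) (hfu.tendsto_at z)
    refine tendsto_nhds_unique h1 ?_
    simp
  refine ⟨⟨⟨f, g, hgf, hfg⟩, hf, hg⟩, fun z => hfu.tendsto_at z, hfd⟩

def GoodE {X : Type} [MetricSpace X] (ε : ℝ) (x y : X) (n : ℕ)
    (s : (X ≃ₜ X) × (X ≃ₜ X) × ℝ) : Prop :=
  0 < s.2.2 ∧ s.2.2 ≤ ε / 8 * (1 / 2) ^ n ∧
  (∀ z w, dist z w < s.2.2 → dist (s.1.symm z) (s.1.symm w) ≤ (1 / 2) ^ n) ∧
  dist (s.1 x) (s.2.1 y) < (1 / 2) ^ n ∧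
  (∀ η > 0, ∃ k : X ≃ₜ X, (∀ z, dist z (k z) < s.2.2) ∧ dist (k (s.1 x)) (s.2.1 y) < η)

def Rel {X : Type} [MetricSpace X] (ε : ℝ) (n : ℕ)
    (s s' : (X ≃ₜ X) × (X ≃ₜ X) × ℝ) : Prop :=
  (∀ z, dist (s.1 z) (s'.1 z) ≤ ε / 8 * (1 / 2) ^ n) ∧
  (∀ z, dist (s.1.symm z) (s'.1.symm z) ≤ (1 / 2) ^ n) ∧
  (∀ z, dist (s.2.1 z) (s'.2.1 z) ≤ ε / 8 * (1 / 2) ^ n) ∧
  (∀ z, dist (s.2.1.symm z) (s'.2.1.symm z) ≤ (1 / 2) ^ n)

theorem modulus {X : Type} [MetricSpace X] [CompactSpace X] (Q : X ≃ₜ X) (A B : ℝ) (hA : 0 < A)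
    (hB : 0 < B) :
    ∃ e > 0, e ≤ A ∧ ∀ z w, dist z w < e → dist (Q z) (Q w) ≤ B := by
  have h := Metric.uniformContinuous_iff.1
    (CompactSpace.uniformContinuous_of_continuous Q.continuous) B hB
  obtain ⟨δ, hδ, h⟩ := h
  exact ⟨min δ A, lt_min hδ hA, min_le_right _ _, fun z w hzw =>
    (h (lt_of_lt_of_le hzw (min_le_left _ _))).le⟩

theorem stepE {X : Type} [MetricSpace X] [CompactSpace X]
    (hom : ∀ x y : X, ∃ h : X ≃ₜ X, h x = y) (ε : ℝ) (hε : 0 < ε) (x y : X) (n : ℕ)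
    (s : (X ≃ₜ X) × (X ≃ₜ X) × ℝ) (hs : GoodE ε x y n s) :
    ∃ s', GoodE ε x y (n + 1) s' ∧ Rel ε n s s' := by
  obtain ⟨P, Q, e⟩ := s
  obtain ⟨he0, he1, he2, he3, he4⟩ := hs
  dsimp only at he0 he1 he2 he3 he4
  obtain ⟨e1, he10, he11, he12⟩ := modulus Q.symm (ε / 8 * (1 / 2) ^ n) ((1 / 2) ^ n)
    (by positivity) (by positivity)
  obtain ⟨δ1, hδ1, hd1⟩ := effros_dense hom e1 he10 (Q y)
  obtain ⟨k, hk1, hk2⟩ := he4 δ1 hδ1
  obtain ⟨e2, he20, he21, he22⟩ := modulus (P.trans k).symm (ε / 8 * (1 / 2) ^ (n + 1))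
    ((1 / 2) ^ (n + 1)) (by positivity) (by positivity)
  obtain ⟨δ2, hδ2, hd2⟩ := effros_dense hom e2 he20 ((P.trans k) x)
  obtain ⟨l, hl1, hl2⟩ := hd1 ((P.trans k) x) (by rw [dist_comm]; exact hk2)
    (min δ2 ((1 / 2) ^ (n + 1))) (lt_min hδ2 (by positivity))
  refine ⟨(P.trans k, Q.trans l, e2), ⟨he20, he21, he22, ?_, ?_⟩, ?_, ?_, ?_, ?_⟩
  · rw [dist_comm]
    exact lt_of_lt_of_le hl2 (min_le_right _ _)
  · intro η hη
    refine hd2 _ ?_ η hη
    rw [dist_comm]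
    exact lt_of_lt_of_le hl2 (min_le_left _ _)
  · intro z
    exact (hk1 (P z)).le.trans he1
  · intro z
    refine he2 _ _ ?_
    have := hk1 (k.symm z)
    rw [Homeomorph.apply_symm_apply, dist_comm] at this
    exact this
  · intro z
    exact (hl1 (Q z)).le.trans he11
  · intro z
    refine he12 _ _ ?_
    have := hl1 (l.symm z)
    rw [Homeomorph.apply_symm_apply, dist_comm] at this
    exact this

theorem pointwise {X : Type} [MetricSpace X] [CompactSpace X]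
    (hom : ∀ x y : X, ∃ h : X ≃ₜ X, h x = y) (ε : ℝ) (hε : 0 < ε) (x : X) :
    ∃ δ > 0, ∀ y : X, dist x y < δ → ∃ h : X ≃ₜ X, h x = y ∧ ∀ z, dist z (h z) < ε := by
  obtain ⟨δ, hδ, hd⟩ := effros_dense hom (min (ε / 8) 1) (by positivity) x
  refine ⟨min δ 1, lt_min hδ one_pos, fun y hy => ?_⟩
  have h0 : GoodE ε x y 0 (Homeomorph.refl X, Homeomorph.refl X, min (ε / 8) 1) := by
    refine ⟨by positivity, by simp, ?_, ?_, ?_⟩
    · intro z w hzw
      simpa using (lt_of_lt_of_le hzw (min_le_right _ _)).le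
    · simpa using lt_of_lt_of_le hy (min_le_right _ _)
    · intro η hη
      exact hd y (lt_of_lt_of_le hy (min_le_left _ _)) η hη
  choose F hF1 hF2 using fun n s (hs : GoodE ε x y n s) => stepE hom ε hε x y n s hs
  let S : ∀ n : ℕ, {s : (X ≃ₜ X) × (X ≃ₜ X) × ℝ // GoodE ε x y n s} := fun n =>
    Nat.rec (motive := fun n => {s : (X ≃ₜ X) × (X ≃ₜ X) × ℝ // GoodE ε x y n s}) ⟨_, h0⟩
      (fun n s => ⟨F n s.1 s.2, hF1 n s.1 s.2⟩) n
  have hS : ∀ n, Rel ε n (S n).1 (S (n + 1)).1 := fun n => hF2 n (S n).1 (S n).2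
  have hgeo : Summable (fun n : ℕ => ((1 : ℝ) / 2) ^ n) := summable_geometric_two
  have hgeo2 : Summable (fun n : ℕ => ε / 8 * ((1 : ℝ) / 2) ^ n) := hgeo.mul_left _
  have hsum : ∑' n : ℕ, ε / 8 * ((1 : ℝ) / 2) ^ n = ε / 4 := by
    rw [tsum_mul_left, tsum_geometric_two]; ring
  obtain ⟨f, hf1, hf2⟩ := limit_homeo (fun n => (S n).1.1) _ _ hgeo2 hgeo
    (fun n z => (hS n).1 z) (fun n z => (hS n).2.1 z)
  obtain ⟨g, hg1, hg2⟩ := limit_homeo (fun n => (S n).1.2.1) _ _ hgeo2 hgeo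
    (fun n z => (hS n).2.2.1 z) (fun n z => (hS n).2.2.2 z)
  rw [hsum] at hf2 hg2
  have hf3 : ∀ z, dist z (f z) ≤ ε / 4 := hf2
  have hg3 : ∀ z, dist z (g z) ≤ ε / 4 := hg2
  have hfg : f x = g y := by
    have h1 : Tendsto (fun n => dist ((S n).1.1 x) ((S n).1.2.1 y)) atTop (𝓝 (dist (f x) (g y))) :=
      (hf1 x).dist (hg1 y)
    have h2 : Tendsto (fun n => dist ((S n).1.1 x) ((S n).1.2.1 y)) atTop (𝓝 0) := by
      refine squeeze_zero (fun _ => dist_nonneg) (fun n => (S n).2.2.2.2.1.le) ?_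
      exact tendsto_pow_atTop_nhds_zero_of_lt_one (by norm_num) (by norm_num)
    exact dist_eq_zero.1 (tendsto_nhds_unique h1 h2)
  refine ⟨f.trans g.symm, ?_, fun z => ?_⟩
  · rw [Homeomorph.trans_apply, hfg, Homeomorph.symm_apply_apply]
  · rw [Homeomorph.trans_apply]
    have h1 := hf3 z
    have h2 := hg3 (g.symm (f z))
    rw [Homeomorph.apply_symm_apply] at h2
    have h3 := dist_triangle z (f z) (g.symm (f z))
    rw [dist_comm (f z)] at h3
    linarith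

theorem effros {X : Type} [MetricSpace X] [CompactSpace X] (hom : ∀ x y : X, ∃ h : X ≃ₜ X, h x = y)
    (ε : ℝ) (hε : 0 < ε) :
    ∃ δ > 0, ∀ x y : X, dist x y < δ → ∃ h : X ≃ₜ X, h x = y ∧ ∀ z, dist z (h z) < ε := by
  choose D hD hD2 using fun x : X => pointwise hom (ε / 2) (half_pos hε) x
  obtain ⟨δ, hδ, hL⟩ := lebesgue_number_lemma_of_metric (s := (Set.univ : Set X))
    (c := fun x : X => Metric.ball x (D x)) isCompact_univ (fun _ => Metric.isOpen_ball)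
    (fun x _ => Set.mem_iUnion.2 ⟨x, Metric.mem_ball_self (hD x)⟩)
  refine ⟨δ, hδ, fun x y hxy => ?_⟩
  obtain ⟨p, hp⟩ := hL x (Set.mem_univ x)
  have hx : dist p x < D p := by
    rw [dist_comm]; exact hp (Metric.mem_ball_self hδ)
  have hy : dist p y < D p := by
    rw [dist_comm]; exact hp (by rw [Metric.mem_ball, dist_comm]; exact hxy)
  obtain ⟨n, hn1, hn2⟩ := hD2 p x hx
  obtain ⟨m, hm1, hm2⟩ := hD2 p y hy
  refine ⟨n.symm.trans m, ?_, fun z => ?_⟩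
  · rw [Homeomorph.trans_apply, ← hn1, Homeomorph.symm_apply_apply, hm1]
  · rw [Homeomorph.trans_apply]
    have h1 := hn2 (n.symm z)
    rw [Homeomorph.apply_symm_apply] at h1
    have h2 := hm2 (n.symm z)
    have h3 := dist_triangle z (n.symm z) (m (n.symm z))
    rw [dist_comm z (n.symm z)] at h3
    linarith

end Pool.Agent.Helper499.HC
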