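import Pool.Agent.Helper499.HC.Defs

set_option autoImplicit false

namespace Pool.Agent.Helper499.HC

open Relation Filter Topology Set


theorem abelian_dep_gen {X : Type*} (h : ∀ x y : FreeGroup X, x * y = y * x) :
    ∃ z : FreeGroup X, ∀ x, x ∈ Subgroup.zpowers z := by
  classical
  have hsub : ∀ a b : X, a = b := by
    intro a b
    by_contra hab
    have h1 := h (FreeGroup.of a) (FreeGroup.of b)
    have h2 := congrArg (FreeGroup.lift
      (fun x : X => if x = a then Equiv.swap (0 : Fin 3) 1 else Equiv.swap (1 : Fin 3) 2)) h1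
    rw [map_mul, map_mul, FreeGroup.lift_apply_of, FreeGroup.lift_apply_of, if_pos rfl,
      if_neg (Ne.symm hab)] at h2
    revert h2
    decide
  by_cases hX : Nonempty X
  · obtain ⟨a⟩ := hX
    refine ⟨FreeGroup.of a, fun x => ?_⟩
    refine FreeGroup.induction_on x (one_mem _) (fun b => ?_) (fun b hb => inv_mem hb)
      (fun x y hx hy => mul_mem hx hy)
    rw [hsub b a]
    exact Subgroup.mem_zpowers _
  · refine ⟨1, fun x => ?_⟩
    refine FreeGroup.induction_on x (one_mem _) (fun b => absurd ⟨b⟩ hX) (fun b hb => inv_mem hb)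
      (fun x y hx hy => mul_mem hx hy)

theorem abelian_dep {α : Type} [DecidableEq α] (Γ : Subgroup (FreeGroup α))
    (hab : ∀ a ∈ Γ, ∀ b ∈ Γ, a * b = b * a) (f₁ f₂ : FreeGroup α →* Multiplicative ℤ) :
    ∃ k l : ℤ, (k ≠ 0 ∨ l ≠ 0) ∧ ∀ g ∈ Γ, (f₁ g) ^ k * (f₂ g) ^ l = 1 := by
  have hF : IsFreeGroup Γ := inferInstance
  set φ := IsFreeGroup.toFreeGroup Γ with hφ
  obtain ⟨z, hz⟩ := abelian_dep_gen (X := IsFreeGroup.Generators Γ) (by
    intro x y
    have h1 : φ.symm x * φ.symm y = φ.symm y * φ.symm x :=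
      Subtype.ext (hab _ (φ.symm x).2 _ (φ.symm y).2)
    rw [← map_mul, ← map_mul] at h1
    exact φ.symm.injective h1)
  set g0 : FreeGroup α := ((φ.symm z : Γ) : FreeGroup α) with hg0
  have hgen : ∀ g ∈ Γ, ∃ n : ℤ, g = g0 ^ n := by
    intro g hg
    obtain ⟨n, hn⟩ := Subgroup.mem_zpowers_iff.1 (hz (φ ⟨g, hg⟩))
    refine ⟨n, ?_⟩
    have h1 : φ.symm (z ^ n) = ⟨g, hg⟩ := by rw [hn, φ.symm_apply_apply]
    rw [map_zpow] at h1
    have h2 := congrArg Subtype.val h1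
    rw [hg0]
    exact h2.symm
  set p : ℤ := Multiplicative.toAdd (f₁ g0) with hp
  set q : ℤ := Multiplicative.toAdd (f₂ g0) with hq
  have key : ∀ k l : ℤ, p * k + q * l = 0 → ∀ g ∈ Γ, (f₁ g) ^ k * (f₂ g) ^ l = 1 := by
    intro k l hkl g hg
    obtain ⟨n, rfl⟩ := hgen g hg
    apply Multiplicative.toAdd.injective
    rw [toAdd_mul, toAdd_zpow, toAdd_zpow, map_zpow f₁, map_zpow f₂, toAdd_zpow, toAdd_zpow,
      toAdd_one, ← hp, ← hq]
    simp only [smul_eq_mul]
    calc k * (n * p) + l * (n * q) = n * (p * k + q * l) := by ring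
      _ = 0 := by rw [hkl, mul_zero]
  by_cases h0 : p = 0 ∧ q = 0
  · exact ⟨1, 0, Or.inl one_ne_zero, key 1 0 (by rw [h0.1, h0.2]; ring)⟩
  · refine ⟨q, -p, ?_, key q (-p) (by ring)⟩
    by_contra hcon
    push Not at hcon
    exact h0 ⟨neg_eq_zero.1 hcon.2, hcon.1⟩

end Pool.Agent.Helper499.HC
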