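import Pool.Agent.Helper499.HC.Defs

set_option autoImplicit false

namespace Pool.Agent.Helper499.HC

open Relation Filter Topology Set

section bb836

variable {k : ℕ} (H : Subgroup (FreeGroup (Fin k)))

/-- functions on the cosets -/
abbrev bb836V : Type := (FreeGroup (Fin k) ⧸ H) → ℚ

/-- functions on the edges -/
abbrev bb836E : Type := Fin k → bb836V H

/-- translation of functions -/
noncomputable def bb836rho (g : FreeGroup (Fin k)) : bb836V H →ₗ[ℚ] bb836V H :=
  LinearMap.funLeft ℚ ℚ (fun q : FreeGroup (Fin k) ⧸ H => g⁻¹ • q)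

theorem bb836rho_apply (g : FreeGroup (Fin k)) (f : bb836V H) (q : FreeGroup (Fin k) ⧸ H) :
    bb836rho H g f q = f (g⁻¹ • q) := rfl

theorem bb836rho_one : bb836rho H 1 = LinearMap.id := by
  apply LinearMap.ext
  intro f
  funext q
  rw [bb836rho_apply, inv_one, one_smul]
  rfl

theorem bb836rho_mul (g h : FreeGroup (Fin k)) :
    bb836rho H (g * h) = bb836rho H g ∘ₗ bb836rho H h := by
  apply LinearMap.ext
  intro f
  funext q
  rw [LinearMap.comp_apply, bb836rho_apply, bb836rho_apply, bb836rho_apply, mul_inv_rev, mul_smul]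

/-- the coefficient module -/
abbrev bb836W : Type := bb836E H →ₗ[ℚ] bb836V H

/-- the action on the coefficient module -/
noncomputable def bb836phi : FreeGroup (Fin k) →* MulAut (Multiplicative (bb836W H)) where
  toFun g :=
    { toFun := fun F => Multiplicative.ofAdd (bb836rho H g ∘ₗ F.toAdd)
      invFun := fun F => Multiplicative.ofAdd (bb836rho H g⁻¹ ∘ₗ F.toAdd)
      left_inv := fun F => by
        change Multiplicative.ofAdd (bb836rho H g⁻¹ ∘ₗ (bb836rho H g ∘ₗ F.toAdd)) = F
        rw [← LinearMap.comp_assoc, ← bb836rho_mul, inv_mul_cancel, bb836rho_one]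
        rfl
      right_inv := fun F => by
        change Multiplicative.ofAdd (bb836rho H g ∘ₗ (bb836rho H g⁻¹ ∘ₗ F.toAdd)) = F
        rw [← LinearMap.comp_assoc, ← bb836rho_mul, mul_inv_cancel, bb836rho_one]
        rfl
      map_mul' := fun F F' => by
        change Multiplicative.ofAdd (bb836rho H g ∘ₗ (F.toAdd + F'.toAdd)) =
          Multiplicative.ofAdd (bb836rho H g ∘ₗ F.toAdd + bb836rho H g ∘ₗ F'.toAdd)
        rw [LinearMap.comp_add] }
  map_one' := by
    apply MulEquiv.ext
    intro F
    change Multiplicative.ofAdd (bb836rho H 1 ∘ₗ F.toAdd) = F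
    rw [bb836rho_one]
    rfl
  map_mul' g h := by
    apply MulEquiv.ext
    intro F
    change Multiplicative.ofAdd (bb836rho H (g * h) ∘ₗ F.toAdd) =
      Multiplicative.ofAdd (bb836rho H g ∘ₗ (bb836rho H h ∘ₗ F.toAdd))
    rw [bb836rho_mul, LinearMap.comp_assoc]

/-- the universal crossed homomorphism -/
theorem bb836_exists : ∃ c : FreeGroup (Fin k) → bb836W H,
    (∀ i, c (FreeGroup.of i) = LinearMap.proj i) ∧
      ∀ g h, c (g * h) = c g + bb836rho H g ∘ₗ c h := by
  let L : FreeGroup (Fin k) →* (Multiplicative (bb836W H) ⋊[bb836phi H] FreeGroup (Fin k)) :=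
    FreeGroup.lift (fun i => ⟨Multiplicative.ofAdd (LinearMap.proj i), FreeGroup.of i⟩)
  have hR : ∀ g, (L g).right = g := by
    intro g
    have h1 : (SemidirectProduct.rightHom.comp L) = MonoidHom.id (FreeGroup (Fin k)) := by
      apply FreeGroup.ext_hom
      intro i
      change (L (FreeGroup.of i)).right = FreeGroup.of i
      rw [show L (FreeGroup.of i) = ⟨Multiplicative.ofAdd (LinearMap.proj i), FreeGroup.of i⟩ from
        FreeGroup.lift_apply_of]
    exact congrArg (fun f : FreeGroup (Fin k) →* FreeGroup (Fin k) => f g) h1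
  refine ⟨fun g => (L g).left.toAdd, ?_, ?_⟩
  · intro i
    change (L (FreeGroup.of i)).left.toAdd = _
    rw [show L (FreeGroup.of i) = ⟨Multiplicative.ofAdd (LinearMap.proj i), FreeGroup.of i⟩ from
      FreeGroup.lift_apply_of]
    rfl
  · intro g h
    change (L (g * h)).left.toAdd = _
    rw [map_mul, SemidirectProduct.mul_left, hR g]
    rfl

end bb836


theorem betti_bound {k : ℕ} (hk : 1 ≤ k) (H : Subgroup (FreeGroup (Fin k))) (hH : H.index ≠ 0)
    {k' : ℕ} (Φ : FreeGroup (Fin k') →* FreeGroup (Fin k)) (hΦ : Φ.range = H) :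
    H.index * (k - 1) + 1 ≤ k' := by
  classical
  haveI : H.FiniteIndex := ⟨hH⟩
  haveI : Finite (FreeGroup (Fin k) ⧸ H) := Subgroup.finite_quotient_of_finiteIndex
  haveI : Fintype (FreeGroup (Fin k) ⧸ H) := Fintype.ofFinite _
  obtain ⟨c, hc1, hc2⟩ := bb836_exists H
  have hmk : ∀ g x : FreeGroup (Fin k), g • (QuotientGroup.mk x : FreeGroup (Fin k) ⧸ H) =
      QuotientGroup.mk (g * x) := fun g x => rfl
  let q0 : FreeGroup (Fin k) ⧸ H := QuotientGroup.mk 1
  have hq0 : ∀ g : FreeGroup (Fin k), g • q0 = QuotientGroup.mk g := by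
    intro g
    change g • (QuotientGroup.mk 1 : FreeGroup (Fin k) ⧸ H) = _
    rw [hmk, mul_one]
  have hHq0 : ∀ h ∈ H, h • q0 = q0 := by
    intro h hh
    rw [hq0]
    change (QuotientGroup.mk h : FreeGroup (Fin k) ⧸ H) = QuotientGroup.mk 1
    rw [QuotientGroup.eq, mul_one]
    exact H.inv_mem hh
  let R : bb836E H →ₗ[ℚ] (Fin k' → ℚ) :=
    LinearMap.pi (fun j => (LinearMap.proj q0) ∘ₗ (c (Φ (FreeGroup.of j))))
  let δ : bb836V H →ₗ[ℚ] bb836E H :=
    LinearMap.pi (fun i => LinearMap.id - bb836rho H (FreeGroup.of i))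
  have hker : LinearMap.ker R ≤ LinearMap.range δ := by
    intro u hu
    rw [LinearMap.mem_ker] at hu
    have hu' : ∀ j, c (Φ (FreeGroup.of j)) u q0 = 0 := fun j => congrFun hu j
    -- the values along orbits
    have hψ : ∀ g h : FreeGroup (Fin k), c (g * h) u ((g * h) • q0) =
        c g u ((g * h) • q0) + c h u (h • q0) := by
      intro g h
      rw [hc2, LinearMap.add_apply, Pi.add_apply, LinearMap.comp_apply, bb836rho_apply, mul_smul,
        inv_smul_smul]
    have hχ : ∀ a ∈ H, c a u q0 = 0 := by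
      let X : FreeGroup (Fin k') →* Multiplicative ℚ :=
        { toFun := fun w => Multiplicative.ofAdd (c (Φ w) u q0)
          map_one' := by
            rw [map_one]
            have h1 := hc2 1 1
            rw [mul_one, bb836rho_one, LinearMap.id_comp] at h1
            have h2 : c 1 = 0 := left_eq_add.1 h1
            rw [h2]
            rfl
          map_mul' := fun v w => by
            have hv : Φ v ∈ H := by rw [← hΦ]; exact ⟨v, rfl⟩
            have hw : Φ w ∈ H := by rw [← hΦ]; exact ⟨w, rfl⟩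
            have h1 := hψ (Φ v) (Φ w)
            rw [hHq0 _ (H.mul_mem hv hw), hHq0 _ hw] at h1
            rw [map_mul, h1]
            rfl }
      have hX : X = 1 := by
        apply FreeGroup.ext_hom
        intro j
        change Multiplicative.ofAdd (c (Φ (FreeGroup.of j)) u q0) = 1
        rw [hu']
        rfl
      intro a ha
      rw [← hΦ] at ha
      obtain ⟨w, rfl⟩ := ha
      have h1 : X w = 1 := by rw [hX]; rfl
      exact h1
    have hφ : ∀ g : FreeGroup (Fin k),
        c ((QuotientGroup.mk g : FreeGroup (Fin k) ⧸ H).out) u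
          ((QuotientGroup.mk g : FreeGroup (Fin k) ⧸ H).out • q0) = c g u (g • q0) := by
      intro g
      obtain ⟨h, hh⟩ := QuotientGroup.mk_out_eq_mul H g
      rw [hh, hψ, hHq0 _ h.2, hχ _ h.2, add_zero, mul_smul, hHq0 _ h.2]
    refine ⟨fun q => c q.out u (q.out • q0), ?_⟩
    funext i q
    obtain ⟨g, rfl⟩ := QuotientGroup.mk_surjective q
    change c ((QuotientGroup.mk g : FreeGroup (Fin k) ⧸ H).out) u
          ((QuotientGroup.mk g : FreeGroup (Fin k) ⧸ H).out • q0) -
        c (((FreeGroup.of i)⁻¹ • (QuotientGroup.mk g : FreeGroup (Fin k) ⧸ H)).out) u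
          (((FreeGroup.of i)⁻¹ • (QuotientGroup.mk g : FreeGroup (Fin k) ⧸ H)).out • q0) =
        u i (QuotientGroup.mk g)
    rw [hφ g, hmk (FreeGroup.of i)⁻¹ g, hφ]
    have h1 := hψ (FreeGroup.of i) ((FreeGroup.of i)⁻¹ * g)
    rw [mul_inv_cancel_left, hc1] at h1
    rw [h1, add_sub_cancel_right, hq0]
    rfl
  have hone : (1 : ℕ) ≤ Module.finrank ℚ (LinearMap.ker δ) := by
    have h1 : (fun _ => (1 : ℚ) : bb836V H) ∈ LinearMap.ker δ := by
      rw [LinearMap.mem_ker]
      funext i q
      change (1 : ℚ) - 1 = 0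
      norm_num
    have h2 : (⟨_, h1⟩ : LinearMap.ker δ) ≠ 0 := by
      intro h
      have h3 := congrArg (fun v : LinearMap.ker δ => (v : bb836V H) q0) h
      have h4 : (1 : ℚ) = 0 := h3
      exact one_ne_zero h4
    haveI : Nontrivial (LinearMap.ker δ) := ⟨⟨_, _, h2⟩⟩
    exact Module.finrank_pos
  have hE : Module.finrank ℚ (bb836E H) = k * Fintype.card (FreeGroup (Fin k) ⧸ H) := by
    rw [Module.finrank_pi_fintype]
    simp
  have hV : Module.finrank ℚ (bb836V H) = Fintype.card (FreeGroup (Fin k) ⧸ H) := by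
    rw [Module.finrank_fintype_fun_eq_card]
  have hidx : H.index = Fintype.card (FreeGroup (Fin k) ⧸ H) := by
    rw [Subgroup.index, Nat.card_eq_fintype_card]
  have e1 := LinearMap.finrank_range_add_finrank_ker R
  have e2 := LinearMap.finrank_range_add_finrank_ker δ
  have e3 := Submodule.finrank_mono hker
  have e4 : Module.finrank ℚ (LinearMap.range R) ≤ k' := by
    have := Submodule.finrank_le (LinearMap.range R)
    rwa [Module.finrank_fin_fun] at this
  rw [hE] at e1
  rw [hV] at e2
  rw [hidx]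
  obtain ⟨m, rfl⟩ : ∃ m, k = m + 1 := ⟨k - 1, by omega⟩
  rw [add_mul, one_mul] at e1
  rw [Nat.add_sub_cancel, mul_comm]
  omega

end Pool.Agent.Helper499.HC
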