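import Pool.Agent.Helper499.HC.Defs

set_option autoImplicit false

namespace Pool.Agent.Helper499.HC

open Relation Filter Topology Set

section free

variable {X : Type}

open Classical in
/-- The finite set of suffix products of a word. -/
noncomputable def suf (L : List (X × Bool)) : Finset (FreeGroup X) :=
  (L.tails.map FreeGroup.mk).toFinset

theorem mem_suf (L L' : List (X × Bool)) (h : L' <:+ L) : FreeGroup.mk L' ∈ suf L := by
  classical
  simp only [suf, List.mem_toFinset, List.mem_map, List.mem_tails]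
  exact ⟨L', h, rfl⟩

/-- Left multiplication by a generator as a bijection between two subsets of the suffix products. -/
def pact (L : List (X × Bool)) (x : X) :
    {u : {u // u ∈ suf L} // FreeGroup.of x * u.1 ∈ suf L} ≃
      {u : {u // u ∈ suf L} // (FreeGroup.of x)⁻¹ * u.1 ∈ suf L} where
  toFun := fun u => ⟨⟨FreeGroup.of x * u.1.1, u.2⟩, by simp⟩
  invFun := fun u => ⟨⟨(FreeGroup.of x)⁻¹ * u.1.1, u.2⟩, by simp⟩
  left_inv := fun u => by ext; simp
  right_inv := fun u => by ext; simp

open Classical in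
/-- The permutation by which a generator acts on the suffix products. -/
noncomputable def act1 (L : List (X × Bool)) (x : X) : Equiv.Perm {u // u ∈ suf L} :=
  (pact L x).extendSubtype

theorem act1_apply (L : List (X × Bool)) (x : X) (u : {u // u ∈ suf L})
    (h : FreeGroup.of x * u.1 ∈ suf L) : act1 L x u = ⟨FreeGroup.of x * u.1, h⟩ := by
  classical
  exact Equiv.extendSubtype_apply_of_mem (pact L x) u h

theorem act_suffix (L : List (X × Bool)) : ∀ (L' : List (X × Bool)) (_ : L' <:+ L),
    (FreeGroup.lift (act1 L) (FreeGroup.mk L') ⟨1, mem_suf L [] (List.nil_suffix)⟩).1 =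
      FreeGroup.mk L' := by
  intro L'
  induction L' with
  | nil =>
    intro h
    rw [← FreeGroup.one_eq_mk, map_one]
    rfl
  | cons a L' ih =>
    intro h
    have h' : L' <:+ L := (List.suffix_cons a L').trans h
    obtain ⟨x, b⟩ := a
    have hmk : FreeGroup.mk ((x, b) :: L') = FreeGroup.mk [(x, b)] * FreeGroup.mk L' := by
      rw [FreeGroup.mul_mk]; rfl
    have hmem := mem_suf L _ h
    have ih2 : FreeGroup.lift (act1 L) (FreeGroup.mk L') ⟨1, mem_suf L [] (List.nil_suffix)⟩ =
      ⟨FreeGroup.mk L', mem_suf L L' h'⟩ := Subtype.ext (ih h')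
    rw [hmk, map_mul, Equiv.Perm.mul_apply, ih2]
    rw [hmk] at hmem
    cases b with
    | true =>
      have h1 : FreeGroup.mk [(x, true)] = FreeGroup.of x := rfl
      rw [h1] at hmem
      rw [h1, FreeGroup.lift_apply_of, act1_apply L x _ hmem]
    | false =>
      have h1 : FreeGroup.mk [(x, false)] = (FreeGroup.of x)⁻¹ := rfl
      rw [h1] at hmem
      rw [h1, map_inv, FreeGroup.lift_apply_of]
      have h2 : act1 L x ⟨(FreeGroup.of x)⁻¹ * FreeGroup.mk L', hmem⟩ =
          ⟨FreeGroup.mk L', mem_suf L L' h'⟩ := by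
        rw [act1_apply L x _ (by simpa using mem_suf L L' h')]
        apply Subtype.ext
        simp
      rw [← h2, ← Equiv.Perm.mul_apply, inv_mul_cancel]
      rfl

theorem free_sep (w : FreeGroup X) (hw : w ≠ 1) :
    ∃ (B : Type) (_ : Fintype B) (_ : DecidableEq B) (φ : FreeGroup X →* Equiv.Perm B), φ w ≠ 1 := by
  classical
  obtain ⟨L, rfl⟩ : ∃ L, FreeGroup.mk L = w := Quot.exists_rep w
  refine ⟨{u // u ∈ suf L}, inferInstance, inferInstance, FreeGroup.lift (act1 L), ?_⟩
  intro h
  have h1 := act_suffix L L List.suffix_rfl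
  rw [h] at h1
  exact hw h1.symm

end free


theorem free_residually_finite {k : ℕ} (g : FreeGroup (Fin k)) (hg : g ≠ 1) :
    ∃ (n : ℕ) (f : FreeGroup (Fin k) →* Equiv.Perm (Fin n)), f g ≠ 1 := by
  obtain ⟨B, h1, h2, φ, hφ⟩ := free_sep g hg
  let e : B ≃ Fin (Fintype.card B) := Fintype.equivFin B
  refine ⟨Fintype.card B, e.permCongrHom.toMonoidHom.comp φ, fun h => hφ ?_⟩
  have h3 : e.permCongrHom (φ g) = e.permCongrHom 1 := by
    rw [map_one]; exact h
  exact e.permCongrHom.injective h3

end Pool.Agent.Helper499.HC
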