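import Pool.Agent.Helper499.HC.Defs
import Pool.Agent.Helper499.HC.G03

set_option autoImplicit false

namespace Pool.Agent.Helper499.HC

open Relation Filter Topology Set




theorem free_hopf {k' k : ℕ} (h : k' ≤ k) (Φ : FreeGroup (Fin k') →* FreeGroup (Fin k))
    (hΦ : Function.Surjective Φ) : Function.Bijective Φ := by
  refine ⟨?_, hΦ⟩
  rw [injective_iff_map_eq_one]
  intro w hw
  by_contra hw1
  obtain ⟨n, f, hf⟩ := free_residually_finite w hw1
  have hfin : ∀ m : ℕ, Finite (FreeGroup (Fin m) →* Equiv.Perm (Fin n)) := fun m =>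
    Finite.of_equiv _ (FreeGroup.lift (α := Fin m) (β := Equiv.Perm (Fin n)))
  have hcard : ∀ m : ℕ, Nat.card (FreeGroup (Fin m) →* Equiv.Perm (Fin n)) =
      Nat.card (Equiv.Perm (Fin n)) ^ m := by
    intro m
    rw [← Nat.card_congr (FreeGroup.lift (α := Fin m) (β := Equiv.Perm (Fin n))), Nat.card_fun,
      Nat.card_eq_fintype_card (α := Fin m), Fintype.card_fin]
  have h1 := hfin k'
  have h2 := hfin k
  have hinj : Function.Injective
      (fun g : FreeGroup (Fin k) →* Equiv.Perm (Fin n) => g.comp Φ) := by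
    intro g g' hgg
    have hgg' : g.comp Φ = g'.comp Φ := hgg
    exact (MonoidHom.cancel_right hΦ).1 hgg'
  have hle : Nat.card (FreeGroup (Fin k') →* Equiv.Perm (Fin n)) ≤
      Nat.card (FreeGroup (Fin k) →* Equiv.Perm (Fin n)) := by
    rw [hcard, hcard]
    exact Nat.pow_le_pow_right Nat.card_pos h
  have hbij := hinj.bijective_of_nat_card_le hle
  obtain ⟨g, hg⟩ := hbij.2 f
  apply hf
  have hg' : g.comp Φ = f := hg
  rw [← hg', MonoidHom.comp_apply, hw, map_one]

end Pool.Agent.Helper499.HC
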