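import Pool.Agent.Helper499.HC.Defs
import Pool.Agent.Helper499.HC.G02
import Pool.Agent.Helper499.HC.G04

set_option autoImplicit false

namespace Pool.Agent.Helper499.HC

open Relation Filter Topology Set





theorem free_bijective {k' k : ℕ} (h : k' ≤ k) (hk : 2 ≤ k)
    (Φ : FreeGroup (Fin k') →* FreeGroup (Fin k)) (hfi : Φ.range.index ≠ 0) :
    Function.Bijective Φ := by
  have h1 := betti_bound (by omega) Φ.range hfi Φ rfl
  have h2 : Φ.range.index = 1 := by
    have h3 : Φ.range.index * (k - 1) ≤ 1 * (k - 1) := by omega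
    have h4 := Nat.le_of_mul_le_mul_right h3 (by omega : 0 < k - 1)
    omega
  rw [Subgroup.index_eq_one] at h2
  exact free_hopf h Φ (MonoidHom.range_eq_top.1 h2)

end Pool.Agent.Helper499.HC
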