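import Pool.Agent.Helper499.HC.Defs

set_option autoImplicit false

namespace Pool.Agent.Helper499.HC

open Relation Filter Topology Set


theorem rank_bound {α : Type} (Γ : Subgroup (FreeGroup α)) (m : ℕ)
    (h : ∀ f : Fin (m + 1) → (Γ →* Multiplicative ℤ), ∃ k : Fin (m + 1) → ℤ, k ≠ 0 ∧
      ∀ γ, ∏ i, (f i γ) ^ (k i) = 1) : ∃ k ≤ m, Nonempty (Γ ≃* FreeGroup (Fin k)) := by
  classical
  haveI : IsFreeGroup Γ := subgroupIsFreeOfIsFree Γ
  have hno : ∀ e : Fin (m + 1) → IsFreeGroup.Generators Γ, ¬ Function.Injective e := by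
    intro e he
    obtain ⟨k, hk, hγ⟩ := h (fun i => IsFreeGroup.lift (fun x =>
      if x = e i then Multiplicative.ofAdd (1 : ℤ) else 1))
    apply hk
    funext j
    have h1 := hγ (IsFreeGroup.of (e j))
    rw [Finset.prod_eq_single j] at h1
    · rw [IsFreeGroup.lift_of, if_pos rfl] at h1
      have h2 := congrArg Multiplicative.toAdd h1
      rw [toAdd_zpow, toAdd_ofAdd, toAdd_one, smul_eq_mul, mul_one] at h2
      exact h2
    · intro i _ hij
      rw [IsFreeGroup.lift_of, if_neg, one_zpow]
      intro hh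
      exact hij (he hh).symm
    · intro hh
      exact absurd (Finset.mem_univ j) hh
  have hfin : Finite (IsFreeGroup.Generators Γ) := by
    by_contra hinf
    rw [not_finite_iff_infinite] at hinf
    exact hno (fun i => Infinite.natEmbedding _ i.val)
      ((Infinite.natEmbedding _).injective.comp Fin.val_injective)
  refine ⟨Nat.card (IsFreeGroup.Generators Γ), ?_, ?_⟩
  · by_contra hcard
    push Not at hcard
    exact hno (fun i => (Finite.equivFin _).symm (Fin.castLE hcard i))
      ((Finite.equivFin _).symm.injective.comp (Fin.castLE_injective hcard))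
  · exact ⟨(IsFreeGroup.toFreeGroup Γ).trans
      (FreeGroup.freeGroupCongr (Finite.equivFin (IsFreeGroup.Generators Γ)))⟩

end Pool.Agent.Helper499.HC
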