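import Pool.Agent.Helper499.HC.Defs

set_option autoImplicit false

namespace Pool.Agent.Helper499.HC

open Relation



open Filter Topology Set

section H
variable {X : Type} [MetricSpace X] {α : Type} [DecidableEq α]


theorem chain_connected {Y : Type} [MetricSpace Y] [PreconnectedSpace Y] {δ : ℝ} (hδ : 0 < δ)
    (x y : Y) : CC δ x y := by
  have hsymm : ∀ {a b : Y}, dist a b < δ → dist b a < δ := fun h => by rwa [dist_comm]
  have hop : IsOpen {z : Y | CC δ x z} := by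
    rw [Metric.isOpen_iff]
    intro z hz
    refine ⟨δ, hδ, fun w hw => ?_⟩
    exact ReflTransGen.tail hz (hsymm (Metric.mem_ball.1 hw))
  have hcl : IsClosed {z : Y | CC δ x z} := by
    rw [← isOpen_compl_iff, Metric.isOpen_iff]
    intro z hz
    refine ⟨δ, hδ, fun w hw hw' => hz ?_⟩
    exact ReflTransGen.tail hw' (Metric.mem_ball.1 hw)
  have h1 : {z : Y | CC δ x z} = univ :=
    IsClopen.eq_univ ⟨hcl, hop⟩ ⟨x, ReflTransGen.refl⟩
  exact (h1 ▸ mem_univ y : y ∈ {z : Y | CC δ x z})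

theorem exists_hat_chain [ConnectedSpace X] (S : Coc X α) (x₀ : X) {δ : ℝ} (hδ : 0 < δ)
    (hδ' : δ ≤ S.lam / 4) (x : X) : ∃ g, CC δ (⟨x₀, 1⟩ : Hat S) ⟨x, g⟩ := by
  have h := chain_connected (Y := X) hδ x₀ x
  unfold CC at h
  induction h with
  | refl => exact ⟨1, ReflTransGen.refl⟩
  | @tail b c _ h2 ih =>
    obtain ⟨g, hg⟩ := ih
    refine ⟨g * S.c b c, ReflTransGen.tail hg ?_⟩
    rw [Hat.dist_lt_iff _ _ hδ']
    exact ⟨h2, rfl⟩

end H

end Pool.Agent.Helper499.HC
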