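import Pool.Agent.Helper499.HC.Defs

set_option autoImplicit false

namespace Pool.Agent.Helper499.HC

open Relation



open Filter Topology Set

section H
variable {X : Type} [MetricSpace X] {α : Type} [DecidableEq α]


/-- a sheet of the covering -/
def sheet (S : Coc X α) (z : X) (g : FreeGroup α) (x : X) : Hat S := ⟨x, g * S.c z x⟩

theorem sheet_dist (S : Coc X α) (z : X) (g : FreeGroup α) {x y : X}
    (hx : x ∈ Metric.closedBall z (S.lam / 16)) (hy : y ∈ Metric.closedBall z (S.lam / 16)) :
    dist (sheet S z g x) (sheet S z g y) = dist x y := by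
  have hl := S.lam_pos
  rw [Metric.mem_closedBall] at hx hy
  have h1 : dist x y ≤ S.lam / 8 := by
    have := dist_triangle_right x y z
    linarith
  change Hat.d _ _ = _
  unfold Hat.d
  rw [if_pos]
  · rfl
  · refine ⟨?_, ?_⟩
    · show dist x y < S.lam / 4
      linarith
    · show g * S.c z y = g * S.c z x * S.c x y
      rw [mul_assoc, S.coc z x y (by rw [dist_comm]; linarith) (by linarith)
        (by rw [dist_comm]; linarith)]

theorem sheet_compact [CompactSpace X] (S : Coc X α) (z : X) (g : FreeGroup α) :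
    IsCompact (sheet S z g '' Metric.closedBall z (S.lam / 16)) := by
  refine (isClosed_closedBall_compact z).image_of_continuousOn ?_
  rw [Metric.continuousOn_iff]
  intro b hb ε hε
  refine ⟨ε, hε, fun a ha hab => ?_⟩
  rwa [sheet_dist S z g ha hb]
where
  isClosed_closedBall_compact (z : X) : IsCompact (Metric.closedBall z (S.lam / 16)) :=
    Metric.isClosed_closedBall.isCompact

theorem mem_sheet (S : Coc X α) (z : X) (q : Hat S)
    (hq : q.pt ∈ Metric.closedBall z (S.lam / 16)) :
    q ∈ sheet S z (q.g * S.c q.pt z) '' Metric.closedBall z (S.lam / 16) := by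
  have hl := S.lam_pos
  refine ⟨q.pt, hq, ?_⟩
  rw [Metric.mem_closedBall] at hq
  apply Hat.ext
  · rfl
  · show q.g * S.c q.pt z * S.c z q.pt = q.g
    rw [mul_assoc, S.coc q.pt z q.pt (by linarith) (by rw [dist_comm]; linarith)
      (by rw [dist_self]; exact hl), S.self, mul_one]

theorem norm_finite [Finite α] (n : ℕ) : {w : FreeGroup α | w.norm ≤ n}.Finite := by
  have h : {l : List (α × Bool) | l.length ≤ n}.Finite := List.finite_length_le _ _
  exact h.preimage (FreeGroup.toWord_injective.injOn)

theorem hat_relcompact [CompactSpace X] [Finite α] (S : Coc X α) (A : Set (FreeGroup α))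
    (hA : A.Finite) : ∃ K : Set (Hat S), IsCompact K ∧ {q : Hat S | q.g ∈ A} ⊆ K := by
  have hl := S.lam_pos
  obtain ⟨t, -, ht, hc⟩ := finite_cover_balls_of_compact (isCompact_univ (X := X))
    (show (0:ℝ) < S.lam / 16 by positivity)
  have hB : (Set.image2 (fun a b => a * b) A {w : FreeGroup α | w.norm ≤ 2}).Finite :=
    hA.image2 _ (norm_finite 2)
  refine ⟨⋃ z ∈ t, ⋃ g ∈ Set.image2 (fun a b => a * b) A {w : FreeGroup α | w.norm ≤ 2},
    sheet S z g '' Metric.closedBall z (S.lam / 16), ?_, ?_⟩
  · exact ht.isCompact_biUnion fun z _ => hB.isCompact_biUnion fun g _ => sheet_compact S z g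
  · intro q hq
    have h := hc (Set.mem_univ q.pt)
    simp only [Set.mem_iUnion] at h
    obtain ⟨z, hz, hqz⟩ := h
    simp only [Set.mem_iUnion]
    exact ⟨z, hz, q.g * S.c q.pt z, ⟨q.g, hq, S.c q.pt z, S.bd _ _, rfl⟩,
      mem_sheet S z q (Metric.ball_subset_closedBall hqz)⟩

theorem hat_locallyCompact [CompactSpace X] (S : Coc X α) : LocallyCompactSpace (Hat S) := by
  have hl := S.lam_pos
  have : WeaklyLocallyCompactSpace (Hat S) := by
    refine ⟨fun q => ⟨_, sheet_compact S q.pt q.g, ?_⟩⟩
    refine Filter.mem_of_superset (Metric.ball_mem_nhds q (show (0:ℝ) < S.lam / 16 by positivity)) ?_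
    intro q' hq'
    rw [Metric.mem_ball, dist_comm, Hat.dist_lt_iff _ _ (by linarith)] at hq'
    refine ⟨q'.pt, ?_, ?_⟩
    · rw [Metric.mem_closedBall, dist_comm]
      exact hq'.1.le
    · apply Hat.ext
      · rfl
      · exact hq'.2.symm
  infer_instance

end H

end Pool.Agent.Helper499.HC
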