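import Pool.Agent.Helper499.HC.Defs

set_option autoImplicit false

namespace Pool.Agent.Helper499.HC

open Relation



open Filter Topology Set

section H
variable {X : Type} [MetricSpace X] {α : Type} [DecidableEq α]


/-- the lift of a map which moves points by little -/
def liftMap (S : Coc X α) (f : X → X) (p : Hat S) : Hat S := ⟨f p.pt, p.g * S.c p.pt (f p.pt)⟩

theorem liftMap_uc (S : Coc X α) (f : X → X) (hf : UniformContinuous f)
    (hh : ∀ z, dist z (f z) < S.lam / 4) : UniformContinuous (liftMap S f) := by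
  have hl := S.lam_pos
  rw [Metric.uniformContinuous_iff] at hf ⊢
  intro ε hε
  obtain ⟨δ, hδ, h1⟩ := hf (min ε (S.lam / 4)) (lt_min hε (by positivity))
  refine ⟨min δ (S.lam / 4), lt_min hδ (by positivity), ?_⟩
  intro p q hpq
  obtain ⟨h2, h3⟩ := (Hat.dist_lt_iff p q (min_le_right _ _)).mp hpq
  have h4 := h1 (lt_of_lt_of_le h2 (min_le_left _ _))
  have h5 : dist p.pt q.pt < S.lam / 4 := lt_of_lt_of_le h2 (min_le_right _ _)
  have h6 : dist (f p.pt) (f q.pt) < S.lam / 4 := lt_of_lt_of_le h4 (min_le_right _ _)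
  have h7 := hh p.pt
  have h8 := hh q.pt
  have h9 : dist p.pt (f q.pt) < S.lam / 4 + S.lam / 4 :=
    lt_of_le_of_lt (dist_triangle p.pt q.pt (f q.pt)) (by linarith)
  have key : dist (liftMap S f p) (liftMap S f q) < min ε (S.lam / 4) := by
    rw [Hat.dist_lt_iff _ _ (min_le_right _ _)]
    refine ⟨h4, ?_⟩
    change q.g * S.c q.pt (f q.pt) = p.g * S.c p.pt (f p.pt) * S.c (f p.pt) (f q.pt)
    rw [h3, mul_assoc, mul_assoc, S.coc p.pt q.pt (f q.pt) (by linarith) (by linarith)
      (by linarith), S.coc p.pt (f p.pt) (f q.pt) (by linarith) (by linarith) (by linarith)]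
  exact lt_of_lt_of_le key (min_le_left _ _)

theorem liftMap_inv (S : Coc X α) (h : X ≃ₜ X) (hh : ∀ z, dist z (h z) < S.lam / 4) (p : Hat S) :
    liftMap S h.symm (liftMap S h p) = p := by
  have hl := S.lam_pos
  unfold liftMap
  apply Hat.ext
  · simp
  · simp only [Homeomorph.symm_apply_apply]
    rw [S.symm p.pt (h p.pt) (by linarith [hh p.pt])]
    group

theorem lift_homeo [CompactSpace X] (S : Coc X α) (h : X ≃ₜ X)
    (hh : ∀ z, dist z (h z) < S.lam / 4) :
    ∃ H : Hat S ≃ₜ Hat S, (∀ p, H p = ⟨h p.pt, p.g * S.c p.pt (h p.pt)⟩) ∧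
      UniformContinuous H ∧ UniformContinuous H.symm := by
  have hh' : ∀ z, dist z (h.symm z) < S.lam / 4 := by
    intro z
    have := hh (h.symm z)
    rw [Homeomorph.apply_symm_apply, dist_comm] at this
    exact this
  have u1 := liftMap_uc S h (CompactSpace.uniformContinuous_of_continuous h.continuous) hh
  have u2 := liftMap_uc S h.symm
    (CompactSpace.uniformContinuous_of_continuous h.symm.continuous) hh'
  let H : Hat S ≃ₜ Hat S :=
    { toFun := liftMap S h
      invFun := liftMap S h.symm
      left_inv := fun p => liftMap_inv S h hh p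
      right_inv := fun p => by
        have := liftMap_inv S h.symm hh' p
        simpa using this
      continuous_toFun := u1.continuous
      continuous_invFun := u2.continuous }
  exact ⟨H, fun p => rfl, u1, u2⟩

end H

end Pool.Agent.Helper499.HC
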