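import Pool.Agent.Helper499.HC.Defs
import Pool.Agent.Helper499.HC.H03

set_option autoImplicit false

namespace Pool.Agent.Helper499.HC

open Relation



open Filter Topology Set

section H
variable {X : Type} [MetricSpace X] {α : Type} [DecidableEq α]




theorem chain_homeo [CompactSpace X] (S : Coc X α) (δ₁ : ℝ) (hδ₁ : δ₁ ≤ S.lam / 4)
    (hE : ∀ x y : X, dist x y < δ₁ → ∃ h : X ≃ₜ X, h x = y ∧ ∀ z, dist z (h z) < S.lam / 4)
    (p q : Hat S) (hpq : CC δ₁ p q) : ∃ H : Hat S ≃ₜ Hat S, H p = q ∧ Good S H := by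
  unfold CC at hpq
  induction hpq with
  | refl =>
    refine ⟨Homeomorph.refl _, rfl, fun _ _ => rfl, uniformContinuous_id, uniformContinuous_id,
      0, fun r => ?_⟩
    simp
  | @tail b c _ h2 ih =>
    obtain ⟨H, hH, hcomm, hu, hu', C, hC⟩ := ih
    have h3 := (Hat.dist_lt_iff b c hδ₁).1 h2
    obtain ⟨h, hb, hz⟩ := hE _ _ h3.1
    obtain ⟨H1, hf, hu1, hu1'⟩ := lift_homeo S h hz
    refine ⟨H.trans H1, ?_, fun γ r => ?_, ?_, ?_, C + 2, fun r => ?_⟩
    · change H1 (H p) = c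
      rw [hH, hf, hb, ← h3.2]
    · change H1 (H (Hat.act γ r)) = Hat.act γ (H1 (H r))
      rw [hcomm, hf, hf]
      simp [Hat.act, mul_assoc]
    · exact hu1.comp hu
    · exact hu'.comp hu1'
    · change (r.g⁻¹ * (H1 (H r)).g).norm ≤ C + 2
      have e1 : r.g⁻¹ * (H1 (H r)).g = (r.g⁻¹ * (H r).g) * S.c (H r).pt (h (H r).pt) := by
        rw [hf]; group
      rw [e1]
      exact (FreeGroup.norm_mul_le _ _).trans (add_le_add (hC r) (S.bd _ _))

end H

end Pool.Agent.Helper499.HC
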