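import Pool.Agent.Helper499.HC.Defs
import Pool.Agent.Helper499.HC.H01

set_option autoImplicit false

namespace Pool.Agent.Helper499.HC

open Relation



open Filter Topology Set

section H
variable {X : Type} [MetricSpace X] {α : Type} [DecidableEq α]




theorem component_values [CompactSpace X] [ConnectedSpace X] [Finite α] (S : Coc X α) (x₀ : X) {δ : ℝ}
    (hδ : 0 < δ) (hδ' : δ ≤ S.lam / 4) : ∃ B : Set (FreeGroup α), B.Finite ∧
      ∀ q : Hat S, CC δ (⟨x₀, 1⟩ : Hat S) q → ∃ γ ∈ Gam S x₀ δ, ∃ b ∈ B, q.g = γ * b := by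
  obtain ⟨t, -, ht⟩ := (isCompact_univ : IsCompact (univ : Set X)).elim_nhds_subcover
    (fun x => Metric.ball x δ) (fun x _ => Metric.ball_mem_nhds x hδ)
  choose b hb using fun z => exists_hat_chain S x₀ hδ hδ' z
  have hW : {w : FreeGroup α | w.norm ≤ 2}.Finite :=
    Set.Finite.preimage (FreeGroup.toWord_injective.injOn) (List.finite_length_le (α × Bool) 2)
  refine ⟨⋃ z ∈ (t : Set X), (fun w => b z * w) '' {w : FreeGroup α | w.norm ≤ 2},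
    Set.Finite.biUnion t.finite_toSet (fun z _ => hW.image _), ?_⟩
  intro q hq
  obtain ⟨z, hz, hqz⟩ := mem_iUnion₂.1 (ht (mem_univ q.pt))
  have hqz' : dist q.pt z < δ := hqz
  have h1 : CC δ q ⟨z, q.g * S.c q.pt z⟩ :=
    ReflTransGen.single ((Hat.dist_lt_iff q ⟨z, q.g * S.c q.pt z⟩ hδ').2 ⟨hqz', rfl⟩)
  have h2 := CC.act ((q.g * S.c q.pt z) * (b z)⁻¹) (hb z)
  have e1 : Hat.act ((q.g * S.c q.pt z) * (b z)⁻¹) (⟨x₀, 1⟩ : Hat S) =
      ⟨x₀, (q.g * S.c q.pt z) * (b z)⁻¹⟩ := by simp [Hat.act]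
  have e2 : Hat.act ((q.g * S.c q.pt z) * (b z)⁻¹) (⟨z, b z⟩ : Hat S) =
      ⟨z, q.g * S.c q.pt z⟩ := by simp [Hat.act]
  rw [e1, e2] at h2
  refine ⟨(q.g * S.c q.pt z) * (b z)⁻¹, CC.trans' (CC.trans' hq h1) (CC.symm' h2),
    b z * (S.c q.pt z)⁻¹, mem_iUnion₂.2 ⟨z, hz, (S.c q.pt z)⁻¹, ?_, rfl⟩, ?_⟩
  · change ((S.c q.pt z)⁻¹).norm ≤ 2
    rw [FreeGroup.norm_inv_eq]
    exact S.bd _ _
  · group

end H

end Pool.Agent.Helper499.HC
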