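import Pool.Agent.Helper499.HC.Defs
import Pool.Agent.Helper499.HC.H02

set_option autoImplicit false

namespace Pool.Agent.Helper499.HC

open Relation



open Filter Topology Set

section H
variable {X : Type} [MetricSpace X] {α : Type} [DecidableEq α]




theorem quasi_infinite_ball [Finite α] (n : ℕ) : {g : FreeGroup α | g.norm ≤ n}.Finite := by
  have h := (List.finite_length_le (α × Bool) n).preimage
    (FreeGroup.toWord_injective (α := α)).injOn
  exact h

theorem quasi_infinite_chain {S : Coc X α} {δ : ℝ} (hδ : δ ≤ S.lam / 4) (T : ℕ) {p r : Hat S}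
    (hp : p.g.norm ≤ T) (h : CC δ p r) (hr : T < r.g.norm) :
    ∃ q, CC δ p q ∧ T < q.g.norm ∧ q.g.norm ≤ T + 2 := by
  unfold CC at h
  induction h with
  | refl => exact absurd hr (not_lt.2 hp)
  | tail hb hs ih =>
    rename_i b c
    rcases lt_or_ge T b.g.norm with h1 | h1
    · exact ih h1
    · refine ⟨c, ReflTransGen.tail hb hs, hr, ?_⟩
      have h2 := ((Hat.dist_lt_iff b c hδ).1 hs).2
      rw [h2]
      refine (FreeGroup.norm_mul_le _ _).trans ?_
      have := S.bd b.pt c.pt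
      omega

theorem quasi_infinite_mono {Y : Type} [MetricSpace Y] {δ δ' : ℝ} (h : δ ≤ δ') {p q : Y}
    (hc : CC δ p q) : CC δ' p q :=
  ReflTransGen.mono (r := fun a b : Y => dist a b < δ) (p := fun a b : Y => dist a b < δ')
    (fun a b hab => lt_of_lt_of_le hab h) p q hc

theorem quasi_infinite [CompactSpace X] [ConnectedSpace X] [Finite α] (S : Coc X α) (x₀ : X)
    (hinf : ∀ δ > 0, (Gam S x₀ δ : Set (FreeGroup α)).Infinite) :
    (Hat.g '' Quasi S x₀).Infinite := by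
  intro hfin
  obtain ⟨R, hR⟩ : ∃ R : ℕ, ∀ q ∈ Quasi S x₀, q.g.norm ≤ R := by
    obtain ⟨R, hR⟩ := (hfin.image FreeGroup.norm).bddAbove
    exact ⟨R, fun q hq => hR ⟨q.g, ⟨q, hq, rfl⟩, rfl⟩⟩
  have hl := S.lam_pos
  have hstep : ∀ k : ℕ, ∃ q : Hat S, CC (min (1 / ((k : ℝ) + 1)) (S.lam / 4)) (⟨x₀, 1⟩ : Hat S) q ∧
      R + 4 < q.g.norm ∧ q.g.norm ≤ R + 6 := by
    intro k
    have hδ : 0 < min (1 / ((k : ℝ) + 1)) (S.lam / 4) := lt_min (by positivity) (by positivity)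
    obtain ⟨γ, hγ, hγn⟩ := ((hinf _ hδ).sdiff (quasi_infinite_ball (α := α) (R + 4))).nonempty
    have hγn' : R + 4 < γ.norm := not_le.1 hγn
    have hcc : CC (min (1 / ((k : ℝ) + 1)) (S.lam / 4)) (⟨x₀, 1⟩ : Hat S) ⟨x₀, γ⟩ := hγ
    exact quasi_infinite_chain (min_le_right _ _) (R + 4) (by
      show (1 : FreeGroup α).norm ≤ R + 4
      rw [FreeGroup.norm_one]; omega) hcc hγn'
  choose q hq1 hq2 hq3 using hstep
  obtain ⟨K, hK, hKs⟩ := hat_relcompact S {g : FreeGroup α | g.norm ≤ R + 6}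
    (quasi_infinite_ball (R + 6))
  obtain ⟨a, -, φ, hφ, hlim⟩ := hK.tendsto_subseq (x := q) (fun k => hKs (hq3 k))
  have hdist : ∀ ε > 0, ∀ᶠ k in atTop, dist (q (φ k)) a < ε := fun ε hε =>
    (Metric.tendsto_nhds.1 hlim) ε hε
  have haQ : a ∈ Quasi S x₀ := by
    intro δ hδ
    have h1 : ∀ᶠ k : ℕ in atTop, 1 / ((k : ℝ) + 1) < δ :=
      tendsto_one_div_add_atTop_nhds_zero_nat.eventually_lt_const hδ
    obtain ⟨k, hk1, hk2⟩ := ((hφ.tendsto_atTop.eventually h1).and (hdist δ hδ)).exists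
    exact ReflTransGen.tail (quasi_infinite_mono ((min_le_left _ _).trans hk1.le) (hq1 (φ k))) hk2
  obtain ⟨k, hk⟩ := (hdist (S.lam / 4) (by positivity)).exists
  rw [dist_comm] at hk
  have h2 := ((Hat.dist_lt_iff a (q (φ k)) le_rfl).1 hk).2
  have h3 := FreeGroup.norm_mul_le a.g (S.c a.pt (q (φ k)).pt)
  rw [← h2] at h3
  have h4 := S.bd a.pt (q (φ k)).pt
  have h5 := hR a haQ
  have h6 := hq2 (φ k)
  omega

end H

end Pool.Agent.Helper499.HC
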