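import Pool.Agent.Helper499.HC.Defs

set_option autoImplicit false

namespace Pool.Agent.Helper499.HC

open Relation


open Filter Topology Set

section T
variable {α : Type} [DecidableEq α]

theorem norm_ball_finite [Finite α] (n : ℕ) : {g : FreeGroup α | g.norm ≤ n}.Finite := by
  have h1 : {l : List (α × Bool) | l.length ≤ n}.Finite := List.finite_length_le _ n
  refine Set.Finite.of_finite_image (f := FreeGroup.toWord) (h1.subset ?_)
    (FreeGroup.toWord_injective.injOn)
  rintro l ⟨g, hg, rfl⟩
  exact hg

theorem red_app (L₁ : List (α × Bool)) : ∀ L₂ : List (α × Bool),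
    FreeGroup.IsReduced L₁ → FreeGroup.IsReduced L₂ →
    ∃ A C B, L₁ = A ++ C ∧ C.length ≤ L₂.length ∧ FreeGroup.reduce (L₁ ++ L₂) = A ++ B := by
  induction L₁ using List.reverseRecOn with
  | nil => intro L₂ _ _; exact ⟨[], [], _, rfl, Nat.zero_le _, rfl⟩
  | append_singleton L x ih =>
    intro L₂ h1 h2
    have hL : FreeGroup.IsReduced L := List.IsChain.left_of_append h1
    cases L₂ with
    | nil =>
      refine ⟨L ++ [x], [], [], by simp, Nat.zero_le _, ?_⟩
      simpa using h1.reduce_eq
    | cons y M =>
      have hM : FreeGroup.IsReduced M := List.IsChain.tail h2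
      by_cases hxy : y = (x.1, !x.2)
      · subst hxy
        obtain ⟨A, C, B, e1, e2, e3⟩ := ih M hL hM
        refine ⟨A, C ++ [x], B, by rw [e1]; simp, by simpa using e2, ?_⟩
        rw [← e3]
        apply FreeGroup.reduce.Step.eq
        have := FreeGroup.Red.Step.not (L₁ := L) (L₂ := M) (x := x.1) (b := x.2)
        simpa using this
      · refine ⟨L ++ [x], [], y :: M, by simp, Nat.zero_le _, ?_⟩
        apply FreeGroup.IsReduced.reduce_eq
        unfold FreeGroup.IsReduced
        rw [List.isChain_append]
        refine ⟨h1, h2, ?_⟩
        intro a ha b hb hab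
        have ha' : a = x := by simpa using ha.symm
        have hb' : b = y := by simpa using hb.symm
        subst ha' hb'
        by_contra hne
        apply hxy
        ext
        · exact hab.symm
        · simp only
          cases h3 : a.2 <;> cases h4 : b.2 <;> simp_all

theorem hd_mul (g u : FreeGroup α) (h : u.norm < g.norm) : hd (g * u) = hd g := by
  obtain ⟨A, C, B, e1, e2, e3⟩ := red_app g.toWord u.toWord FreeGroup.isReduced_toWord
    FreeGroup.isReduced_toWord
  unfold hd
  rw [FreeGroup.toWord_mul, e3, e1]
  have h3 : g.toWord.length = A.length + C.length := by rw [e1]; simp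
  have h4 : u.toWord.length < g.toWord.length := h
  cases A with
  | nil => simp at h3; omega
  | cons a A => simp

theorem step_inv (t : α × Bool) : (step t)⁻¹ = step (flip t) := by
  simp [step, flip, FreeGroup.inv_mk, FreeGroup.invRev]

theorem toWord_step_mul (t : α × Bool) (g : FreeGroup α) :
    (step t * g).toWord = FreeGroup.reduce (t :: g.toWord) := by
  rw [FreeGroup.toWord_mul]
  simp [step, FreeGroup.toWord_mk, FreeGroup.reduce_singleton]

theorem hd_step_ne (g : FreeGroup α) (t : α × Bool) (h : hd g ≠ some t) :
    hd ((step t)⁻¹ * g) = some (flip t) := by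
  unfold hd at *
  rw [step_inv, toWord_step_mul, FreeGroup.reduce.cons, FreeGroup.reduce_toWord]
  cases hg : g.toWord with
  | nil => simp
  | cons y L =>
    rw [hg] at h
    have h2 : ¬ ((flip t).1 = y.1 ∧ (flip t).2 = !y.2) := by
      rintro ⟨h3, h4⟩
      apply h
      simp only [flip] at h3 h4
      have h5 : t.2 = y.2 := by simpa using h4
      simp only [List.head?_cons, Option.some.injEq]
      exact Prod.ext h3.symm h5.symm
    simp only [h2, if_false, List.head?_cons]

theorem hd_step_eq (g : FreeGroup α) (t : α × Bool) (h : hd g = some t) :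
    hd ((step t)⁻¹ * g) ≠ some (flip t) := by
  unfold hd at *
  rw [step_inv, toWord_step_mul, FreeGroup.reduce.cons, FreeGroup.reduce_toWord]
  cases hg : g.toWord with
  | nil => rw [hg] at h; simp at h
  | cons y L =>
    rw [hg] at h
    have hy : y = t := by simpa using h
    subst hy
    have h2 : ((flip y).1 = y.1 ∧ (flip y).2 = !y.2) := ⟨rfl, rfl⟩
    simp only [h2, and_self, if_true]
    intro h3
    have hr := FreeGroup.isReduced_toWord (x := g)
    rw [hg] at hr
    cases L with
    | nil => simp at h3
    | cons z M =>
      have hz : z = flip y := by simpa using h3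
      subst hz
      rw [FreeGroup.isReduced_cons_cons] at hr
      have := hr.1 rfl
      simp [flip] at this

end T

end Pool.Agent.Helper499.HC
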