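import Pool.Agent.Helper499.HC.Defs
import Pool.Agent.Helper499.HC.T01

set_option autoImplicit false

namespace Pool.Agent.Helper499.HC

open Relation


open Filter Topology Set

section T
variable {α : Type} [DecidableEq α]







theorem end_of_ultrafilter [Finite α] (D : Ultrafilter (FreeGroup α))
    (hD : ∀ g, ({g} : Set (FreeGroup α)) ∉ D) :
    ∃ s : FreeGroup α → α × Bool, IsEnd s ∧ ∀ v, {g | hd (v⁻¹ * g) = some (s v)} ∈ D := by
  classical
  have h1 : ∀ v : FreeGroup α, ∃ t : α × Bool, {g | hd (v⁻¹ * g) = some t} ∈ D := by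
    intro v
    obtain ⟨c, hc⟩ := Ultrafilter.eq_pure_of_finite (D.map (fun g => hd (v⁻¹ * g)))
    have h2 : {g | hd (v⁻¹ * g) = c} ∈ D := by
      have h3 : ({c} : Set (Option (α × Bool))) ∈ D.map (fun g => hd (v⁻¹ * g)) := by
        rw [hc]
        exact Ultrafilter.mem_pure.2 rfl
      exact Ultrafilter.mem_map.1 h3
    rcases c with _ | t
    · exfalso
      apply hD v
      refine Filter.mem_of_superset h2 ?_
      intro g hg
      have hg' : hd (v⁻¹ * g) = none := hg
      unfold hd at hg'
      rw [List.head?_eq_none_iff, FreeGroup.toWord_eq_nil_iff] at hg'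
      rw [Set.mem_singleton_iff]
      exact (inv_mul_eq_one.1 hg').symm
    · exact ⟨t, h2⟩
  choose s hs using h1
  have huniq : ∀ v t, {g | hd (v⁻¹ * g) = some t} ∈ D → s v = t := by
    intro v t ht
    obtain ⟨g, hg1, hg2⟩ := Filter.nonempty_of_mem (Filter.inter_mem (hs v) ht)
    have e1 : hd (v⁻¹ * g) = some (s v) := hg1
    have e2 : hd (v⁻¹ * g) = some t := hg2
    rw [e1] at e2
    exact Option.some.inj e2
  have hassoc : ∀ (v : FreeGroup α) (t : α × Bool) (g : FreeGroup α),
      (v * step t)⁻¹ * g = (step t)⁻¹ * (v⁻¹ * g) := by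
    intro v t g
    rw [mul_inv_rev, mul_assoc]
  refine ⟨s, ⟨?_, ?_⟩, hs⟩
  · intro v t hvt
    apply huniq
    refine Filter.mem_of_superset (hs v) ?_
    intro g hg
    have e1 : hd (v⁻¹ * g) = some (s v) := hg
    change hd ((v * step t)⁻¹ * g) = some (flip t)
    rw [hassoc]
    apply hd_step_ne
    rw [e1]
    intro h
    exact hvt (Option.some.inj h)
  · intro v t hvt h
    have h3 := hs (v * step t)
    rw [h] at h3
    obtain ⟨g, hg1, hg2⟩ := Filter.nonempty_of_mem (Filter.inter_mem (hs v) h3)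
    have e1 : hd (v⁻¹ * g) = some (s v) := hg1
    have e2 : hd ((v * step t)⁻¹ * g) = some (flip t) := hg2
    rw [hassoc] at e2
    rw [hvt] at e1
    exact hd_step_eq _ _ e1 e2

end T

end Pool.Agent.Helper499.HC
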