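import Pool.Agent.Helper499.HC.Defs

set_option autoImplicit false

namespace Pool.Agent.Helper499.HC

open Relation


open Filter Topology Set

section T
variable {α : Type} [DecidableEq α]


/-- next vertex towards the end -/
def ea_n (s : FreeGroup α → α × Bool) (v : FreeGroup α) : FreeGroup α := v * step (s v)

omit [DecidableEq α] in
theorem ea_step (t : α × Bool) : step t * step (flip t) = 1 := by
  unfold step flip
  rw [FreeGroup.mul_mk]
  have h : FreeGroup.Red.Step [t, (t.1, !t.2)] [] := FreeGroup.Red.Step.not (L₁ := []) (L₂ := [])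
  exact Quot.sound h

omit [DecidableEq α] in
theorem ea_iter (s : FreeGroup α → α × Bool) (a : FreeGroup α) (ha : ∀ v, s (a * v) = s v)
    (i : ℕ) (v : FreeGroup α) : (ea_n s)^[i] (a * v) = a * (ea_n s)^[i] v := by
  induction i generalizing v with
  | zero => rfl
  | succ i ih =>
    rw [Function.iterate_succ_apply, Function.iterate_succ_apply]
    have h1 : ea_n s (a * v) = a * ea_n s v := by
      unfold ea_n
      rw [ha, mul_assoc]
    rw [h1, ih]

omit [DecidableEq α] in
theorem ea_trans (s : FreeGroup α → α × Bool) {x y z : FreeGroup α}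
    (h1 : ∃ i j, (ea_n s)^[i] x = (ea_n s)^[j] y) (h2 : ∃ i j, (ea_n s)^[i] y = (ea_n s)^[j] z) :
    ∃ i j, (ea_n s)^[i] x = (ea_n s)^[j] z := by
  obtain ⟨i, j, h1⟩ := h1
  obtain ⟨k, l, h2⟩ := h2
  refine ⟨k + i, j + l, ?_⟩
  rw [Function.iterate_add_apply, h1, ← Function.iterate_add_apply, add_comm k j,
    Function.iterate_add_apply, h2, ← Function.iterate_add_apply]

omit [DecidableEq α] in
theorem ea_merge (s : FreeGroup α → α × Bool) (hs : IsEnd s) (L : List (α × Bool))
    (v : FreeGroup α) : ∃ i j, (ea_n s)^[i] v = (ea_n s)^[j] (v * FreeGroup.mk L) := by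
  induction L generalizing v with
  | nil =>
    refine ⟨0, 0, ?_⟩
    change v = v * 1
    rw [mul_one]
  | cons t L ih =>
    have h1 : FreeGroup.mk (t :: L) = step t * FreeGroup.mk L := by
      unfold step
      rw [FreeGroup.mul_mk]
      rfl
    rw [h1, ← mul_assoc]
    apply ea_trans s _ (ih (v * step t))
    by_cases h : s v = t
    · refine ⟨1, 0, ?_⟩
      change ea_n s v = v * step t
      unfold ea_n
      rw [h]
    · refine ⟨0, 1, ?_⟩
      change v = ea_n s (v * step t)
      unfold ea_n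
      rw [hs.back v t h, mul_assoc, ea_step, mul_one]

theorem end_abelian (s : FreeGroup α → α × Bool) (hs : IsEnd s) (a b : FreeGroup α)
    (ha : ∀ v, s (a * v) = s v) (hb : ∀ v, s (b * v) = s v) : a * b = b * a := by
  have key : ∀ g : FreeGroup α, (∀ v, s (g * v) = s v) → ∃ i j,
      g * (ea_n s)^[i] 1 = (ea_n s)^[j] 1 := by
    intro g hg
    obtain ⟨i, j, h⟩ := ea_merge s hs g.toWord 1
    rw [one_mul, FreeGroup.mk_toWord] at h
    refine ⟨j, i, ?_⟩
    rw [← ea_iter s g hg, mul_one, h]
  obtain ⟨i, j, h1⟩ := key a ha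
  obtain ⟨k, l, h2⟩ := key b hb
  have h1' : ∀ e, a * (ea_n s)^[e + i] 1 = (ea_n s)^[e + j] 1 := by
    intro e
    rw [Function.iterate_add_apply, ← ea_iter s a ha, h1, ← Function.iterate_add_apply]
  have h2' : ∀ e, b * (ea_n s)^[e + k] 1 = (ea_n s)^[e + l] 1 := by
    intro e
    rw [Function.iterate_add_apply, ← ea_iter s b hb, h2, ← Function.iterate_add_apply]
  have h3 : a * b * (ea_n s)^[i + k] 1 = b * a * (ea_n s)^[i + k] 1 := by
    rw [mul_assoc, h2' i, add_comm i l, h1' l, mul_assoc, add_comm i k, h1' k, add_comm k j, h2' j,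
      add_comm l j]
  exact mul_right_cancel h3

end T

end Pool.Agent.Helper499.HC
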