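import Pool.Agent.Helper499.HC.Defs
import Pool.Agent.Helper499.HC.T01
import Pool.Agent.Helper499.HC.T02
import Pool.Agent.Helper499.HC.T03

set_option autoImplicit false

namespace Pool.Agent.Helper499.HC

open Relation


open Filter Topology Set

section T
variable {α : Type} [DecidableEq α]









theorem fi_transfer [Finite α] (Q : Set (FreeGroup α)) (γ : FreeGroup α)
    (hmove : ∃ C : ℕ, ∀ g ∈ Q, ∃ g' ∈ Q, ((γ * g)⁻¹ * g').norm ≤ C)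
    (v : FreeGroup α) (t : α × Bool) (h : {g ∈ Q | hd (v⁻¹ * g) = some t}.Infinite) :
    {g ∈ Q | hd ((γ * v)⁻¹ * g) = some t}.Infinite := by
  obtain ⟨C, hC⟩ := hmove
  intro hfin
  apply h
  have hb := norm_ball_finite (α := α) C
  refine ((hb.image (fun u => v * u)).union
    (Set.Finite.image2 (fun (a u : FreeGroup α) => γ⁻¹ * a * u⁻¹) hfin hb)).subset ?_
  rintro g ⟨hgQ, hgt⟩
  by_cases hn : (v⁻¹ * g).norm ≤ C
  · left
    exact ⟨v⁻¹ * g, hn, by group⟩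
  · right
    push Not at hn
    obtain ⟨g', hg'Q, hg'⟩ := hC g hgQ
    refine ⟨g', ⟨hg'Q, ?_⟩, (γ * g)⁻¹ * g', hg', by group⟩
    have e : (γ * v)⁻¹ * g' = (v⁻¹ * g) * ((γ * g)⁻¹ * g') := by group
    rw [e, hd_mul _ _ (lt_of_le_of_lt hg' hn)]
    exact hgt

theorem fi_chain (Γ' : Subgroup (FreeGroup α)) (B : Set (FreeGroup α)) (w : FreeGroup α)
    (hno : ∀ γ ∈ Γ', ∀ b' ∈ B, 2 < (w⁻¹ * (γ * b')).norm) (g g' : FreeGroup α)
    (hc : ReflTransGen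
      (fun a b => (a⁻¹ * b).norm ≤ 2 ∧ ∃ γ ∈ Γ', ∃ b' ∈ B, b = γ * b') g g') :
    hd (w⁻¹ * g') = hd (w⁻¹ * g) := by
  induction hc with
  | refl => rfl
  | tail _ hab ih =>
    rename_i a b _
    obtain ⟨h1, γ, hγ, b', hb', rfl⟩ := hab
    rw [← ih]
    have e : w⁻¹ * a = (w⁻¹ * (γ * b')) * (a⁻¹ * (γ * b'))⁻¹ := by group
    rw [e]
    refine (hd_mul _ _ ?_).symm
    rw [FreeGroup.norm_inv_eq]
    exact lt_of_le_of_lt h1 (hno γ hγ b' hb')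

theorem fi_index {G : Type} [Group G] (Γ Γ' : Subgroup G) (A : Set G) (hA : A.Finite)
    (h : ∀ γ ∈ Γ, ∃ γ' ∈ Γ', ∃ a ∈ A, γ = γ' * a) : Γ'.relIndex Γ ≠ 0 := by
  unfold Subgroup.relIndex
  have hA' : Finite A := hA.to_subtype
  have hex : ∀ q : Γ ⧸ Γ'.subgroupOf Γ, ∃ a : A, ∃ γ' ∈ Γ', ((q.out : Γ) : G)⁻¹ = γ' * a := by
    intro q
    obtain ⟨γ', hγ', a, ha, e⟩ := h _ (inv_mem (q.out : Γ).2)
    exact ⟨⟨a, ha⟩, γ', hγ', e⟩
  choose f hf using hex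
  have hinj : Function.Injective f := by
    intro q1 q2 h12
    obtain ⟨γ1, hγ1, e1⟩ := hf q1
    obtain ⟨γ2, hγ2, e2⟩ := hf q2
    rw [← QuotientGroup.out_eq' q1, ← QuotientGroup.out_eq' q2, QuotientGroup.eq,
      Subgroup.mem_subgroupOf]
    have e3 : (((q1.out : Γ)⁻¹ * (q2.out : Γ) : Γ) : G) = γ1 * γ2⁻¹ := by
      rw [Subgroup.coe_mul, Subgroup.coe_inv, e1]
      have e4 : ((q2.out : Γ) : G) = (γ2 * (f q2 : G))⁻¹ := by
        rw [← e2, inv_inv]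
      rw [e4, h12]
      group
    rw [e3]
    exact mul_mem hγ1 (inv_mem hγ2)
  have : Finite (Γ ⧸ Γ'.subgroupOf Γ) := Finite.of_injective f hinj
  exact Subgroup.index_ne_zero_of_finite

theorem fin_index [Finite α] (Γ Γ' : Subgroup (FreeGroup α)) (hle : Γ' ≤ Γ)
    (Q : Set (FreeGroup α)) (hQ : Q.Infinite)
    (hmove : ∀ γ ∈ Γ, ∃ C : ℕ, ∀ g ∈ Q, ∃ g' ∈ Q, ((γ * g)⁻¹ * g').norm ≤ C)
    (B : Set (FreeGroup α)) (hB : B.Finite)
    (hconn : ∀ g ∈ Q, ∀ g' ∈ Q, ReflTransGen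
      (fun a b => (a⁻¹ * b).norm ≤ 2 ∧ ∃ γ ∈ Γ', ∃ b' ∈ B, b = γ * b') g g')
    (hna : ∃ a ∈ Γ, ∃ b ∈ Γ, a * b ≠ b * a) : Γ'.relIndex Γ ≠ 0 := by
  by_cases hcase : ∃ (v : FreeGroup α) (t1 t2 : α × Bool), t1 ≠ t2 ∧
      {g ∈ Q | hd (v⁻¹ * g) = some t1}.Infinite ∧ {g ∈ Q | hd (v⁻¹ * g) = some t2}.Infinite
  · obtain ⟨v0, t1, t2, hne, h1, h2⟩ := hcase
    have hb := norm_ball_finite (α := α) 2
    refine fi_index Γ Γ' _ (Set.Finite.image2 (fun (b u : FreeGroup α) => b * u⁻¹ * v0⁻¹) hB hb)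
      (fun γ hγ => ?_)
    by_contra hcon
    have hno : ∀ γ' ∈ Γ', ∀ b' ∈ B, 2 < ((γ * v0)⁻¹ * (γ' * b')).norm := by
      intro γ' hγ' b' hb'
      by_contra hlt
      push Not at hlt
      exact hcon ⟨γ', hγ', b' * ((γ * v0)⁻¹ * (γ' * b'))⁻¹ * v0⁻¹,
        ⟨b', hb', _, hlt, rfl⟩, by group⟩
    obtain ⟨g, hgQ, hg⟩ := (fi_transfer Q γ (hmove γ hγ) v0 t1 h1).nonempty
    obtain ⟨g', hgQ', hg'⟩ := (fi_transfer Q γ (hmove γ hγ) v0 t2 h2).nonempty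
    have h3 := fi_chain Γ' B (γ * v0) hno g g' (hconn g hgQ g' hgQ')
    rw [hg, hg'] at h3
    exact hne (Option.some.inj h3).symm
  · exfalso
    push Not at hcase
    have hU : ∀ (v : FreeGroup α) (t1 t2 : α × Bool),
        {g ∈ Q | hd (v⁻¹ * g) = some t1}.Infinite → {g ∈ Q | hd (v⁻¹ * g) = some t2}.Infinite →
        t1 = t2 := by
      intro v t1 t2 h1 h2
      by_contra hne
      exact h2 (hcase v t1 t2 hne h1)
    have hNB : (Filter.cofinite ⊓ Filter.principal Q).NeBot :=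
      Filter.cofinite_inf_principal_neBot_iff.2 hQ
    let D : Ultrafilter (FreeGroup α) := Ultrafilter.of (Filter.cofinite ⊓ Filter.principal Q)
    have hDle : (D : Filter (FreeGroup α)) ≤ Filter.cofinite ⊓ Filter.principal Q :=
      Ultrafilter.of_le _
    have hDQ : Q ∈ D := hDle (Filter.mem_inf_of_right (Filter.mem_principal_self Q))
    have hDinf : ∀ S ∈ D, S.Infinite := by
      intro S hS hfin
      have h1 : Sᶜ ∈ D := hDle (Filter.mem_inf_of_left hfin.compl_mem_cofinite)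
      exact (Ultrafilter.compl_mem_iff_notMem.1 h1) hS
    obtain ⟨s, hs, hsD⟩ := end_of_ultrafilter D
      (fun g hg => hDinf _ hg (Set.finite_singleton g))
    have hsU : ∀ v, {g ∈ Q | hd (v⁻¹ * g) = some (s v)}.Infinite := fun v =>
      hDinf _ (Filter.inter_mem hDQ (hsD v))
    have hinv : ∀ γ ∈ Γ, ∀ v, s (γ * v) = s v := fun γ hγ v =>
      hU (γ * v) _ _ (hsU (γ * v)) (fi_transfer Q γ (hmove γ hγ) v (s v) (hsU v))
    obtain ⟨a, ha, b, hb, hab⟩ := hna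
    exact hab (end_abelian s hs a b (hinv a ha) (hinv b hb))

end T

end Pool.Agent.Helper499.HC
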