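import Pool.Agent.Helper499.HC.Defs
import Pool.Agent.Helper499.HC.H01
import Pool.Agent.Helper499.HC.H04
import Pool.Agent.Helper499.HC.H05
import Pool.Agent.Helper499.HC.H06
import Pool.Agent.Helper499.HC.T05

set_option autoImplicit false

namespace Pool.Agent.Helper499.HC

open Relation



open Filter Topology Set

section H
variable {X : Type} [MetricSpace X] {α : Type} [DecidableEq α]








theorem index_ne_zero [CompactSpace X] [ConnectedSpace X] [Finite α] (S : Coc X α) (x₀ : X)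
    (δ₁ : ℝ) (hδ₁ : δ₁ ≤ S.lam / 4)
    (hE : ∀ x y : X, dist x y < δ₁ → ∃ h : X ≃ₜ X, h x = y ∧ ∀ z, dist z (h z) < S.lam / 4)
    (hna : ∀ δ > 0, ∃ a ∈ Gam S x₀ δ, ∃ b ∈ Gam S x₀ δ, a * b ≠ b * a)
    (δ δ' : ℝ) (h0 : 0 < δ') (h1 : δ' ≤ δ) (h2 : δ ≤ δ₁) :
    (Gam S x₀ δ').relIndex (Gam S x₀ δ) ≠ 0 := by
  have hmono : ∀ {Y : Type} [MetricSpace Y] {a b : ℝ} {p q : Y}, a ≤ b → CC a p q → CC b p q := by
    intro Y _ a b p q hab h
    exact ReflTransGen.mono (fun u v huv => lt_of_lt_of_le huv hab) _ _ h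
  have hle : Gam S x₀ δ' ≤ Gam S x₀ δ := fun γ hγ => hmono h1 hγ
  have hδ : 0 < δ := lt_of_lt_of_le h0 h1
  have hinf : ∀ ε > 0, (Gam S x₀ ε : Set (FreeGroup α)).Infinite := by
    intro ε hε hfin
    obtain ⟨a, ha, b, hb, hab⟩ := hna ε hε
    have ha1 : a ≠ 1 := by
      rintro rfl
      exact hab (by simp)
    have hz : (Set.range (fun n : ℕ => a ^ n)) ⊆ (Gam S x₀ ε : Set (FreeGroup α)) := by
      rintro _ ⟨n, rfl⟩
      exact (Gam S x₀ ε).pow_mem ha n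
    have hfin2 := hfin.subset hz
    have hinj : Function.Injective (fun n : ℕ => a ^ n) := by
      have h3 : ¬ IsOfFinOrder a := not_isOfFinOrder_of_isMulTorsionFree ha1
      exact injective_pow_iff_not_isOfFinOrder.2 h3
    exact Set.infinite_range_of_injective hinj hfin2
  obtain ⟨B, hB, hBv⟩ := component_values S x₀ h0 (by linarith : δ' ≤ S.lam / 4)
  refine fin_index (Gam S x₀ δ) (Gam S x₀ δ') hle (Hat.g '' Quasi S x₀)
    (quasi_infinite S x₀ hinf) ?_ B hB ?_ (hna δ hδ)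
  · intro γ hγ
    obtain ⟨H, hH, hHa, hHu, hHs, C, hC⟩ := chain_homeo S δ₁ hδ₁ hE ⟨x₀, 1⟩ ⟨x₀, γ⟩ (hmono h2 hγ)
    have hact : Hat.act γ (⟨x₀, 1⟩ : Hat S) = ⟨x₀, γ⟩ := by simp [Hat.act]
    refine ⟨C, ?_⟩
    rintro _ ⟨q0, hq0, rfl⟩
    refine ⟨(H.symm (Hat.act γ q0)).g, ⟨_, ?_, rfl⟩, ?_⟩
    · intro ε hε
      obtain ⟨η, hη, hη2⟩ := Metric.uniformContinuous_iff.1 hHs ε hε
      have h3 : CC η (Hat.act γ (⟨x₀, 1⟩ : Hat S)) (Hat.act γ q0) := CC.act γ (hq0 η hη)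
      have h4 : ∀ u v : Hat S, CC η u v → CC ε (H.symm u) (H.symm v) := by
        intro u v huv
        unfold CC at *
        induction huv with
        | refl => exact ReflTransGen.refl
        | tail _ h5 ih => exact ih.tail (hη2 h5)
      have h5 := h4 _ _ h3
      rw [hact, ← hH, H.symm_apply_apply] at h5
      exact h5
    · have h6 := hC (H.symm (Hat.act γ q0))
      rw [H.apply_symm_apply] at h6
      have h7 : (Hat.act γ q0).g = γ * q0.g := rfl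
      rw [h7] at h6
      rw [← FreeGroup.norm_inv_eq]
      rw [mul_inv_rev, inv_inv]
      exact h6
  · rintro _ ⟨q, hq, rfl⟩ _ ⟨q', hq', rfl⟩
    have h3 : CC δ' q q' := CC.trans' (CC.symm' (hq δ' h0)) (hq' δ' h0)
    have h4 : ∀ r : Hat S, CC δ' q r → CC δ' (⟨x₀, 1⟩ : Hat S) r ∧ ReflTransGen
        (fun a b => (a⁻¹ * b).norm ≤ 2 ∧ ∃ γ ∈ Gam S x₀ δ', ∃ b' ∈ B, b = γ * b') q.g r.g := by
      intro r hr
      unfold CC at hr
      induction hr with
      | refl => exact ⟨hq δ' h0, ReflTransGen.refl⟩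
      | @tail u v _ h5 ih =>
        have h6 : CC δ' (⟨x₀, 1⟩ : Hat S) v := ReflTransGen.tail ih.1 h5
        refine ⟨h6, ih.2.tail ⟨?_, hBv v h6⟩⟩
        have h7 := (Hat.dist_lt_iff u v (by linarith : δ' ≤ S.lam / 4)).1 h5
        rw [h7.2, inv_mul_cancel_left]
        exact S.bd _ _
    exact (h4 q' h3).2

end H

end Pool.Agent.Helper499.HC
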