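import Pool.Agent.Helper499.HC.Defs

set_option autoImplicit false

namespace Pool.Agent.Helper499.HC

open Relation



open Filter Topology Set


section N
variable {X : Type} [MetricSpace X] [CompactSpace X]


theorem approx (a : X → X → ℤ) (r : ℝ) (ha : LocCoc r a) (C : Cov X)
    (hmesh : ∀ i, ∀ x ∈ C.U i, ∀ y ∈ C.U i, dist x y < r / 4) :
    ∃ (f : FreeGroup (Fin C.m × Fin C.m) →* Multiplicative ℤ) (ψ : X → ℤ),
      ∀ x y, dist x y < C.leb → a x y = (f (C.cc x y)).toAdd + ψ y - ψ x := by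
  classical
  rcases isEmpty_or_nonempty X with hX | ⟨⟨x₀⟩⟩
  · exact ⟨1, fun _ => 0, fun x => (hX.false x).elim⟩
  have hr : 0 < r := by
    obtain ⟨i, hi⟩ := C.cover x₀
    have := hmesh i x₀ hi x₀ hi
    rw [dist_self] at this
    linarith
  have haa : ∀ x, a x x = 0 := by
    intro x
    have h := ha x x x (by rwa [dist_self]) (by rwa [dist_self]) (by rwa [dist_self])
    linarith
  have has : ∀ x y, dist x y < r → a y x = - a x y := by
    intro x y h
    have h1 := ha x y x h (by rwa [dist_comm]) (by rwa [dist_self])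
    rw [haa] at h1
    linarith
  obtain ⟨u, hu⟩ : ∃ u : Fin C.m → X, ∀ i, (C.U i).Nonempty → u i ∈ C.U i := by
    refine ⟨fun i => if h : (C.U i).Nonempty then h.choose else x₀, fun i h => ?_⟩
    simp only [dif_pos h]
    exact h.choose_spec
  obtain ⟨f, hf⟩ : ∃ f : FreeGroup (Fin C.m × Fin C.m) →* Multiplicative ℤ,
      f = FreeGroup.lift (fun p => Multiplicative.ofAdd (a (u p.1) (u p.2))) := ⟨_, rfl⟩
  have hof : ∀ p, f (FreeGroup.of p) = Multiplicative.ofAdd (a (u p.1) (u p.2)) := by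
    intro p
    rw [hf, FreeGroup.lift_apply_of]
  have hE : ∀ i j, (∃ z, z ∈ C.U i ∧ z ∈ C.U j) → (f (C.e i j)).toAdd = a (u i) (u j) := by
    rintro i j ⟨z, hi, hj⟩
    have h1 := hmesh i z hi (u i) (hu i ⟨z, hi⟩)
    have h2 := hmesh j z hj (u j) (hu j ⟨z, hj⟩)
    have h3 : dist (u j) (u i) < r := by
      have := dist_triangle (u j) z (u i)
      rw [dist_comm (u j) z] at this
      linarith
    unfold Cov.e
    rcases lt_trichotomy i j with h | h | h
    · rw [if_pos h, hof, toAdd_ofAdd]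
    · subst h
      rw [if_neg (lt_irrefl _), if_neg (lt_irrefl _), map_one, toAdd_one, haa]
    · rw [if_neg h.not_gt, if_pos h, map_inv, hof, toAdd_inv, toAdd_ofAdd, has _ _ h3]
  refine ⟨f, fun x => a (u (C.idx x)) x, ?_⟩
  intro x y hxy
  obtain ⟨i, hi⟩ := C.leb_spec x
  have hx : x ∈ C.U i := hi (Metric.mem_ball_self C.leb_pos)
  have hy : y ∈ C.U i := hi (by rw [Metric.mem_ball, dist_comm]; exact hxy)
  have hix := C.idx_mem x
  have hiy := C.idx_mem y
  rw [C.cc_eq hx hy, map_mul, toAdd_mul, hE _ _ ⟨x, hix, hx⟩, hE _ _ ⟨y, hy, hiy⟩]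
  have d1 : dist x y < r / 4 := hmesh i x hx y hy
  have d2 : dist x (u i) < r / 4 := hmesh i x hx (u i) (hu i ⟨x, hx⟩)
  have d3 : dist y (u i) < r / 4 := hmesh i y hy (u i) (hu i ⟨x, hx⟩)
  have d4 : dist (u (C.idx x)) x < r / 4 := hmesh _ _ (hu _ ⟨x, hix⟩) x hix
  have d5 : dist y (u (C.idx y)) < r / 4 := hmesh _ _ hiy _ (hu _ ⟨y, hiy⟩)
  have t1 : dist (u (C.idx x)) (u i) < r := by
    have := dist_triangle (u (C.idx x)) x (u i)
    linarith
  have t2 : dist (u i) (u (C.idx y)) < r := by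
    have := dist_triangle (u i) y (u (C.idx y))
    rw [dist_comm (u i) y] at this
    linarith
  have t3 : dist x (u (C.idx y)) < r / 2 := by
    have := dist_triangle x y (u (C.idx y))
    linarith
  have t4 : dist (u (C.idx x)) (u (C.idx y)) < r := by
    have := dist_triangle (u (C.idx x)) x (u (C.idx y))
    linarith
  have e1 := ha _ _ _ t1 t2 t4
  have e2 := ha (u (C.idx x)) x (u (C.idx y)) (by linarith) (by linarith) t4
  have e3 := ha x y (u (C.idx y)) (by linarith) (by linarith) (by linarith)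
  have e4 := has y (u (C.idx y)) (by linarith)
  show a x y = a (u (C.idx x)) (u i) + a (u i) (u (C.idx y)) + a (u (C.idx y)) y -
    a (u (C.idx x)) x
  linarith

end N


end Pool.Agent.Helper499.HC
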