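import Pool.Agent.Helper499.HC.Defs
import Pool.Agent.Helper499.HC.G01
import Pool.Agent.Helper499.HC.H01
import Pool.Agent.Helper499.HC.N01

set_option autoImplicit false

namespace Pool.Agent.Helper499.HC

open Relation



open Filter Topology Set


section HH
variable {X : Type} [MetricSpace X] {α : Type} [DecidableEq α]


end HH


section N
variable {X : Type} [MetricSpace X] [CompactSpace X]



theorem gam_nonabelian [ConnectedSpace X] (a₁ a₂ : X → X → ℤ) (r : ℝ) (hr : 0 < r)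
    (h₁ : LocCoc r a₁) (h₂ : LocCoc r a₂)
    (hind : ∀ k l : ℤ, (k ≠ 0 ∨ l ≠ 0) → ¬ LocCob (fun x y => k * a₁ x y + l * a₂ x y))
    (C : Cov X) (hmesh : ∀ i, ∀ x ∈ C.U i, ∀ y ∈ C.U i, dist x y < r / 4) (x₀ : X)
    (δ : ℝ) (hδ : 0 < δ) :
    ∃ a ∈ Gam C.toCoc x₀ δ, ∃ b ∈ Gam C.toCoc x₀ δ, a * b ≠ b * a := by
  by_contra hno
  push Not at hno
  obtain ⟨f₁, ψ₁, hf₁⟩ := approx a₁ r h₁ C hmesh
  obtain ⟨f₂, ψ₂, hf₂⟩ := approx a₂ r h₂ C hmesh
  obtain ⟨k, l, hkl, hdep⟩ := abelian_dep (Gam C.toCoc x₀ δ) hno f₁ f₂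
  have hleb : 0 < C.leb := C.leb_pos
  have hlam : C.toCoc.lam = C.leb := rfl
  set d : ℝ := min δ (C.leb / 4) with hd
  have hd0 : 0 < d := lt_min hδ (by positivity)
  have hdδ : d ≤ δ := min_le_left _ _
  have hd4 : d ≤ C.toCoc.lam / 4 := by rw [hlam]; exact min_le_right _ _
  choose g hg using fun x => exists_hat_chain C.toCoc x₀ hd0 hd4 x
  apply hind k l hkl
  refine ⟨d, hd0, fun x => k * ((f₁ (g x)).toAdd + ψ₁ x) + l * ((f₂ (g x)).toAdd + ψ₂ x), ?_⟩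
  intro x y hxy
  have hxl : dist x y < C.leb := by
    have : d ≤ C.leb / 4 := min_le_right _ _
    linarith
  have step1 : CC d (⟨x₀, 1⟩ : Hat C.toCoc) ⟨y, g x * C.cc x y⟩ := by
    have h := hg x
    unfold CC at h ⊢
    refine h.tail ?_
    exact (Hat.dist_lt_iff _ _ hd4).mpr ⟨hxy, rfl⟩
  have step2 := CC.act (g x * C.cc x y * (g y)⁻¹) (CC.symm' (hg y))
  have e1 : Hat.act (g x * C.cc x y * (g y)⁻¹) (⟨y, g y⟩ : Hat C.toCoc) =
      ⟨y, g x * C.cc x y⟩ := by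
    simp [Hat.act]
  have e2 : Hat.act (g x * C.cc x y * (g y)⁻¹) (⟨x₀, 1⟩ : Hat C.toCoc) =
      ⟨x₀, g x * C.cc x y * (g y)⁻¹⟩ := by
    simp [Hat.act]
  rw [e1, e2] at step2
  have step3 : CC d (⟨x₀, 1⟩ : Hat C.toCoc) ⟨x₀, g x * C.cc x y * (g y)⁻¹⟩ :=
    CC.trans' step1 step2
  have step4 : g x * C.cc x y * (g y)⁻¹ ∈ Gam C.toCoc x₀ δ := by
    change CC δ (⟨x₀, 1⟩ : Hat C.toCoc) ⟨x₀, g x * C.cc x y * (g y)⁻¹⟩
    unfold CC at step3 ⊢
    exact ReflTransGen.mono (fun a b hab => lt_of_lt_of_le hab hdδ) _ _ step3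
  have h5 := hdep _ step4
  have h6 := congrArg Multiplicative.toAdd h5
  simp only [map_mul, map_inv, toAdd_mul, toAdd_zpow, toAdd_inv, toAdd_one, smul_eq_mul] at h6
  have h7 := hf₁ x y hxl
  have h8 := hf₂ x y hxl
  simp only [h7, h8]
  linear_combination h6

end N


end Pool.Agent.Helper499.HC
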