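import Pool.Agent.Helper499.HC.Defs
import Pool.Agent.Helper499.HC.G06
import Pool.Agent.Helper499.HC.H01

set_option autoImplicit false

namespace Pool.Agent.Helper499.HC

open Relation



open Filter Topology Set


section HH
variable {X : Type} [MetricSpace X] {α : Type} [DecidableEq α]


end HH


section N
variable {X : Type} [MetricSpace X] [CompactSpace X]


theorem gam_rank_mem {X : Type} [MetricSpace X] {α : Type} [DecidableEq α] (S : Coc X α) (x₀ : X)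
    (δ : ℝ) (x : X) (g g' : FreeGroup α)
    (h : CC δ (⟨x₀, 1⟩ : Hat S) ⟨x, g⟩) (h' : CC δ (⟨x₀, 1⟩ : Hat S) ⟨x, g'⟩) :
    g * g'⁻¹ ∈ Gam S x₀ δ := by
  have h1 := CC.act (g * g'⁻¹) h'
  have e1 : (Hat.act (g * g'⁻¹) (⟨x₀, 1⟩ : Hat S)) = ⟨x₀, g * g'⁻¹⟩ := by simp [Hat.act]
  have e2 : (Hat.act (g * g'⁻¹) (⟨x, g'⟩ : Hat S)) = ⟨x, g⟩ := by simp [Hat.act]
  rw [e1, e2] at h1
  exact CC.trans' h (CC.symm' h1)

theorem gam_rank_step {X : Type} [MetricSpace X] {α : Type} [DecidableEq α] (S : Coc X α) (x₀ : X)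
    (δ : ℝ) (hδ' : δ ≤ S.lam / 4) (x y : X) (g : FreeGroup α) (hxy : dist x y < δ)
    (h : CC δ (⟨x₀, 1⟩ : Hat S) ⟨x, g⟩) : CC δ (⟨x₀, 1⟩ : Hat S) ⟨y, g * S.c x y⟩ := by
  refine ReflTransGen.tail h ?_
  exact (Hat.dist_lt_iff (⟨x, g⟩ : Hat S) ⟨y, g * S.c x y⟩ hδ').2 ⟨hxy, rfl⟩

theorem gam_rank_mono {X : Type} [MetricSpace X] {α : Type} [DecidableEq α] (S : Coc X α)
    (d δ : ℝ) (hd : d ≤ δ) (p q : Hat S) (h : CC d p q) : CC δ p q := by
  unfold CC at *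
  induction h with
  | refl => exact ReflTransGen.refl
  | tail _ h2 ih => exact ih.tail (lt_of_lt_of_le h2 hd)

theorem gam_rank [ConnectedSpace X] {α : Type} [DecidableEq α] (m : ℕ)
    (hFR : ∀ a : Fin (m + 1) → X → X → ℤ, (∀ i, ∃ r > 0, LocCoc r (a i)) →
      ∃ k : Fin (m + 1) → ℤ, k ≠ 0 ∧ LocCob (fun x y => ∑ i, k i * a i x y))
    (S : Coc X α) (x₀ : X) (δ : ℝ) (hδ : 0 < δ) (hδ' : δ ≤ S.lam / 4)
    (hfin : ∀ δ', 0 < δ' → δ' ≤ δ → (Gam S x₀ δ').relIndex (Gam S x₀ δ) ≠ 0) :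
    ∃ k ≤ m, Nonempty (Gam S x₀ δ ≃* FreeGroup (Fin k)) := by
  classical
  apply rank_bound
  intro f
  have hl := S.lam_pos
  -- choose the section
  have hG : ∃ G : X → FreeGroup α, (∀ x, CC δ (⟨x₀, 1⟩ : Hat S) ⟨x, G x⟩) ∧ G x₀ = 1 := by
    choose G0 hG0 using fun x => exists_hat_chain S x₀ hδ hδ' x
    refine ⟨fun x => if x = x₀ then 1 else G0 x, ?_, by simp⟩
    intro x
    by_cases hx : x = x₀
    · subst hx
      simp only [if_true]
      exact ReflTransGen.refl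
    · simp only [hx, if_false]
      exact hG0 x
  obtain ⟨G, hG, hG0⟩ := hG
  have hmem : ∀ x y, dist x y < δ → G x * S.c x y * (G y)⁻¹ ∈ Gam S x₀ δ := fun x y hxy =>
    gam_rank_mem S x₀ δ y _ _ (gam_rank_step S x₀ δ hδ' x y (G x) hxy (hG x)) (hG y)
  have hmem2 : ∀ q : Hat S, CC δ (⟨x₀, 1⟩ : Hat S) q → q.g * (G q.pt)⁻¹ ∈ Gam S x₀ δ :=
    fun q hq => gam_rank_mem S x₀ δ q.pt _ _ hq (hG q.pt)
  let a : Fin (m + 1) → X → X → ℤ := fun i x y =>
    if h : dist x y < δ then Multiplicative.toAdd (f i ⟨_, hmem x y h⟩) else 0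
  have ha : ∀ i x y (h : dist x y < δ),
      a i x y = Multiplicative.toAdd (f i ⟨_, hmem x y h⟩) := by
    intro i x y h
    simp only [a, h, dif_pos]
  have hcoc : ∀ i, ∃ r > 0, LocCoc r (a i) := by
    intro i
    refine ⟨δ, hδ, ?_⟩
    intro x y z hxy hyz hxz
    rw [ha i x y hxy, ha i y z hyz, ha i x z hxz, ← toAdd_mul, ← map_mul]
    congr 2
    apply Subtype.ext
    simp only [Subgroup.coe_mul]
    rw [← S.coc x y z (by linarith) (by linarith) (by linarith)]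
    group
  obtain ⟨k, hk, r, hr, ψ, hψ⟩ := hFR a hcoc
  refine ⟨k, hk, ?_⟩
  let P : Gam S x₀ δ → ℤ := fun γ => ∑ i, k i * Multiplicative.toAdd (f i γ)
  have hP1 : P 1 = 0 := by simp [P]
  have hPm : ∀ γ γ', P (γ * γ') = P γ + P γ' := by
    intro γ γ'
    simp only [P, map_mul, toAdd_mul, mul_add, Finset.sum_add_distrib]
  have hPp : ∀ (γ : Gam S x₀ δ) (n : ℕ), P (γ ^ n) = n * P γ := by
    intro γ n
    induction n with
    | zero => simp [hP1]
    | succ n ih => rw [pow_succ, hPm, ih]; push_cast; ring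
  set d := min r δ with hd
  have hd0 : 0 < d := lt_min hr hδ
  have hdδ : d ≤ δ := min_le_right _ _
  have hdr : d ≤ r := min_le_left _ _
  have key : ∀ q : Hat S, CC d (⟨x₀, 1⟩ : Hat S) q → ∀ hq : CC δ (⟨x₀, 1⟩ : Hat S) q,
      P ⟨_, hmem2 q hq⟩ = ψ q.pt - ψ x₀ := by
    intro q h
    unfold CC at h
    induction h with
    | refl =>
      intro hq
      have : (⟨_, hmem2 (⟨x₀, 1⟩ : Hat S) hq⟩ : Gam S x₀ δ) = 1 := by
        apply Subtype.ext
        simp [hG0]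
      rw [this, hP1]
      simp
    | @tail b c hb hbc ih =>
      intro hc
      have hb' : CC δ (⟨x₀, 1⟩ : Hat S) b := gam_rank_mono S d δ hdδ _ _ hb
      have hbc' := (Hat.dist_lt_iff b c (le_trans hdδ hδ')).1 hbc
      have hlt : dist b.pt c.pt < δ := lt_of_lt_of_le hbc'.1 hdδ
      have hltr : dist b.pt c.pt < r := lt_of_lt_of_le hbc'.1 hdr
      have e : (⟨_, hmem2 c hc⟩ : Gam S x₀ δ) = ⟨_, hmem2 b hb'⟩ * ⟨_, hmem b.pt c.pt hlt⟩ := by
        apply Subtype.ext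
        simp only [Subgroup.coe_mul]
        rw [hbc'.2]
        group
      rw [e, hPm, ih hb']
      have h1 := hψ b.pt c.pt hltr
      have h2 : P ⟨_, hmem b.pt c.pt hlt⟩ = ∑ i, k i * a i b.pt c.pt := by
        simp only [P]
        apply Finset.sum_congr rfl
        intro i _
        rw [ha i b.pt c.pt hlt]
      rw [h2]
      simp only at h1
      rw [h1]
      ring
  have keyd : ∀ γ : Gam S x₀ δ, (γ : FreeGroup α) ∈ Gam S x₀ d → P γ = 0 := by
    intro γ hγ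
    have hc : CC d (⟨x₀, 1⟩ : Hat S) ⟨x₀, (γ : FreeGroup α)⟩ := hγ
    have hc' : CC δ (⟨x₀, 1⟩ : Hat S) ⟨x₀, (γ : FreeGroup α)⟩ := gam_rank_mono S d δ hdδ _ _ hc
    have h1 := key _ hc hc'
    have e : (⟨_, hmem2 (⟨x₀, (γ : FreeGroup α)⟩ : Hat S) hc'⟩ : Gam S x₀ δ) = γ := by
      apply Subtype.ext
      simp [hG0]
    rw [e] at h1
    rw [h1]
    simp
  intro γ
  obtain ⟨n, hn, hn0, hmemn⟩ := Subgroup.exists_pow_mem_of_relIndex_ne_zero
    (hfin d hd0 hdδ) γ.2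
  have h2 : P (γ ^ n) = 0 := keyd _ (by simpa using hmemn.1)
  rw [hPp] at h2
  have h3 : P γ = 0 := by
    rcases mul_eq_zero.1 h2 with h | h
    · exfalso
      have : n = 0 := by exact_mod_cast h
      omega
    · exact h
  apply Multiplicative.toAdd.injective
  rw [toAdd_prod, toAdd_one]
  have e : ∀ i, Multiplicative.toAdd (f i γ ^ k i) = k i * Multiplicative.toAdd (f i γ) := by
    intro i
    rw [toAdd_zpow, smul_eq_mul]
  simp only [e]
  exact h3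

end N


end Pool.Agent.Helper499.HC
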