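import Pool.Agent.Helper499.HC.Defs

set_option autoImplicit false

namespace Pool.Agent.Helper499.HC

open Relation



open Filter Topology Set


section N
variable {X : Type} [MetricSpace X] [CompactSpace X]



theorem n04_balls (X : Type) [MetricSpace X] [CompactSpace X] (r : ℝ) (hr : 0 < r) :
    ∃ (n : ℕ) (z : Fin n → X), ∀ x, ∃ k, x ∈ Metric.ball (z k) r := by
  obtain ⟨t, -, ht, hc⟩ := finite_cover_balls_of_compact (isCompact_univ (X := X)) hr
  refine ⟨ht.toFinset.card, fun k => (ht.toFinset.equivFin.symm k : X), fun x => ?_⟩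
  have hx := hc (Set.mem_univ x)
  simp only [Set.mem_iUnion] at hx
  obtain ⟨y, hy, hxy⟩ := hx
  refine ⟨ht.toFinset.equivFin ⟨y, ht.mem_toFinset.mpr hy⟩, ?_⟩
  simpa using hxy

theorem n04_dist {X : Type} [MetricSpace X] {z x y : X} {μ : ℝ} (hμ : 0 < μ)
    (hx : x ∈ Metric.ball z (μ / 3)) (hy : y ∈ Metric.ball z (μ / 3)) : dist x y < μ := by
  have h1 : dist x z < μ / 3 := hx
  have h2 : dist y z < μ / 3 := hy
  have h3 := dist_triangle_right x y z
  linarith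

theorem exists_cov (hdim : DimLeOne X) (μ : ℝ) (hμ : 0 < μ) :
    ∃ C : Cov X, ∀ i, ∀ x ∈ C.U i, ∀ y ∈ C.U i, dist x y < μ := by
  obtain ⟨n, z, hz⟩ := n04_balls X (μ / 3) (by positivity)
  obtain ⟨m, V, h1, h2, h3, h4⟩ := hdim n (fun k => Metric.ball (z k) (μ / 3))
    (fun _ => Metric.isOpen_ball)
    (Set.eq_univ_of_forall fun x => Set.mem_iUnion.mpr (hz x))
  refine ⟨⟨m, V, h1, fun x => ?_, h4⟩, fun i x hx y hy => ?_⟩
  · exact Set.mem_iUnion.mp (h2 ▸ Set.mem_univ x)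
  · obtain ⟨k, hk⟩ := h3 i
    exact n04_dist hμ (hk hx) (hk hy)

theorem exists_refine (hdim : DimLeOne X) (C : Cov X) (μ : ℝ) (hμ : 0 < μ) :
    ∃ (W : Cov X) (ρ : Fin W.m → Fin C.m), (∀ k, W.U k ⊆ C.U (ρ k)) ∧
      ∀ k, ∀ x ∈ W.U k, ∀ y ∈ W.U k, dist x y < μ := by
  obtain ⟨n, z, hz⟩ := n04_balls X (μ / 3) (by positivity)
  obtain ⟨m, V, h1, h2, h3, h4⟩ := hdim (C.m * n)
    (fun p => C.U (finProdFinEquiv.symm p).1 ∩ Metric.ball (z (finProdFinEquiv.symm p).2) (μ / 3))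
    (fun _ => (C.isOpen _).inter Metric.isOpen_ball)
    (Set.eq_univ_of_forall fun x => by
      obtain ⟨i, hi⟩ := C.cover x
      obtain ⟨k, hk⟩ := hz x
      refine Set.mem_iUnion.mpr ⟨finProdFinEquiv (i, k), ?_⟩
      rw [Equiv.symm_apply_apply]
      exact ⟨hi, hk⟩)
  choose q hq using h3
  refine ⟨⟨m, V, h1, fun x => ?_, h4⟩, fun k => (finProdFinEquiv.symm (q k)).1,
    fun k x hx => (hq k hx).1, fun k x hx y hy => ?_⟩
  · exact Set.mem_iUnion.mp (h2 ▸ Set.mem_univ x)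
  · exact n04_dist hμ (hq k hx).2 (hq k hy).2

end N


end Pool.Agent.Helper499.HC
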