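import Pool.Agent.Helper499.HC.Defs

set_option autoImplicit false

namespace Pool.Agent.Helper499.HC

open Relation Filter Topology Set


theorem boundary_bump {Y : Type} [TopologicalSpace Y] [CompactSpace Y] [T2Space Y]
    [ConnectedSpace Y] (B : Set Y) (hB : IsOpen B) (hne : B.Nonempty) (e : Y) (he : e ∉ B) :
    ∃ D : Set Y, IsClosed D ∧ IsConnected D ∧ e ∈ D ∧ Disjoint D B ∧ (D ∩ closure B).Nonempty := by
  have hKc : IsClosed (Bᶜ) := hB.isClosed_compl
  haveI : CompactSpace (Bᶜ : Set Y) := isCompact_iff_compactSpace.1 hKc.isCompact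
  let e' : (Bᶜ : Set Y) := ⟨e, he⟩
  refine ⟨Subtype.val '' connectedComponent e', ?_, ?_, ⟨e', mem_connectedComponent, rfl⟩, ?_, ?_⟩
  · exact hKc.isClosedEmbedding_subtypeVal.isClosedMap _ isClosed_connectedComponent
  · exact isConnected_connectedComponent.image _ continuous_subtype_val.continuousOn
  · rw [Set.disjoint_left]
    rintro _ ⟨y, _, rfl⟩
    exact y.2
  · by_contra hcon
    rw [Set.not_nonempty_iff_eq_empty] at hcon
    have hcc := connectedComponent_eq_iInter_isClopen e'
    have hdir : Directed (· ⊇ ·) (fun s : { s : Set (Bᶜ : Set Y) // IsClopen s ∧ e' ∈ s } => (s : Set (Bᶜ : Set Y))) := by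
      intro s t
      exact ⟨⟨s.1 ∩ t.1, s.2.1.inter t.2.1, s.2.2, t.2.2⟩, Set.inter_subset_left, Set.inter_subset_right⟩
    haveI : Nonempty { s : Set (Bᶜ : Set Y) // IsClopen s ∧ e' ∈ s } := ⟨⟨Set.univ, isClopen_univ, trivial⟩⟩
    have hFo : IsOpen ((Subtype.val ⁻¹' closure B : Set (Bᶜ : Set Y))ᶜ) :=
      (isClosed_closure.preimage continuous_subtype_val).isOpen_compl
    obtain ⟨⟨V, hV1, hV2⟩, hV⟩ := exists_subset_nhds_of_compactSpace hdir (fun s => s.2.1.1)
      (U := (Subtype.val ⁻¹' closure B : Set (Bᶜ : Set Y))ᶜ) (by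
        intro x hx
        rw [← hcc] at hx
        apply hFo.mem_nhds
        intro hxB
        have : (x : Y) ∈ (∅ : Set Y) := by
          rw [← hcon]
          exact ⟨⟨x, hx, rfl⟩, hxB⟩
        exact this)
    have hcl : IsClosed (Subtype.val '' V : Set Y) :=
      hKc.isClosedEmbedding_subtypeVal.isClosedMap _ hV1.1
    obtain ⟨O, hO, hOV⟩ := isOpen_induced_iff.1 hV1.2
    have hop : IsOpen (Subtype.val '' V : Set Y) := by
      have : (Subtype.val '' V : Set Y) = O ∩ (closure B)ᶜ := by
        ext y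
        constructor
        · rintro ⟨z, hz, rfl⟩
          refine ⟨?_, fun h => hV hz h⟩
          have : z ∈ Subtype.val ⁻¹' O := by rw [hOV]; exact hz
          exact this
        · rintro ⟨h1, h2⟩
          have hyB : y ∈ Bᶜ := fun h => h2 (subset_closure h)
          refine ⟨⟨y, hyB⟩, ?_, rfl⟩
          rw [← hOV]
          exact h1
      rw [this]
      exact hO.inter isClosed_closure.isOpen_compl
    rcases isClopen_iff.1 ⟨hcl, hop⟩ with h | h
    · have : e ∈ (Subtype.val '' V : Set Y) := ⟨e', hV2, rfl⟩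
      rw [h] at this
      exact this
    · obtain ⟨b, hb⟩ := hne
      have : b ∈ (Subtype.val '' V : Set Y) := by rw [h]; trivial
      obtain ⟨z, _, rfl⟩ := this
      exact z.2 hb


end Pool.Agent.Helper499.HC
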