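import Pool.Agent.Helper499.HC.Defs
import Pool.Agent.Helper499.HC.P02

set_option autoImplicit false

namespace Pool.Agent.Helper499.HC

open Relation Filter Topology Set




theorem continuum_final {Y : Type} [TopologicalSpace Y] [CompactSpace Y] [T2Space Y]
    [ConnectedSpace Y] (O : Set Y) (hO : IsOpen O) (hd : Dense O) (G : Set (Y ≃ₜ Y))
    (hfix : ∀ g ∈ G, ∀ y, y ∉ O → g y = y) (htrans : ∀ p ∈ O, ∀ q ∈ O, ∃ g ∈ G, g p = q)
    (e₁ e₂ e₃ : Y) (h1 : e₁ ∉ O) (h2 : e₂ ∉ O) (h3 : e₃ ∉ O) (h12 : e₁ ≠ e₂) (h13 : e₁ ≠ e₃)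
    (h23 : e₂ ≠ e₃)
    (hα : ∀ e e', e ∉ O → e' ∉ O → e ≠ e' → ∃ m ∈ O, ∀ Z : Set Y, IsClosed Z → IsConnected Z →
      e ∈ Z → e' ∈ Z → m ∈ Z) : False := by
  have alpha : ∀ e e', e ∉ O → e' ∉ O → e ≠ e' → ∀ Z : Set Y, IsClosed Z → IsConnected Z →
      e ∈ Z → e' ∈ Z → Z = univ := by
    intro e e' he he' hne Z hZ hZc heZ he'Z
    obtain ⟨m, hm, hmZ⟩ := hα e e' he he' hne
    have hsub : O ⊆ Z := by
      intro q hq
      obtain ⟨g, hg, rfl⟩ := htrans m hm q hq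
      have h := hmZ (g ⁻¹' Z) (hZ.preimage g.continuous)
        (by
          have hh := hZc.image g.symm g.symm.continuous.continuousOn
          rwa [g.symm.image_eq_preimage_symm] at hh)
        (by rw [mem_preimage, hfix g hg e he]; exact heZ)
        (by rw [mem_preimage, hfix g hg e' he']; exact he'Z)
      exact h
    have := hZ.closure_subset_iff.2 hsub
    rw [hd.closure_eq] at this
    exact univ_subset_iff.1 this
  obtain ⟨p, hp, _⟩ := hα e₁ e₂ h1 h2 h12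
  obtain ⟨B, hpB, hBo, hBO⟩ : ∃ B : Set Y, p ∈ B ∧ IsOpen B ∧ closure B ⊆ O := by
    obtain ⟨t, ht, htc, htO⟩ := exists_mem_nhds_isClosed_subset (hO.mem_nhds hp)
    exact ⟨interior t, mem_interior_iff_mem_nhds.2 ht, isOpen_interior,
      (closure_minimal interior_subset htc).trans htO⟩
  have hBO' : B ⊆ O := subset_closure.trans hBO
  have key : ∀ e, e ∉ O → ∃ D : Set Y, IsClosed D ∧ IsConnected D ∧ e ∈ D ∧ p ∈ D ∧ D ≠ univ := by
    intro e he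
    obtain ⟨D, hDc, hDconn, heD, hDB, b, hbD, hbB⟩ :=
      boundary_bump B hBo ⟨p, hpB⟩ e (fun h => he (hBO' h))
    obtain ⟨g, hg, hgb⟩ := htrans b (hBO hbB) p hp
    refine ⟨g '' D, g.isClosedMap _ hDc, hDconn.image g g.continuous.continuousOn,
      ⟨e, heD, hfix g hg e he⟩, ⟨b, hbD, hgb⟩, ?_⟩
    intro hu
    have : g p ∈ g '' D := by rw [hu]; trivial
    obtain ⟨x, hx, hxp⟩ := this
    have : x = p := g.injective hxp
    subst this
    exact disjoint_left.1 hDB hx hpB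
  obtain ⟨D₂, c2, k2, e2, p2, n2⟩ := key e₂ h2
  obtain ⟨D₃, c3, k3, e3, p3, n3⟩ := key e₃ h3
  have hU : D₂ ∪ D₃ = univ :=
    alpha e₂ e₃ h2 h3 h23 _ (c2.union c3) (IsConnected.union ⟨p, p2, p3⟩ k2 k3) (Or.inl e2)
      (Or.inr e3)
  have h : e₁ ∈ D₂ ∪ D₃ := by rw [hU]; trivial
  rcases h with h | h
  · exact n2 (alpha e₁ e₂ h1 h2 h12 D₂ c2 k2 h e2)
  · exact n3 (alpha e₁ e₃ h1 h3 h13 D₃ c3 k3 h e3)


end Pool.Agent.Helper499.HC
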