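import Pool.Agent.Helper499.HC.Defs

set_option autoImplicit false

namespace Pool.Agent.Helper499.HC

open Relation Filter Topology Set


section Aux

variable {O : Type} [MetricSpace O] {I : Type} (f : I → O → ℝ)
  (hf01 : ∀ i p, f i p ∈ Set.Icc (0 : ℝ) 1)

/-- the map into the ambient compact space -/
def hcJ0 (q : O) : OnePoint O × (I → Set.Icc (0 : ℝ) 1) :=
  ((q : OnePoint O), fun i => ⟨f i q, hf01 i q⟩)

/-- the compactification -/
abbrev hcY : Type := ↥(closure (Set.range (hcJ0 f hf01)))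

/-- the embedding -/
def hcJ (q : O) : hcY f hf01 := ⟨hcJ0 f hf01 q, subset_closure ⟨q, rfl⟩⟩

theorem hcJ0_continuous (hf : ∀ i, UniformContinuous (f i)) : Continuous (hcJ0 f hf01) := by
  refine Continuous.prodMk OnePoint.continuous_coe (continuous_pi fun i => ?_)
  exact (hf i).continuous.subtype_mk _

theorem hcJ_continuous (hf : ∀ i, UniformContinuous (f i)) : Continuous (hcJ f hf01) :=
  (hcJ0_continuous f hf01 hf).subtype_mk _

theorem hc_lim (hf : ∀ i, UniformContinuous (f i)) [WeaklyLocallyCompactSpace O] {α : Type}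
    (l : Filter α) [l.NeBot]
    (u : α → O) (y : hcY f hf01) (hu : Tendsto (fun a => hcJ f hf01 (u a)) l (𝓝 y)) (q : O)
    (hq : y.1.1 = (q : OnePoint O)) : Tendsto u l (𝓝 q) ∧ y = hcJ f hf01 q := by
  have h1 : Tendsto (fun a => ((u a : O) : OnePoint O)) l (𝓝 (q : OnePoint O)) := by
    have h2 : Continuous fun y : hcY f hf01 => y.1.1 := continuous_fst.comp continuous_subtype_val
    have h3 := (h2.tendsto y).comp hu
    rw [hq] at h3
    exact h3
  have h4 : Tendsto u l (𝓝 q) := (OnePoint.isOpenEmbedding_coe.tendsto_nhds_iff).2 h1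
  refine ⟨h4, ?_⟩
  exact tendsto_nhds_unique hu (((hcJ_continuous f hf01 hf).tendsto q).comp h4)

theorem hc_denseRange : DenseRange (hcJ f hf01) := by
  intro y
  rw [closure_subtype]
  have e : (Subtype.val '' Set.range (hcJ f hf01)) = Set.range (hcJ0 f hf01) := by
    ext z
    constructor
    · rintro ⟨_, ⟨q, rfl⟩, rfl⟩
      exact ⟨q, rfl⟩
    · rintro ⟨q, rfl⟩
      exact ⟨_, ⟨q, rfl⟩, rfl⟩
  rw [e]
  exact y.2

theorem hc_range (hf : ∀ i, UniformContinuous (f i)) [WeaklyLocallyCompactSpace O]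
    (y : hcY f hf01) : y ∈ Set.range (hcJ f hf01) ↔ y.1.1 ≠ OnePoint.infty := by
  constructor
  · rintro ⟨q, rfl⟩
    exact OnePoint.coe_ne_infty q
  · intro h
    obtain ⟨q, hq⟩ := OnePoint.ne_infty_iff_exists.1 h
    have hd := hc_denseRange f hf01 y
    have hne : (comap (hcJ f hf01) (𝓝 y)).NeBot := by
      rw [comap_neBot_iff_frequently]
      rw [mem_closure_iff_frequently] at hd
      exact hd
    exact ⟨q, ((hc_lim f hf01 hf (comap (hcJ f hf01) (𝓝 y)) id y tendsto_comap q hq.symm).2).symm⟩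

theorem hc_openEmbedding (hf : ∀ i, UniformContinuous (f i)) [WeaklyLocallyCompactSpace O] :
    IsOpenEmbedding (hcJ f hf01) := by
  have h2 : Continuous fun y : hcY f hf01 => y.1.1 := continuous_fst.comp continuous_subtype_val
  refine ⟨IsEmbedding.of_comp (hcJ_continuous f hf01 hf) h2 ?_, ?_⟩
  · exact OnePoint.isOpenEmbedding_coe.isEmbedding
  · have e : Set.range (hcJ f hf01) =
        (fun y : hcY f hf01 => y.1.1) ⁻¹' {OnePoint.infty}ᶜ := by
      ext y
      rw [hc_range f hf01 hf y]
      rfl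
    rw [e]
    exact isOpen_compl_singleton.preimage h2

theorem hc_sep (hf : ∀ i, UniformContinuous (f i)) [WeaklyLocallyCompactSpace O]
    (y y' : hcY f hf01) (hy : y ∉ Set.range (hcJ f hf01)) (hy' : y' ∉ Set.range (hcJ f hf01))
    (h : ∀ i, ((y.1.2 i : Set.Icc (0:ℝ) 1) : ℝ) = y'.1.2 i) : y = y' := by
  rw [hc_range f hf01 hf, not_not] at hy hy'
  refine Subtype.ext (Prod.ext (hy.trans hy'.symm) (funext fun i => Subtype.ext (h i)))

theorem hc_coord (i : I) : Continuous fun y : hcY f hf01 => ((y.1.2 i : Set.Icc (0:ℝ) 1) : ℝ) :=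
  continuous_subtype_val.comp ((continuous_apply i).comp
    (continuous_snd.comp continuous_subtype_val))

theorem hc_close (hf : ∀ i, UniformContinuous (f i)) [WeaklyLocallyCompactSpace O]
    (l : Filter ℕ) [l.NeBot] (u v : ℕ → O) (huv : Tendsto (fun n => dist (u n) (v n)) l (𝓝 0))
    (y y' : hcY f hf01) (hu : Tendsto (fun a => hcJ f hf01 (u a)) l (𝓝 y))
    (hv : Tendsto (fun a => hcJ f hf01 (v a)) l (𝓝 y')) : y = y' := by
  have step : ∀ (u v : ℕ → O), Tendsto (fun n => dist (u n) (v n)) l (𝓝 0) → ∀ (y y' : hcY f hf01),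
      Tendsto (fun a => hcJ f hf01 (u a)) l (𝓝 y) → Tendsto (fun a => hcJ f hf01 (v a)) l (𝓝 y') →
      y ∈ Set.range (hcJ f hf01) → y = y' := by
    intro u v huv y y' hu hv hy
    obtain ⟨q, rfl⟩ := hy
    have h1 := (hc_lim f hf01 hf l u _ hu q rfl).1
    have h2 : Tendsto v l (𝓝 q) := by
      rw [tendsto_iff_dist_tendsto_zero] at h1 ⊢
      have h3 := h1.add huv
      rw [add_zero] at h3
      refine squeeze_zero (fun n => dist_nonneg) (fun n => ?_) h3
      calc dist (v n) q ≤ dist (v n) (u n) + dist (u n) q := dist_triangle _ _ _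
        _ = dist (u n) q + dist (u n) (v n) := by rw [dist_comm (v n) (u n)]; ring
    exact tendsto_nhds_unique (((hcJ_continuous f hf01 hf).tendsto q).comp h2) hv
  by_cases hy : y ∈ Set.range (hcJ f hf01)
  · exact step u v huv y y' hu hv hy
  · by_cases hy' : y' ∈ Set.range (hcJ f hf01)
    · refine (step v u ?_ y' y hv hu hy').symm
      simpa only [dist_comm] using huv
    · refine hc_sep f hf01 hf y y' hy hy' fun i => ?_
      have h1 : Tendsto (fun n => f i (u n)) l (𝓝 ((y.1.2 i : Set.Icc (0:ℝ) 1) : ℝ)) :=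
        ((hc_coord f hf01 i).tendsto y).comp hu
      have h2 : Tendsto (fun n => f i (v n)) l (𝓝 ((y'.1.2 i : Set.Icc (0:ℝ) 1) : ℝ)) :=
        ((hc_coord f hf01 i).tendsto y').comp hv
      have h3 : Tendsto (fun n => dist (f i (u n)) (f i (v n))) l (𝓝 0) := by
        rw [Metric.tendsto_nhds]
        intro ε hε
        obtain ⟨δ, hδ, hδ2⟩ := Metric.uniformContinuous_iff.1 (hf i) ε hε
        have h4 := (Metric.tendsto_nhds.1 huv) δ hδ
        filter_upwards [h4] with n hn
        rw [Real.dist_0_eq_abs, abs_of_nonneg dist_nonneg] at hn ⊢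
        exact hδ2 hn
      have h5 := h1.dist h2
      exact dist_eq_zero.1 (tendsto_nhds_unique h5 h3)

theorem hc_compact : CompactSpace (hcY f hf01) :=
  isCompact_iff_compactSpace.1 isClosed_closure.isCompact

theorem hc_connected (hf : ∀ i, UniformContinuous (f i)) [WeaklyLocallyCompactSpace O] [Nonempty O]
    (hchain : ∀ δ > 0, ∀ p q : O, CC δ p q) : ConnectedSpace (hcY f hf01) := by
  haveI := hc_compact f hf01
  have hpre : PreconnectedSpace (hcY f hf01) := by
    rw [preconnectedSpace_iff_clopen]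
    intro A hA
    by_cases hne : A.Nonempty
    · right
      -- a uniform step
      have hδ : ∃ δ > 0, ∀ q q' : O, dist q q' < δ → hcJ f hf01 q ∈ A → hcJ f hf01 q' ∈ A := by
        by_contra hcon
        push Not at hcon
        have hcon' : ∀ n : ℕ, ∃ q q' : O, dist q q' < 1 / ((n : ℝ) + 1) ∧ hcJ f hf01 q ∈ A ∧
            hcJ f hf01 q' ∉ A := fun n => hcon _ (by positivity)
        choose u v huv huA hvA using hcon'
        let U := Filter.hyperfilter ℕ
        have hU : (U : Filter ℕ) ≤ atTop := by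
          rw [← Nat.cofinite_eq_atTop]
          exact Filter.hyperfilter_le_cofinite
        have hdist : Tendsto (fun n => dist (u n) (v n)) (U : Filter ℕ) (𝓝 0) := by
          refine Tendsto.mono_left ?_ hU
          exact squeeze_zero (fun n => dist_nonneg) (fun n => (huv n).le)
            tendsto_one_div_add_atTop_nhds_zero_nat
        obtain ⟨y, -, hy⟩ := isCompact_univ.ultrafilter_le_nhds
          (U.map fun n => hcJ f hf01 (u n)) (by simp)
        obtain ⟨y', -, hy'⟩ := isCompact_univ.ultrafilter_le_nhds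
          (U.map fun n => hcJ f hf01 (v n)) (by simp)
        have hy1 : Tendsto (fun n => hcJ f hf01 (u n)) (U : Filter ℕ) (𝓝 y) := hy
        have hy2 : Tendsto (fun n => hcJ f hf01 (v n)) (U : Filter ℕ) (𝓝 y') := hy'
        have heq := hc_close f hf01 hf (U : Filter ℕ) u v hdist y y' hy1 hy2
        have hyA : y ∈ A := hA.1.mem_of_tendsto hy1 (Eventually.of_forall huA)
        have hyA' : y' ∈ Aᶜ := hA.compl.1.mem_of_tendsto hy2 (Eventually.of_forall hvA)
        exact hyA' (heq ▸ hyA)
      obtain ⟨δ, hδ, hstep⟩ := hδ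
      obtain ⟨q, hq⟩ := (hc_denseRange f hf01).exists_mem_open hA.2 hne
      have hall : ∀ p, hcJ f hf01 p ∈ A := by
        intro p
        have hc := hchain δ hδ q p
        unfold CC at hc
        induction hc with
        | refl => exact hq
        | tail _ h2 ih => exact hstep _ _ h2 ih
      have hsub : Set.range (hcJ f hf01) ⊆ A := by
        rintro _ ⟨p, rfl⟩
        exact hall p
      have := (hc_denseRange f hf01).closure_range
      rw [Set.eq_univ_iff_forall]
      intro y
      have hy : y ∈ closure (Set.range (hcJ f hf01)) := this ▸ Set.mem_univ y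
      exact (closure_minimal hsub hA.1) hy
    · left
      exact Set.not_nonempty_iff_eq_empty.1 hne
  exact { hpre with toNonempty := ⟨hcJ f hf01 (Classical.arbitrary O)⟩ }

open Classical in
/-- extension of a map -/
noncomputable def hcG (h : O → O) (y : hcY f hf01) : hcY f hf01 :=
  if hy : y ∈ Set.range (hcJ f hf01) then hcJ f hf01 (h hy.choose) else y

theorem hcG_j (hinj : Function.Injective (hcJ f hf01)) (h : O → O) (p : O) :
    hcG f hf01 h (hcJ f hf01 p) = hcJ f hf01 (h p) := by
  unfold hcG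
  have hy : hcJ f hf01 p ∈ Set.range (hcJ f hf01) := ⟨p, rfl⟩
  rw [dif_pos hy]
  congr 2
  exact hinj hy.choose_spec

theorem hcG_out (h : O → O) (y : hcY f hf01) (hy : y ∉ Set.range (hcJ f hf01)) :
    hcG f hf01 h y = y := by
  unfold hcG
  rw [dif_neg hy]

theorem hcG_continuous (hf : ∀ i, UniformContinuous (f i)) [WeaklyLocallyCompactSpace O]
    (h : O ≃ₜ O) (hh : ∀ i, Tendsto (fun p => f i (h p) - f i p) (cocompact O) (𝓝 0)) :
    Continuous (hcG f hf01 h) := by
  have hj := hc_openEmbedding f hf01 hf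
  have hinj := hj.injective
  rw [continuous_iff_continuousAt]
  intro y
  have hcomp : hcG f hf01 h ∘ hcJ f hf01 = fun p => hcJ f hf01 (h p) := by
    funext p
    exact hcG_j f hf01 hinj h p
  by_cases hy : y ∈ Set.range (hcJ f hf01)
  · obtain ⟨p, rfl⟩ := hy
    unfold ContinuousAt
    rw [← hj.map_nhds_eq, tendsto_map'_iff, hcomp, hcG_j f hf01 hinj]
    exact ((hcJ_continuous f hf01 hf).comp h.continuous).tendsto p
  · unfold ContinuousAt
    rw [hcG_out f hf01 h y hy]
    have hsplit : 𝓝 y = 𝓝[Set.range (hcJ f hf01)] y ⊔ 𝓝[(Set.range (hcJ f hf01))ᶜ] y := by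
      rw [← nhdsWithin_union, Set.union_compl_self, nhdsWithin_univ]
    rw [show Tendsto (hcG f hf01 h) (𝓝 y) (𝓝 y) ↔
      Tendsto (hcG f hf01 h) (𝓝[Set.range (hcJ f hf01)] y ⊔ 𝓝[(Set.range (hcJ f hf01))ᶜ] y) (𝓝 y)
      by rw [← hsplit]]
    refine Tendsto.sup ?_ ?_
    · have e : 𝓝[Set.range (hcJ f hf01)] y = map (hcJ f hf01) (comap (hcJ f hf01) (𝓝 y)) := by
        rw [Filter.map_comap]
        rfl
      rw [e, tendsto_map'_iff, hcomp]
      have hV : Tendsto (hcJ f hf01) (comap (hcJ f hf01) (𝓝 y)) (𝓝 y) := tendsto_comap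
      have h2 : Continuous fun y : hcY f hf01 => y.1.1 :=
        continuous_fst.comp continuous_subtype_val
      have hinf : y.1.1 = OnePoint.infty := by
        rw [hc_range f hf01 hf, not_not] at hy
        exact hy
      have h3 : Tendsto (fun p : O => (p : OnePoint O)) (comap (hcJ f hf01) (𝓝 y))
          (𝓝 OnePoint.infty) := by
        have h4 := (h2.tendsto y).comp hV
        rw [hinf] at h4
        exact h4
      have hco : comap (hcJ f hf01) (𝓝 y) ≤ cocompact O := by
        have h5 := tendsto_iff_comap.1 h3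
        rw [OnePoint.comap_coe_nhds_infty, coclosedCompact_eq_cocompact] at h5
        exact h5
      have hhco : Tendsto h (comap (hcJ f hf01) (𝓝 y)) (cocompact O) :=
        (h.isClosedEmbedding.tendsto_cocompact).mono_left hco
      have h6 : Tendsto (fun p : O => ((h p : O) : OnePoint O)) (comap (hcJ f hf01) (𝓝 y))
          (𝓝 y.1.1) := by
        rw [hinf]
        have h7 : Tendsto (fun p : O => (p : OnePoint O)) (cocompact O) (𝓝 OnePoint.infty) := by
          rw [tendsto_iff_comap, OnePoint.comap_coe_nhds_infty, coclosedCompact_eq_cocompact]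
        exact h7.comp hhco
      rw [tendsto_subtype_rng]
      refine Tendsto.prodMk_nhds h6 (tendsto_pi_nhds.2 fun i => ?_)
      rw [tendsto_subtype_rng]
      have h8 : Tendsto (fun p => f i p) (comap (hcJ f hf01) (𝓝 y))
          (𝓝 ((y.1.2 i : Set.Icc (0:ℝ) 1) : ℝ)) := ((hc_coord f hf01 i).tendsto y).comp hV
      have h9 := ((hh i).mono_left hco).add h8
      rw [zero_add] at h9
      refine h9.congr fun p => ?_
      change f i (h p) - f i p + f i p = f i (h p)
      ring
    · refine (tendsto_id.mono_left nhdsWithin_le_nhds).congr' ?_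
      filter_upwards [self_mem_nhdsWithin] with z hz
      exact (hcG_out f hf01 h z hz).symm

end Aux

theorem compactify {O : Type} [MetricSpace O] [WeaklyLocallyCompactSpace O] [Nonempty O]
    (hchain : ∀ δ > 0, ∀ p q : O, CC δ p q) {I : Type} (f : I → O → ℝ)
    (hf01 : ∀ i p, f i p ∈ Set.Icc (0 : ℝ) 1) (hf : ∀ i, UniformContinuous (f i)) :
    ∃ (Y : Type) (_ : TopologicalSpace Y) (_ : CompactSpace Y) (_ : T2Space Y)
      (_ : ConnectedSpace Y) (j : O → Y) (F : I → C(Y, ℝ)), IsOpenEmbedding j ∧ DenseRange j ∧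
      (∀ i p, F i (j p) = f i p) ∧
      (∀ y y', y ∉ Set.range j → y' ∉ Set.range j → (∀ i, F i y = F i y') → y = y') ∧
      ∀ h : O ≃ₜ O, (∀ i, Tendsto (fun p => f i (h p) - f i p) (cocompact O) (𝓝 0)) →
        ∃ g : Y ≃ₜ Y, (∀ p, g (j p) = j (h p)) ∧ ∀ y, y ∉ Set.range j → g y = y := by
  have hj := hc_openEmbedding f hf01 hf
  have hinj := hj.injective
  refine ⟨hcY f hf01, inferInstance, hc_compact f hf01, inferInstance,
    hc_connected f hf01 hf hchain, hcJ f hf01, fun i => ⟨_, hc_coord f hf01 i⟩, hj,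
    hc_denseRange f hf01, fun i p => rfl, fun y y' hy hy' h => hc_sep f hf01 hf y y' hy hy' h, ?_⟩
  intro h hh
  have hh' : ∀ i, Tendsto (fun p => f i (h.symm p) - f i p) (cocompact O) (𝓝 0) := by
    intro i
    have h1 := ((hh i).comp h.symm.isClosedEmbedding.tendsto_cocompact).neg
    rw [neg_zero] at h1
    refine h1.congr fun p => ?_
    simp only [Function.comp_apply, Homeomorph.apply_symm_apply]
    ring
  have inv : ∀ (h h' : O ≃ₜ O), (∀ p, h' (h p) = p) → ∀ y,
      hcG f hf01 h' (hcG f hf01 h y) = y := by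
    intro h h' hhh y
    by_cases hy : y ∈ Set.range (hcJ f hf01)
    · obtain ⟨p, rfl⟩ := hy
      rw [hcG_j f hf01 hinj, hcG_j f hf01 hinj, hhh]
    · rw [hcG_out f hf01 h y hy, hcG_out f hf01 h' y hy]
  refine ⟨⟨⟨hcG f hf01 h, hcG f hf01 h.symm, inv h h.symm h.symm_apply_apply,
    inv h.symm h h.apply_symm_apply⟩, hcG_continuous f hf01 hf h hh,
    hcG_continuous f hf01 hf h.symm hh'⟩, fun p => hcG_j f hf01 hinj h p,
    fun y hy => hcG_out f hf01 h y hy⟩


end Pool.Agent.Helper499.HC
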