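import Pool.Agent.Helper499.HC.Defs
import Pool.Agent.Helper499.HC.P01
import Pool.Agent.Helper499.HC.P03

set_option autoImplicit false

namespace Pool.Agent.Helper499.HC

open Relation Filter Topology Set





/-- indicator-like uniformly continuous functions -/
theorem exists_f {O : Type} [MetricSpace O] {I : Type} (A S : I → Set O)
    (hA : ∀ i, ∃ δ > 0, ∀ p q, dist p q < δ → p ∉ S i → (p ∈ A i ↔ q ∈ A i)) :
    ∃ f : I → O → ℝ, (∀ i p, f i p ∈ Set.Icc (0 : ℝ) 1) ∧ (∀ i, UniformContinuous (f i)) ∧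
      (∀ i p, p ∈ A i → f i p = 1) ∧ (∀ i p, p ∉ S i → p ∉ A i → f i p = 0) := by
  choose δ hδ hδA using hA
  refine ⟨fun i p => ((thickenedIndicator (hδ i) (A i) p : NNReal) : ℝ), fun i p => ⟨?_, ?_⟩,
    fun i => ?_, fun i p hp => ?_, fun i p hpS hpA => ?_⟩
  · exact NNReal.coe_nonneg _
  · exact_mod_cast thickenedIndicator_le_one (hδ i) (A i) p
  · exact uniformContinuous_subtype_val.comp
      (lipschitzWith_thickenedIndicator (hδ i) (A i)).uniformContinuous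
  · simp [thickenedIndicator_one (hδ i) (A i) hp]
  · have : p ∉ Metric.thickening (δ i) (A i) := by
      intro hmem
      obtain ⟨q, hq, hd⟩ := Metric.mem_thickening_iff.1 hmem
      exact hpA ((hδA i p q hd hpS).2 hq)
    simp [thickenedIndicator_zero (hδ i) (A i) this]

section
variable {O : Type} [MetricSpace O] {I : Type} {A S : I → Set O} {f : I → O → ℝ}
  {Y : Type} [TopologicalSpace Y] [CompactSpace Y] [T2Space Y] {j : O → Y} {F : I → C(Y, ℝ)}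

theorem L1 (hS : ∀ i, ∃ K, IsCompact K ∧ S i ⊆ K)
    (f1 : ∀ i p, p ∈ A i → f i p = 1) (f0 : ∀ i p, p ∉ S i → p ∉ A i → f i p = 0)
    (hj : IsOpenEmbedding j) (hd : DenseRange j) (hF : ∀ i p, F i (j p) = f i p)
    {e : Y} (he : e ∉ Set.range j) (i : I) : F i e = 0 ∨ F i e = 1 := by
  by_contra hcon
  push Not at hcon
  obtain ⟨K, hK, hSK⟩ := hS i
  have hU : IsOpen ({y | F i y ≠ 0} ∩ {y | F i y ≠ 1} ∩ (j '' K)ᶜ) :=
    ((isOpen_ne_fun (F i).continuous continuous_const).inter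
      (isOpen_ne_fun (F i).continuous continuous_const)).inter
      (hK.image hj.continuous).isClosed.isOpen_compl
  have hne : ({y | F i y ≠ 0} ∩ {y | F i y ≠ 1} ∩ (j '' K)ᶜ).Nonempty :=
    ⟨e, ⟨hcon.1, hcon.2⟩, fun h => he (Set.image_subset_range _ _ h)⟩
  obtain ⟨p, hp⟩ := hd.exists_mem_open hU hne
  obtain ⟨⟨h0, h1⟩, hpK⟩ := hp
  have hpS : p ∉ S i := fun h => hpK ⟨p, hSK h, rfl⟩
  simp only [Set.mem_setOf_eq, hF] at h0 h1
  by_cases hpA : p ∈ A i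
  · exact h1 (f1 i p hpA)
  · exact h0 (f0 i p hpS hpA)

theorem L2 (hS : ∀ i, ∃ K, IsCompact K ∧ S i ⊆ K)
    (f1 : ∀ i p, p ∈ A i → f i p = 1) (f0 : ∀ i p, p ∉ S i → p ∉ A i → f i p = 0)
    (hj : IsOpenEmbedding j) (hd : DenseRange j) (hF : ∀ i p, F i (j p) = f i p)
    {e : Y} (he : e ∉ Set.range j) (J : Finset I) (K : Set O) (hK : IsCompact K) :
    ∃ p, p ∉ K ∧ ∀ i ∈ J, (p ∈ A i ↔ F i e = 1) := by
  choose KS hKS hSKS using hS
  have hK2 : IsCompact (K ∪ ⋃ i ∈ J, KS i) := hK.union (J.isCompact_biUnion fun i _ => hKS i)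
  have hU : IsOpen ((⋂ i ∈ J, {y | dist (F i y) (F i e) < 1 / 2}) ∩ (j '' (K ∪ ⋃ i ∈ J, KS i))ᶜ) := by
    refine IsOpen.inter ?_ (hK2.image hj.continuous).isClosed.isOpen_compl
    refine isOpen_biInter_finset fun i _ => ?_
    exact isOpen_lt ((F i).continuous.dist continuous_const) continuous_const
  have hne : ((⋂ i ∈ J, {y | dist (F i y) (F i e) < 1 / 2}) ∩
      (j '' (K ∪ ⋃ i ∈ J, KS i))ᶜ).Nonempty := by
    refine ⟨e, ?_, fun h => he (Set.image_subset_range _ _ h)⟩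
    simp
  obtain ⟨p, hp⟩ := hd.exists_mem_open hU hne
  obtain ⟨h1, h2⟩ := hp
  have hpK : p ∉ K ∪ ⋃ i ∈ J, KS i := fun h => h2 ⟨p, h, rfl⟩
  simp only [Set.mem_union, Set.mem_iUnion, not_or, not_exists] at hpK
  refine ⟨p, hpK.1, fun i hi => ?_⟩
  have hpS : p ∉ S i := fun h => hpK.2 i hi (hSKS i h)
  have hdist : dist (F i (j p)) (F i e) < 1 / 2 := by
    simp only [Set.mem_iInter, Set.mem_setOf_eq] at h1
    exact h1 i hi
  rw [hF, Real.dist_eq] at hdist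
  have hS' : ∀ i, ∃ K, IsCompact K ∧ S i ⊆ K := fun i => ⟨KS i, hKS i, hSKS i⟩
  constructor
  · intro hpA
    rw [f1 i p hpA] at hdist
    rcases L1 hS' f1 f0 hj hd hF he i with h | h
    · rw [h] at hdist; norm_num at hdist
    · exact h
  · intro hFe
    by_contra hpA
    rw [f0 i p hpS hpA, hFe] at hdist
    norm_num at hdist

theorem L3 (hS : ∀ i, ∃ K, IsCompact K ∧ S i ⊆ K)
    (f1 : ∀ i p, p ∈ A i → f i p = 1) (f0 : ∀ i p, p ∉ S i → p ∉ A i → f i p = 0)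
    (hj : IsOpenEmbedding j) (hF : ∀ i p, F i (j p) = f i p)
    (i : I) (hu : ∀ K, IsCompact K → ¬ A i ⊆ K) :
    ∃ e, e ∉ Set.range j ∧ F i e = 1 ∧ ∀ i', Disjoint (A i') (A i) → F i' e = 0 := by
  have hex : ∃ e ∈ closure (j '' A i), e ∉ Set.range j := by
    by_contra hcon
    push Not at hcon
    have hc : IsCompact (j ⁻¹' closure (j '' A i)) :=
      hj.isInducing.isCompact_preimage' isClosed_closure.isCompact hcon
    exact hu _ hc fun p hp => subset_closure ⟨p, hp, rfl⟩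
  obtain ⟨e, hecl, he⟩ := hex
  refine ⟨e, he, ?_, fun i' hdis => ?_⟩
  · have hcl : IsClosed {y | F i y = 1} := isClosed_eq (F i).continuous continuous_const
    refine closure_minimal ?_ hcl hecl
    rintro _ ⟨p, hp, rfl⟩
    simp only [Set.mem_setOf_eq, hF]
    exact f1 i p hp
  · obtain ⟨K, hK, hSK⟩ := hS i'
    have hcl : IsClosed ({y | F i' y = 0} ∪ j '' K) :=
      (isClosed_eq (F i').continuous continuous_const).union (hK.image hj.continuous).isClosed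
    have : e ∈ {y | F i' y = 0} ∪ j '' K := by
      refine closure_minimal ?_ hcl hecl
      rintro _ ⟨p, hp, rfl⟩
      by_cases hpK : p ∈ K
      · exact Or.inr ⟨p, hpK, rfl⟩
      · left
        simp only [Set.mem_setOf_eq, hF]
        exact f0 i' p (fun h => hpK (hSK h)) (fun h => Set.disjoint_left.1 hdis h hp)
    rcases this with h | h
    · exact h
    · exact absurd (Set.image_subset_range _ _ h) he

theorem L4 (hS : ∀ i, ∃ K, IsCompact K ∧ S i ⊆ K)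
    (f1 : ∀ i p, p ∈ A i → f i p = 1) (f0 : ∀ i p, p ∉ S i → p ∉ A i → f i p = 0)
    (hj : IsOpenEmbedding j) (hd : DenseRange j) (hF : ∀ i p, F i (j p) = f i p)
    (hsep : ∀ i, ∃ M, IsCompact M ∧ ∀ ε > 0, ∃ J : Finset I,
      (∀ j ∈ J, (∀ p ∈ S j, ∀ q ∈ S j, dist p q < ε) ∧ (S j ∩ M).Nonempty) ∧
      ∃ K, IsCompact K ∧ ∀ p q, p ∉ K → q ∉ K → p ∈ A i → q ∉ A i → ∃ j ∈ J, ¬ (p ∈ A j ↔ q ∈ A j))
    {e e' : Y} (he : e ∉ Set.range j) (he' : e' ∉ Set.range j) (i : I) (h1 : F i e = 1)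
    (h0 : F i e' = 0) :
    ∃ m ∈ Set.range j, ∀ Z : Set Y, IsClosed Z → IsConnected Z → e ∈ Z → e' ∈ Z → m ∈ Z := by
  classical
  obtain ⟨M, hM, hMs⟩ := hsep i
  have key : ∀ n : ℕ, ∃ (i' : I) (m : O), (∀ p ∈ S i', ∀ q ∈ S i', dist p q < 1 / ((n : ℝ) + 1)) ∧
      m ∈ S i' ∧ m ∈ M ∧ F i' e ≠ F i' e' := by
    intro n
    obtain ⟨J, hJ, K, hK, hsepJ⟩ := hMs (1 / ((n : ℝ) + 1)) (by positivity)
    obtain ⟨p, hpK, hp⟩ := L2 hS f1 f0 hj hd hF he (insert i J) K hK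
    obtain ⟨q, hqK, hq⟩ := L2 hS f1 f0 hj hd hF he' (insert i J) K hK
    have hpA : p ∈ A i := (hp i (Finset.mem_insert_self _ _)).2 h1
    have hqA : q ∉ A i := fun h => by
      have := (hq i (Finset.mem_insert_self _ _)).1 h
      rw [h0] at this; norm_num at this
    obtain ⟨i', hi', hne⟩ := hsepJ p q hpK hqK hpA hqA
    obtain ⟨hdiam, m, hmS, hmM⟩ := hJ i' hi'
    refine ⟨i', m, hdiam, hmS, hmM, fun heq => hne ?_⟩
    rw [hp i' (Finset.mem_insert_of_mem hi'), hq i' (Finset.mem_insert_of_mem hi'), heq]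
  choose ix m hdiam hmS hmM hneF using key
  obtain ⟨m0, hm0, φ, hφ, hlim⟩ := hM.tendsto_subseq hmM
  refine ⟨j m0, ⟨m0, rfl⟩, fun Z hZc hZ heZ he'Z => ?_⟩
  have hz : ∀ n, ∃ z ∈ S (ix n), j z ∈ Z := by
    intro n
    by_contra hcon
    push Not at hcon
    have hval : ∀ y ∈ Z, F (ix n) y = 0 ∨ F (ix n) y = 1 := by
      intro y hy
      by_cases hyr : y ∈ Set.range j
      · obtain ⟨p, rfl⟩ := hyr
        have hpS : p ∉ S (ix n) := fun h => hcon p h hy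
        rw [hF]
        by_cases hpA : p ∈ A (ix n)
        · exact Or.inr (f1 _ _ hpA)
        · exact Or.inl (f0 _ _ hpS hpA)
      · exact L1 hS f1 f0 hj hd hF hyr _
    have hhalf : ∃ y ∈ Z, F (ix n) y = 1 / 2 := by
      rcases hval e heZ with ha | ha <;> rcases hval e' he'Z with hb | hb
      · exact absurd (ha.trans hb.symm) (hneF n)
      · have := hZ.isPreconnected.intermediate_value heZ he'Z (F (ix n)).continuous.continuousOn
        rw [ha, hb] at this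
        obtain ⟨y, hy, hyv⟩ := this (⟨by norm_num, by norm_num⟩ : (1 / 2 : ℝ) ∈ Set.Icc (0 : ℝ) 1)
        exact ⟨y, hy, hyv⟩
      · have := hZ.isPreconnected.intermediate_value he'Z heZ (F (ix n)).continuous.continuousOn
        rw [ha, hb] at this
        obtain ⟨y, hy, hyv⟩ := this (⟨by norm_num, by norm_num⟩ : (1 / 2 : ℝ) ∈ Set.Icc (0 : ℝ) 1)
        exact ⟨y, hy, hyv⟩
      · exact absurd (ha.trans hb.symm) (hneF n)
    obtain ⟨y, hy, hyv⟩ := hhalf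
    rcases hval y hy with h | h <;> rw [hyv] at h <;> norm_num at h
  choose z hzS hzZ using hz
  have hzm : Tendsto (fun n => z (φ n)) atTop (𝓝 m0) := by
    rw [tendsto_iff_dist_tendsto_zero]
    have hb : Tendsto (fun n => 1 / ((φ n : ℝ) + 1) + dist (m (φ n)) m0) atTop (𝓝 (0 + 0)) := by
      refine Tendsto.add ?_ (tendsto_iff_dist_tendsto_zero.1 hlim)
      exact tendsto_one_div_add_atTop_nhds_zero_nat.comp hφ.tendsto_atTop
    rw [add_zero] at hb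
    refine squeeze_zero (fun _ => dist_nonneg) (fun n => ?_) hb
    calc dist (z (φ n)) m0 ≤ dist (z (φ n)) (m (φ n)) + dist (m (φ n)) m0 := dist_triangle _ _ _
      _ ≤ _ := by
        have := hdiam (φ n) (z (φ n)) (hzS _) (m (φ n)) (hmS _)
        linarith
  exact hZc.mem_of_tendsto ((hj.continuous.tendsto m0).comp hzm)
    (Filter.Eventually.of_forall fun n => hzZ _)

end

theorem top_false {O : Type} [MetricSpace O] [WeaklyLocallyCompactSpace O] [Nonempty O]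
    (hchain : ∀ δ > 0, ∀ p q : O, CC δ p q)
    (H : Set (O ≃ₜ O)) (htrans : ∀ p q : O, ∃ h ∈ H, h p = q)
    {I : Type} (A S : I → Set O)
    (hS : ∀ i, ∃ K, IsCompact K ∧ S i ⊆ K)
    (hA : ∀ i, ∃ δ > 0, ∀ p q, dist p q < δ → p ∉ S i → (p ∈ A i ↔ q ∈ A i))
    (hH : ∀ h ∈ H, ∀ i, ∃ K, IsCompact K ∧ ∀ p, p ∉ K → (h p ∈ A i ↔ p ∈ A i))
    (hsep : ∀ i, ∃ M, IsCompact M ∧ ∀ ε > 0, ∃ J : Finset I,
      (∀ j ∈ J, (∀ p ∈ S j, ∀ q ∈ S j, dist p q < ε) ∧ (S j ∩ M).Nonempty) ∧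
      ∃ K, IsCompact K ∧ ∀ p q, p ∉ K → q ∉ K → p ∈ A i → q ∉ A i → ∃ j ∈ J, ¬ (p ∈ A j ↔ q ∈ A j))
    (i₁ i₂ i₃ : I) (d12 : Disjoint (A i₁) (A i₂)) (d13 : Disjoint (A i₁) (A i₃))
    (d23 : Disjoint (A i₂) (A i₃))
    (u1 : ∀ K, IsCompact K → ¬ A i₁ ⊆ K) (u2 : ∀ K, IsCompact K → ¬ A i₂ ⊆ K)
    (u3 : ∀ K, IsCompact K → ¬ A i₃ ⊆ K) : False := by
  obtain ⟨f, hf01, hfu, f1, f0⟩ := exists_f A S hA
  obtain ⟨Y, tY, cY, t2Y, conY, j, F, hj, hd, hF, hsepY, hext⟩ := compactify hchain f hf01 hfu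
  have hlim : ∀ h ∈ H, ∀ i, Tendsto (fun p => f i (h p) - f i p) (cocompact O) (𝓝 0) := by
    intro h hh i
    obtain ⟨K1, hK1, hK1'⟩ := hH h hh i
    obtain ⟨K2, hK2, hK2'⟩ := hS i
    have hK3 : IsCompact (h ⁻¹' K2) := h.isCompact_preimage.2 hK2
    refine Tendsto.congr' ?_ tendsto_const_nhds
    have hmem : (K1 ∪ K2 ∪ h ⁻¹' K2)ᶜ ∈ cocompact O := ((hK1.union hK2).union hK3).compl_mem_cocompact
    filter_upwards [hmem] with p hp
    simp only [Set.mem_compl_iff, Set.mem_union, Set.mem_preimage, not_or] at hp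
    obtain ⟨⟨hp1, hp2⟩, hp3⟩ := hp
    have hiff := hK1' p hp1
    have hpS : p ∉ S i := fun hx => hp2 (hK2' hx)
    have hhpS : h p ∉ S i := fun hx => hp3 (hK2' hx)
    by_cases hpA : p ∈ A i
    · rw [f1 i p hpA, f1 i (h p) (hiff.2 hpA)]; simp
    · rw [f0 i p hpS hpA, f0 i (h p) hhpS (fun hx => hpA (hiff.1 hx))]; simp
  obtain ⟨e1, he1, he11, he10⟩ := L3 hS f1 f0 hj hF i₁ u1
  obtain ⟨e2, he2, he21, he20⟩ := L3 hS f1 f0 hj hF i₂ u2
  obtain ⟨e3, he3, he31, he30⟩ := L3 hS f1 f0 hj hF i₃ u3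
  refine continuum_final (Set.range j) hj.isOpen_range hd
    {g : Y ≃ₜ Y | (∃ h ∈ H, ∀ p, g (j p) = j (h p)) ∧ ∀ y, y ∉ Set.range j → g y = y}
    (fun g hg => hg.2) ?_ e1 e2 e3 he1 he2 he3 ?_ ?_ ?_ ?_
  · rintro _ ⟨p, rfl⟩ _ ⟨q, rfl⟩
    obtain ⟨h, hh, hpq⟩ := htrans p q
    obtain ⟨g, hg1, hg2⟩ := hext h (hlim h hh)
    exact ⟨g, ⟨⟨h, hh, hg1⟩, hg2⟩, by rw [hg1, hpq]⟩
  · intro h
    rw [h] at he11
    rw [he20 i₁ d12] at he11
    norm_num at he11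
  · intro h
    rw [h] at he11
    rw [he30 i₁ d13] at he11
    norm_num at he11
  · intro h
    rw [h] at he21
    rw [he30 i₂ d23] at he21
    norm_num at he21
  · intro e e' he he' hne
    have : ∃ i, F i e ≠ F i e' := by
      by_contra hcon
      push Not at hcon
      exact hne (hsepY e e' he he' hcon)
    obtain ⟨i, hi⟩ := this
    rcases L1 hS f1 f0 hj hd hF he i with ha | ha <;>
      rcases L1 hS f1 f0 hj hd hF he' i with hb | hb
    · exact absurd (ha.trans hb.symm) hi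
    · obtain ⟨m, hm, hmZ⟩ := L4 hS f1 f0 hj hd hF hsep he' he i hb ha
      exact ⟨m, hm, fun Z h1 h2 h3 h4 => hmZ Z h1 h2 h4 h3⟩
    · exact L4 hS f1 f0 hj hd hF hsep he he' i ha hb
    · exact absurd (ha.trans hb.symm) hi


end Pool.Agent.Helper499.HC
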