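import Pool.Agent.Helper499.HC.Defs
import Pool.Agent.Helper499.HC.T01

set_option autoImplicit false

namespace Pool.Agent.Helper499.HC

open Relation


open Filter Topology Set

section T
variable {α : Type} [DecidableEq α]







theorem hd_mk (L : List (α × Bool)) (h : FreeGroup.IsReduced L) :
    hd (FreeGroup.mk L) = L.head? := by
  unfold hd
  rw [FreeGroup.toWord_mk, h.reduce_eq]

theorem hd_mk_inv (L : List (α × Bool)) (h : FreeGroup.IsReduced L) :
    hd (FreeGroup.mk L)⁻¹ = L.getLast?.map flip := by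
  unfold hd
  rw [FreeGroup.toWord_inv, FreeGroup.toWord_mk, h.reduce_eq, FreeGroup.invRev, List.head?_reverse,
    List.getLast?_map]
  rfl

theorem geodesic (g g' : FreeGroup α) : ∃ (ℓ : ℕ) (w : ℕ → FreeGroup α), w 0 = g ∧ w ℓ = g' ∧
    (∀ i < ℓ, ((w i)⁻¹ * w (i + 1)).norm ≤ 1) ∧
    ∀ i, 0 < i → i < ℓ → hd ((w i)⁻¹ * g) ≠ hd ((w i)⁻¹ * g') := by
  set L := (g⁻¹ * g').toWord with hL
  have hred : FreeGroup.IsReduced L := FreeGroup.isReduced_toWord
  have hmk : FreeGroup.mk L = g⁻¹ * g' := FreeGroup.mk_toWord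
  refine ⟨L.length, fun i => g * FreeGroup.mk (L.take i), ?_, ?_, ?_, ?_⟩
  · simp only [List.take_zero, ← FreeGroup.one_eq_mk, mul_one]
  · simp only [List.take_length, hmk, mul_inv_cancel_left]
  · intro i hi
    have h1 : L.take (i + 1) = L.take i ++ [L[i]] := List.take_succ_eq_append_getElem hi
    have h2 : (g * FreeGroup.mk (L.take i))⁻¹ * (g * FreeGroup.mk (L.take (i + 1)))
        = FreeGroup.mk [L[i]] := by
      rw [h1, ← FreeGroup.mul_mk]
      group
    simp only
    rw [h2]
    exact FreeGroup.norm_mk_le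
  · intro i hi hil
    have h1 : (g * FreeGroup.mk (L.take i))⁻¹ * g = (FreeGroup.mk (L.take i))⁻¹ := by group
    have h2 : (g * FreeGroup.mk (L.take i))⁻¹ * g' = FreeGroup.mk (L.drop i) := by
      have h3 : g' = g * (FreeGroup.mk (L.take i) * FreeGroup.mk (L.drop i)) := by
        rw [FreeGroup.mul_mk, List.take_append_drop, hmk, mul_inv_cancel_left]
      conv_lhs => rw [h3]
      group
    have hred1 : FreeGroup.IsReduced (L.take i) :=
      List.IsChain.take hred i
    have hred2 : FreeGroup.IsReduced (L.drop i) :=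
      List.IsChain.drop hred i
    simp only
    rw [h1, h2, hd_mk_inv _ hred1, hd_mk _ hred2]
    obtain ⟨k, rfl⟩ : ∃ k, i = k + 1 := ⟨i - 1, by omega⟩
    have hk : k < L.length := by omega
    rw [List.take_succ_eq_append_getElem hk, List.getLast?_append, List.getLast?_singleton,
      List.head?_drop, List.getElem?_eq_getElem hil]
    simp only [Option.some_or, Option.map_some, ne_eq, Option.some.injEq]
    intro hcon
    have hch : L.IsChain (fun a b => a.1 = b.1 → a.2 = b.2) := hred
    have h5 := (List.isChain_iff_getElem.1 hch) k hil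
    rw [← hcon] at h5
    have h6 := h5 rfl
    simp [flip] at h6

end T

end Pool.Agent.Helper499.HC
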