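import Pool.Agent.Helper499.HC.Defs
import Pool.Agent.Helper499.HC.P04
import Pool.Agent.Helper499.HC.T01
import Pool.Agent.Helper499.HC.T06

set_option autoImplicit false

namespace Pool.Agent.Helper499.HC

open Relation


open Filter Topology Set

section T
variable {α : Type} [DecidableEq α]







end T

section T2


end T2

section T3


theorem norm_ball_fin' {α : Type} [DecidableEq α] [Finite α] (u : FreeGroup α) (n : ℕ) :
    {g : FreeGroup α | (u⁻¹ * g).norm ≤ n}.Finite := by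
  have h1 := (norm_ball_finite (α := α) n).image (fun g => u * g)
  refine h1.subset ?_
  intro g hg
  exact ⟨u⁻¹ * g, hg, by simp⟩

theorem norm_ball_fin'' {α : Type} [DecidableEq α] [Finite α] (g : FreeGroup α) (n : ℕ) :
    {u : FreeGroup α | (u⁻¹ * g).norm ≤ n}.Finite := by
  refine (norm_ball_fin' g n).subset ?_
  intro u hu
  have h1 : g⁻¹ * u = (u⁻¹ * g)⁻¹ := by group
  show (g⁻¹ * u).norm ≤ n
  rw [h1, FreeGroup.norm_inv_eq]
  exact hu

theorem hd_eq_of {α : Type} [DecidableEq α] (u a b : FreeGroup α) (C : ℕ)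
    (h1 : (a⁻¹ * b).norm ≤ C) (h2 : ¬ (u⁻¹ * a).norm ≤ C) : hd (u⁻¹ * b) = hd (u⁻¹ * a) := by
  have e : u⁻¹ * b = (u⁻¹ * a) * (a⁻¹ * b) := by group
  rw [e]
  exact hd_mul _ _ (by omega)

theorem pass {O : Type} (R : O → O → Prop) (P : O → Prop) (S : Set O) {p q : O}
    (h : ReflTransGen R p q) (h1 : ∀ a b, R a b → a ∉ S → (P a ↔ P b)) (h2 : ¬ (P p ↔ P q)) :
    ∃ r, r ∈ S := by
  by_contra hc
  push Not at hc
  apply h2
  induction h with
  | refl => exact Iff.rfl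
  | tail _ hbc ih =>
    exact (Classical.byContradiction fun hp => hp (ih hp)).trans (h1 _ _ hbc (hc _))

theorem fin_img {O : Type} [MetricSpace O] {α : Type} [DecidableEq α] [Finite α]
    (τ : O → FreeGroup α) (hP1 : ∃ δ > 0, ∀ p q, dist p q < δ → ((τ p)⁻¹ * τ q).norm ≤ 2)
    {K : Set O} (hK : IsCompact K) : (τ '' K).Finite := by
  obtain ⟨δ, hδ, h1⟩ := hP1
  obtain ⟨t, _, htf, hts⟩ := hK.finite_cover_balls hδ
  have h2 : (⋃ x ∈ t, {g : FreeGroup α | ((τ x)⁻¹ * g).norm ≤ 2}).Finite :=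
    htf.biUnion fun x _ => norm_ball_fin' _ 2
  refine h2.subset ?_
  rintro _ ⟨p, hp, rfl⟩
  obtain ⟨x, hx, hpx⟩ := Set.mem_iUnion₂.1 (hts hp)
  refine Set.mem_iUnion₂.2 ⟨x, hx, ?_⟩
  exact h1 x p (by rw [dist_comm]; exact hpx)

theorem tree_false {O : Type} [MetricSpace O] [WeaklyLocallyCompactSpace O] [Nonempty O]
    (hchain : ∀ δ > 0, ∀ p q : O, CC δ p q)
    (H : Set (O ≃ₜ O)) (htrans : ∀ p q : O, ∃ h ∈ H, h p = q)
    (α : ℕ → Type) [∀ n, Finite (α n)] [∀ n, DecidableEq (α n)]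
    (τ : ∀ n, O → FreeGroup (α n))
    (hP0 : ∀ n (A : Set (FreeGroup (α n))), A.Finite → ∃ K, IsCompact K ∧ (τ n) ⁻¹' A ⊆ K)
    (hP1 : ∀ n, ∃ δ > 0, ∀ p q, dist p q < δ → ((τ n p)⁻¹ * τ n q).norm ≤ 2)
    (hP2 : ∀ ε > 0, ∃ N, ∀ n ≥ N, ∀ p q, ((τ n p)⁻¹ * τ n q).norm ≤ 5 → dist p q < ε)
    (hP3 : ∀ n, ∀ h ∈ H, ∃ C : ℕ, ∀ p, ((τ n p)⁻¹ * τ n (h p)).norm ≤ C)
    (hP4 : ∃ (v : FreeGroup (α 0)) (t₁ t₂ t₃ : α 0 × Bool), t₁ ≠ t₂ ∧ t₁ ≠ t₃ ∧ t₂ ≠ t₃ ∧
      {g | g ∈ Set.range (τ 0) ∧ hd (v⁻¹ * g) = some t₁}.Infinite ∧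
      {g | g ∈ Set.range (τ 0) ∧ hd (v⁻¹ * g) = some t₂}.Infinite ∧
      {g | g ∈ Set.range (τ 0) ∧ hd (v⁻¹ * g) = some t₃}.Infinite) : False := by
  obtain ⟨v, t₁, t₂, t₃, h12, h13, h23, i1, i2, i3⟩ := hP4
  have hdisj : ∀ t t' : α 0 × Bool, t ≠ t' →
      Disjoint {p | hd (v⁻¹ * τ 0 p) = some t} {p | hd (v⁻¹ * τ 0 p) = some t'} := by
    intro t t' htt
    rw [Set.disjoint_left]
    intro p hp hp'
    have h1 : hd (v⁻¹ * τ 0 p) = some t := hp
    have h2 : hd (v⁻¹ * τ 0 p) = some t' := hp'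
    rw [h1] at h2
    exact htt (Option.some.inj h2)
  have hunb : ∀ t : α 0 × Bool, {g | g ∈ Set.range (τ 0) ∧ hd (v⁻¹ * g) = some t}.Infinite →
      ∀ K, IsCompact K → ¬ {p | hd (v⁻¹ * τ 0 p) = some t} ⊆ K := by
    intro t ht K hK hsub
    apply ht
    refine (fin_img (τ 0) (hP1 0) hK).subset ?_
    rintro g ⟨⟨p, rfl⟩, hg⟩
    exact ⟨p, hsub hg, rfl⟩
  refine top_false hchain H htrans
    (I := Σ n, FreeGroup (α n) × (α n × Bool))
    (A := fun i => {p | hd (i.2.1⁻¹ * τ i.1 p) = some i.2.2})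
    (S := fun i => {p | (i.2.1⁻¹ * τ i.1 p).norm ≤ 2}) ?_ ?_ ?_ ?_
    ⟨0, (v, t₁)⟩ ⟨0, (v, t₂)⟩ ⟨0, (v, t₃)⟩ (hdisj _ _ h12) (hdisj _ _ h13) (hdisj _ _ h23)
    (hunb _ i1) (hunb _ i2) (hunb _ i3)
  · rintro ⟨n, u, s⟩
    obtain ⟨K, hK, hs⟩ := hP0 n _ (norm_ball_fin' u 2)
    exact ⟨K, hK, hs⟩
  · rintro ⟨n, u, s⟩
    obtain ⟨δ, hδ, h1⟩ := hP1 n
    refine ⟨δ, hδ, fun p q hpq hp => ?_⟩
    have h2 := hd_eq_of u (τ n p) (τ n q) 2 (h1 p q hpq) hp
    show hd (u⁻¹ * τ n p) = some s ↔ hd (u⁻¹ * τ n q) = some s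
    rw [h2]
  · rintro h hh ⟨n, u, s⟩
    obtain ⟨C, hC⟩ := hP3 n h hh
    obtain ⟨K, hK, hs⟩ := hP0 n _ (norm_ball_fin' u C)
    refine ⟨K, hK, fun p hp => ?_⟩
    have h2 := hd_eq_of u (τ n p) (τ n (h p)) C (hC p) (fun h3 => hp (hs h3))
    show hd (u⁻¹ * τ n (h p)) = some s ↔ hd (u⁻¹ * τ n p) = some s
    rw [h2]
  · rintro ⟨n₀, u₀, s₀⟩
    obtain ⟨M, hM, hMs⟩ := hP0 n₀ _ (norm_ball_fin' u₀ 2)
    refine ⟨M, hM, fun ε hε => ?_⟩
    obtain ⟨δ₀, hδ₀, hd0⟩ := hP1 n₀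
    obtain ⟨n, hN⟩ := hP2 (min ε δ₀) (lt_min hε hδ₀)
    replace hN := hN n le_rfl
    -- the finite set of vertices
    have hTf : {u : FreeGroup (α n) | ∃ r ∈ M, (u⁻¹ * τ n r).norm ≤ 2}.Finite := by
      have h1 := fin_img (τ n) (hP1 n) hM
      have h2 : (⋃ g ∈ τ n '' M, {u : FreeGroup (α n) | (u⁻¹ * g).norm ≤ 2}).Finite :=
        h1.biUnion fun g _ => norm_ball_fin'' g 2
      refine h2.subset ?_
      rintro u ⟨r, hr, hur⟩
      exact Set.mem_iUnion₂.2 ⟨τ n r, ⟨r, hr, rfl⟩, hur⟩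
    have hJf : {i : Σ n, FreeGroup (α n) × (α n × Bool) |
        ∃ (u : FreeGroup (α n)) (s : α n × Bool), (∃ r ∈ M, (u⁻¹ * τ n r).norm ≤ 2) ∧
          i = ⟨n, (u, s)⟩}.Finite := by
      have h1 : ({u : FreeGroup (α n) | ∃ r ∈ M, (u⁻¹ * τ n r).norm ≤ 2} ×ˢ
        (Set.univ : Set (α n × Bool))).Finite := hTf.prod (Set.toFinite _)
      refine (h1.image (fun x => (⟨n, x⟩ : Σ n, FreeGroup (α n) × (α n × Bool)))).subset ?_
      rintro i ⟨u, s, hu, rfl⟩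
      exact ⟨(u, s), ⟨hu, Set.mem_univ _⟩, rfl⟩
    refine ⟨hJf.toFinset, ?_, ?_⟩
    · intro j hj
      rw [Set.Finite.mem_toFinset] at hj
      obtain ⟨u, s, ⟨r, hr, hur⟩, rfl⟩ := hj
      refine ⟨fun p hp q hq => ?_, ⟨r, hur, hr⟩⟩
      have h1 : ((τ n p)⁻¹ * τ n q).norm ≤ 5 := by
        have e : (τ n p)⁻¹ * τ n q = (u⁻¹ * τ n p)⁻¹ * (u⁻¹ * τ n q) := by group
        rw [e]
        have h2 := FreeGroup.norm_mul_le (u⁻¹ * τ n p)⁻¹ (u⁻¹ * τ n q)
        rw [FreeGroup.norm_inv_eq] at h2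
        have h3 : (u⁻¹ * τ n p).norm ≤ 2 := hp
        have h4 : (u⁻¹ * τ n q).norm ≤ 2 := hq
        omega
      exact (hN p q h1).trans_le (min_le_left _ _)
    · obtain ⟨K', hK', hKs⟩ := hP0 n _ hTf
      refine ⟨M ∪ K', hM.union hK', fun p q hp hq hpA hqA => ?_⟩
      have hpM : p ∉ M := fun h => hp (Or.inl h)
      have hpT : ¬ ∃ r ∈ M, ((τ n p)⁻¹ * τ n r).norm ≤ 2 := fun h => hp (Or.inr (hKs h))
      obtain ⟨ℓ, w, hw0, hwℓ, hw1, hw2⟩ := geodesic (τ n p) (τ n q)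
      obtain ⟨δn, hδn, hdn⟩ := hP1 n
      have hA : ∀ a b : O, ((τ n a)⁻¹ * τ n b).norm ≤ 5 → a ∉ M →
          (hd (u₀⁻¹ * τ n₀ a) = some s₀ ↔ hd (u₀⁻¹ * τ n₀ b) = some s₀) := by
        intro a b hab haM
        have h1 := (hN a b hab).trans_le (min_le_right _ _)
        have h2 := hd_eq_of u₀ (τ n₀ a) (τ n₀ b) 2 (hd0 a b h1) (fun h3 => haM (hMs h3))
        rw [h2]
      have hℓ : ℓ ≠ 0 := by
        rintro rfl
        have h1 : τ n p = τ n q := by rw [← hw0, ← hwℓ]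
        have h2 : ((τ n p)⁻¹ * τ n q).norm ≤ 5 := by
          rw [h1, inv_mul_cancel, FreeGroup.norm_one]; omega
        exact hqA ((hA p q h2 hpM).1 hpA)
      -- points near the geodesic
      have hr : ∀ k, k ≤ ℓ → ∃ r : O, ((w k)⁻¹ * τ n r).norm ≤ 2 ∧ (k = 0 → r = p) ∧
          (k = ℓ → r = q) := by
        intro k hk
        rcases Nat.eq_zero_or_pos k with h0 | h0
        · subst h0
          refine ⟨p, ?_, fun _ => rfl, fun h => absurd h.symm hℓ⟩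
          rw [hw0, inv_mul_cancel, FreeGroup.norm_one]; omega
        · rcases hk.eq_or_lt with h1 | h1
          · subst h1
            refine ⟨q, ?_, fun h => absurd h hℓ, fun _ => rfl⟩
            rw [hwℓ, inv_mul_cancel, FreeGroup.norm_one]; omega
          · have h2 := hw2 k h0 h1
            obtain ⟨r, hrS⟩ := pass (fun a b => dist a b < δn)
              (fun x => hd ((w k)⁻¹ * τ n x) = hd ((w k)⁻¹ * τ n p))
              {x | ((w k)⁻¹ * τ n x).norm ≤ 2} (hchain δn hδn p q)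
              (fun a b hab haS => by
                have h3 := hd_eq_of (w k) (τ n a) (τ n b) 2 (hdn a b hab) haS
                simp only [h3])
              (fun h3 => h2 (h3.1 rfl).symm)
            exact ⟨r, hrS, fun h => absurd h h0.ne', fun h => absurd h h1.ne⟩
      choose! r hr1 hr2 hr3 using hr
      have hr0 : r 0 = p := hr2 0 (Nat.zero_le _) rfl
      have hrℓ : r ℓ = q := hr3 ℓ le_rfl rfl
      have hstep : ∀ k < ℓ, ((τ n (r k))⁻¹ * τ n (r (k + 1))).norm ≤ 5 := by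
        intro k hk
        have e : (τ n (r k))⁻¹ * τ n (r (k + 1)) = ((w k)⁻¹ * τ n (r k))⁻¹ *
            ((w k)⁻¹ * w (k + 1)) * ((w (k + 1))⁻¹ * τ n (r (k + 1))) := by group
        rw [e]
        have h1 := FreeGroup.norm_mul_le (((w k)⁻¹ * τ n (r k))⁻¹ * ((w k)⁻¹ * w (k + 1)))
          ((w (k + 1))⁻¹ * τ n (r (k + 1)))
        have h2 := FreeGroup.norm_mul_le ((w k)⁻¹ * τ n (r k))⁻¹ ((w k)⁻¹ * w (k + 1))
        rw [FreeGroup.norm_inv_eq] at h2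
        have h3 := hr1 k hk.le
        have h4 := hr1 (k + 1) hk
        have h5 := hw1 k hk
        omega
      -- the crossing
      have hcross : ∃ k, k < ℓ ∧ hd (u₀⁻¹ * τ n₀ (r k)) = some s₀ ∧
          ¬ hd (u₀⁻¹ * τ n₀ (r (k + 1))) = some s₀ := by
        by_contra hc
        push Not at hc
        have h1 : ∀ k, k ≤ ℓ → hd (u₀⁻¹ * τ n₀ (r k)) = some s₀ := by
          intro k
          induction k with
          | zero =>
            intro _
            rw [hr0]; exact hpA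
          | succ k ih =>
            intro hk
            exact hc k hk (ih (by omega))
        apply hqA
        have h2 := h1 ℓ le_rfl
        rw [hrℓ] at h2
        exact h2
      obtain ⟨k, hk, hk1, hk2⟩ := hcross
      have hkM : r k ∈ M := by
        by_contra hkM
        exact hk2 ((hA _ _ (hstep k hk) hkM).1 hk1)
      have hwT : ∃ r ∈ M, ((w k)⁻¹ * τ n r).norm ≤ 2 := ⟨r k, hkM, hr1 k hk.le⟩
      have hk0 : 0 < k := by
        rcases Nat.eq_zero_or_pos k with h0 | h0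
        · subst h0
          rw [hr0] at hkM
          exact absurd hkM hpM
        · exact h0
      have hne := hw2 k hk0 hk
      have hwp : w k ≠ τ n p := by
        intro h
        rw [h] at hwT
        exact hpT hwT
      obtain ⟨s, hs⟩ : ∃ s, hd ((w k)⁻¹ * τ n p) = some s := by
        rw [← Option.ne_none_iff_exists']
        intro h
        unfold hd at h
        rw [List.head?_eq_none_iff, FreeGroup.toWord_eq_nil_iff] at h
        exact hwp (inv_mul_eq_one.1 h)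
      refine ⟨⟨n, (w k, s)⟩, ?_, ?_⟩
      · rw [Set.Finite.mem_toFinset]
        exact ⟨w k, s, hwT, rfl⟩
      · intro h
        have h1 : hd ((w k)⁻¹ * τ n q) = some s := h.1 hs
        exact hne (hs.trans h1.symm)

end T3

section T


end T

end Pool.Agent.Helper499.HC
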