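import Pool.Agent.Helper499.HC.Defs
import Pool.Agent.Helper499.HC.T01
import Pool.Agent.Helper499.HC.T02
import Pool.Agent.Helper499.HC.T03

set_option autoImplicit false

namespace Pool.Agent.Helper499.HC

open Relation


open Filter Topology Set

section T
variable {α : Type} [DecidableEq α]









theorem te_norm_step_lt (x : FreeGroup α) (t : α × Bool) (h : hd x = some t) :
    ((step t)⁻¹ * x).norm < x.norm := by
  unfold hd at h
  obtain ⟨L, hL⟩ : ∃ L, x.toWord = t :: L := by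
    cases hx : x.toWord with
    | nil => rw [hx] at h; simp at h
    | cons u L =>
      rw [hx] at h
      simp only [List.head?_cons, Option.some.injEq] at h
      exact ⟨L, by rw [h]⟩
  have hx : x = step t * FreeGroup.mk L := by
    rw [step, FreeGroup.mul_mk, List.singleton_append, ← hL, FreeGroup.mk_toWord]
  have h1 : (step t)⁻¹ * x = FreeGroup.mk L := by
    rw [hx, inv_mul_cancel_left]
  have h2 : x.norm = L.length + 1 := by
    rw [FreeGroup.norm, hL, List.length_cons]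
  rw [h1, h2]
  exact Nat.lt_succ_of_le FreeGroup.norm_mk_le

theorem te_hd_ne_one (x : FreeGroup α) (hx : x ≠ 1) : ∃ t, hd x = some t := by
  unfold hd
  cases h : x.toWord with
  | nil => exact absurd (FreeGroup.toWord_eq_nil_iff.mp h) hx
  | cons u L => exact ⟨u, rfl⟩

theorem te_away (s s' : FreeGroup α → α × Bool) (hs : IsEnd s) (hs' : IsEnd s') :
    ∀ (n : ℕ) (v x : FreeGroup α), x.norm ≤ n → s v = s' v → hd x ≠ some (s v) →
      s (v * x) = s' (v * x) := by
  intro n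
  induction n with
  | zero =>
    intro v x hn hv _
    have : x = 1 := FreeGroup.norm_eq_zero.mp (Nat.le_zero.mp hn)
    rw [this, mul_one, hv]
  | succ n ih =>
    intro v x hn hv hne
    by_cases hx : x = 1
    · rw [hx, mul_one, hv]
    · obtain ⟨t, ht⟩ := te_hd_ne_one x hx
      have hst : s v ≠ t := by
        intro h; rw [h] at hne; exact hne ht
      have h1 := hs.back v t hst
      have h2 := hs'.back v t (by rw [← hv]; exact hst)
      have h3 := ih (v * step t) ((step t)⁻¹ * x)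
        (by have := te_norm_step_lt x t ht; omega) (by rw [h1, h2])
        (by rw [h1]; exact hd_step_eq x t ht)
      rw [mul_assoc, mul_inv_cancel_left] at h3
      exact h3

theorem te_median_aux (s1 s2 s3 : FreeGroup α → α × Bool) (h1 : IsEnd s1) (h2 : IsEnd s2)
    (h3 : IsEnd s3) (w : FreeGroup α) (hw : s1 w ≠ s3 w) :
    ∀ (n : ℕ) (v : FreeGroup α), (v⁻¹ * w).norm ≤ n → s2 v ≠ s1 v → s2 v ≠ s3 v →
      ∃ v, s1 v ≠ s2 v ∧ s1 v ≠ s3 v ∧ s2 v ≠ s3 v := by
  intro n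
  induction n with
  | zero =>
    intro v hn a1 a2
    have : v⁻¹ * w = 1 := FreeGroup.norm_eq_zero.mp (Nat.le_zero.mp hn)
    have hvw : v = w := (inv_mul_eq_one.mp this)
    exact ⟨v, a1.symm, by rw [hvw]; exact hw, a2⟩
  | succ n ih =>
    intro v hn a1 a2
    by_cases h13 : s1 v = s3 v
    · have hvw : v * (v⁻¹ * w) = w := mul_inv_cancel_left v w
      by_cases hd1 : hd (v⁻¹ * w) = some (s1 v)
      · refine ih (v * step (s1 v)) ?_ ?_ ?_
        · have := te_norm_step_lt _ _ hd1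
          rw [mul_inv_rev, mul_assoc]
          omega
        · rw [h2.back v (s1 v) a1]
          exact (h1.fwd v (s1 v) rfl).symm
        · rw [h2.back v (s1 v) a1]
          exact (h3.fwd v (s1 v) h13.symm).symm
      · exfalso
        have := te_away s1 s3 h1 h3 _ v (v⁻¹ * w) le_rfl h13 hd1
        rw [hvw] at this
        exact hw this
    · exact ⟨v, a1.symm, h13, a2⟩

theorem te_median (s1 s2 s3 : FreeGroup α → α × Bool) (h1 : IsEnd s1) (h2 : IsEnd s2)
    (h3 : IsEnd s3) (h12 : s1 ≠ s2) (h13 : s1 ≠ s3) (h23 : s2 ≠ s3) :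
    ∃ v, s1 v ≠ s2 v ∧ s1 v ≠ s3 v ∧ s2 v ≠ s3 v := by
  obtain ⟨v, hv⟩ := Function.ne_iff.mp h12
  obtain ⟨w, hw⟩ := Function.ne_iff.mp h13
  obtain ⟨w', hw'⟩ := Function.ne_iff.mp h23
  by_cases a : s3 v = s1 v
  · exact te_median_aux s1 s2 s3 h1 h2 h3 w hw _ v le_rfl hv.symm (by rw [a]; exact hv.symm)
  · by_cases b : s3 v = s2 v
    · obtain ⟨x, x1, x2, x3⟩ := te_median_aux s2 s1 s3 h2 h1 h3 w' hw' _ v le_rfl hv
        (by rw [b]; exact hv)
      exact ⟨x, x1.symm, x3, x2⟩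
    · exact ⟨v, hv, fun h => a h.symm, fun h => b h.symm⟩

theorem te_pow_inj (a : FreeGroup α) (ha : a ≠ 1) : Function.Injective (fun k : ℕ => a ^ k) := by
  intro m n h
  exact (injective_pow_iff_not_isOfFinOrder.mpr (not_isOfFinOrder_of_isMulTorsionFree ha)) h

theorem te_nonprincipal (f : ℕ → FreeGroup α) (hf : Function.Injective f) (g : FreeGroup α) :
    ({g} : Set (FreeGroup α)) ∉ (hyperfilter ℕ : Ultrafilter ℕ).map f := by
  intro h
  rw [Ultrafilter.mem_map] at h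
  refine notMem_hyperfilter_of_finite ?_ h
  exact (Set.finite_singleton g).preimage hf.injOn

theorem te_infinite (Γ : Subgroup (FreeGroup α)) (f : ℕ → FreeGroup α)
    (hf : Function.Injective f) (hΓ : ∀ k, f k ∈ Γ) (v : FreeGroup α) (t : α × Bool)
    (h : {g | hd (v⁻¹ * g) = some t} ∈ (hyperfilter ℕ : Ultrafilter ℕ).map f) :
    {g | g ∈ Γ ∧ hd (v⁻¹ * g) = some t}.Infinite := by
  intro hfin
  rw [Ultrafilter.mem_map] at h
  refine notMem_hyperfilter_of_finite ?_ h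
  refine (hfin.preimage hf.injOn).subset ?_
  intro k hk
  exact ⟨hΓ k, hk⟩

theorem te_inv [Finite α] (f : ℕ → FreeGroup α) (hf : Function.Injective f) (a : FreeGroup α)
    (hfa : ∀ k, a⁻¹ * f k = f k * a⁻¹) (s : FreeGroup α → α × Bool)
    (hs : ∀ v, {g | hd (v⁻¹ * g) = some (s v)} ∈ (hyperfilter ℕ : Ultrafilter ℕ).map f)
    (v : FreeGroup α) : s (a * v) = s v := by
  have h1 := hs (a * v)
  have h2 := hs v
  rw [Ultrafilter.mem_map] at h1 h2
  have h3 : {k : ℕ | (v⁻¹ * f k).norm ≤ (a⁻¹).norm}.Finite := by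
    refine ((norm_ball_finite (α := α) (a⁻¹).norm).preimage (f := fun k => v⁻¹ * f k) ?_)
    intro k _ l _ hkl
    exact hf (mul_left_cancel hkl)
  have h4 : {k : ℕ | (v⁻¹ * f k).norm ≤ (a⁻¹).norm}ᶜ ∈ (hyperfilter ℕ : Ultrafilter ℕ) :=
    compl_mem_hyperfilter_of_finite h3
  obtain ⟨k, ⟨k1, k2⟩, k3⟩ := (hyperfilter ℕ : Ultrafilter ℕ).nonempty_of_mem
    (Filter.inter_mem (Filter.inter_mem h1 h2) h4)
  have k1' : hd ((a * v)⁻¹ * f k) = some (s (a * v)) := k1
  have k2' : hd (v⁻¹ * f k) = some (s v) := k2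
  have k3' : (a⁻¹).norm < (v⁻¹ * f k).norm := not_le.mp k3
  have h5 : (a * v)⁻¹ * f k = (v⁻¹ * f k) * a⁻¹ := by
    rw [mul_inv_rev, mul_assoc, hfa, ← mul_assoc]
  rw [h5, hd_mul _ _ k3', k2'] at k1'
  exact (Option.some.inj k1').symm

theorem three_ends [Finite α] (Γ : Subgroup (FreeGroup α)) (a b : FreeGroup α) (ha : a ∈ Γ)
    (hb : b ∈ Γ) (hab : a * b ≠ b * a) :
    ∃ (v : FreeGroup α) (t₁ t₂ t₃ : α × Bool), t₁ ≠ t₂ ∧ t₁ ≠ t₃ ∧ t₂ ≠ t₃ ∧
      {g | g ∈ Γ ∧ hd (v⁻¹ * g) = some t₁}.Infinite ∧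
      {g | g ∈ Γ ∧ hd (v⁻¹ * g) = some t₂}.Infinite ∧
      {g | g ∈ Γ ∧ hd (v⁻¹ * g) = some t₃}.Infinite := by
  have ha1 : a ≠ 1 := by rintro rfl; exact hab (by simp)
  have hb1 : b ≠ 1 := by rintro rfl; exact hab (by simp)
  have fa := te_pow_inj a ha1
  have fb := te_pow_inj b hb1
  have fc : Function.Injective (fun k : ℕ => a * b ^ k) := fun m n h => fb (mul_left_cancel h)
  obtain ⟨s1, e1, m1⟩ := end_of_ultrafilter ((hyperfilter ℕ : Ultrafilter ℕ).map (fun k : ℕ => a ^ k))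
    (te_nonprincipal _ fa)
  obtain ⟨s2, e2, m2⟩ := end_of_ultrafilter ((hyperfilter ℕ : Ultrafilter ℕ).map (fun k : ℕ => b ^ k))
    (te_nonprincipal _ fb)
  obtain ⟨s3, e3, m3⟩ := end_of_ultrafilter
    ((hyperfilter ℕ : Ultrafilter ℕ).map (fun k : ℕ => a * b ^ k)) (te_nonprincipal _ fc)
  have i1 : ∀ v, s1 (a * v) = s1 v := te_inv _ fa a
    (fun k => ((Commute.refl a).inv_left.pow_right k).eq.trans
      (by rw [← ((Commute.refl a).inv_left.pow_right k).eq])) s1 m1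
  have i2 : ∀ v, s2 (b * v) = s2 v := te_inv _ fb b
    (fun k => ((Commute.refl b).inv_left.pow_right k).eq.trans
      (by rw [← ((Commute.refl b).inv_left.pow_right k).eq])) s2 m2
  have i3 : ∀ v, s3 (a * v) = s2 v := by
    intro v
    have h1 := m3 (a * v)
    have h2 := m2 v
    rw [Ultrafilter.mem_map] at h1 h2
    obtain ⟨k, k1, k2⟩ := (hyperfilter ℕ : Ultrafilter ℕ).nonempty_of_mem (Filter.inter_mem h1 h2)
    have k1' : hd ((a * v)⁻¹ * (a * b ^ k)) = some (s3 (a * v)) := k1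
    have k2' : hd (v⁻¹ * b ^ k) = some (s2 v) := k2
    have h5 : (a * v)⁻¹ * (a * b ^ k) = v⁻¹ * b ^ k := by group
    rw [h5, k2'] at k1'
    exact (Option.some.inj k1').symm
  have n12 : s1 ≠ s2 := by
    intro h
    exact hab (end_abelian s1 e1 a b i1 (by rw [h]; exact i2))
  have n13 : s1 ≠ s3 := by
    intro h
    apply n12
    funext v
    rw [← i3 v, ← h, i1]
  have n23 : s2 ≠ s3 := by
    intro h
    refine hab (end_abelian s2 e2 a b (fun v => ?_) i2)
    conv_lhs => rw [h]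
    exact i3 v
  obtain ⟨v, v1, v2, v3⟩ := te_median s1 s2 s3 e1 e2 e3 n12 n13 n23
  refine ⟨v, s1 v, s2 v, s3 v, v1, v2, v3, ?_, ?_, ?_⟩
  · exact te_infinite Γ _ fa (fun k => Γ.pow_mem ha k) v _ (m1 v)
  · exact te_infinite Γ _ fb (fun k => Γ.pow_mem hb k) v _ (m2 v)
  · exact te_infinite Γ _ fc (fun k => Γ.mul_mem ha (Γ.pow_mem hb k)) v _ (m3 v)

end T

end Pool.Agent.Helper499.HC
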