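import Pool.Agent.Helper499.HC.Defs

set_option autoImplicit false

namespace Pool.Agent.Helper499.HC

open Relation



open Filter Topology Set


section V
variable {X : Type} [MetricSpace X] [CompactSpace X] (C W : Cov X) (ρ : Fin W.m → Fin C.m)


theorem phi_e (k l : Fin W.m) : phi C W ρ (W.e k l) = C.e (ρ k) (ρ l) := by
  unfold phi Cov.e
  rcases lt_trichotomy k l with h | h | h
  · rw [if_pos h, FreeGroup.lift_apply_of]
  · subst h
    rw [if_neg (lt_irrefl _), if_neg (lt_irrefl _), if_neg (lt_irrefl _), if_neg (lt_irrefl _), map_one]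
  · rw [if_neg h.not_gt, if_pos h, map_inv, FreeGroup.lift_apply_of]
    have := C.e_symm (ρ l) (ρ k)
    simp only [Cov.e] at this ⊢
    exact this.symm

theorem refine_cc (hρ : ∀ k, W.U k ⊆ C.U (ρ k)) {x y : X} {k : Fin W.m} (hx : x ∈ W.U k)
    (hy : y ∈ W.U k) :
    C.cc x y = (bb C W ρ x)⁻¹ * phi C W ρ (W.cc x y) * bb C W ρ y := by
  have h1 : C.e (C.idx x) (ρ (W.idx x)) * C.e (ρ (W.idx x)) (ρ k) = C.e (C.idx x) (ρ k) :=
    C.e_triple (C.idx_mem x) (hρ _ (W.idx_mem x)) (hρ _ hx)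
  have h2 : C.e (ρ k) (ρ (W.idx y)) * C.e (ρ (W.idx y)) (C.idx y) = C.e (ρ k) (C.idx y) :=
    C.e_triple (hρ _ hy) (hρ _ (W.idx_mem y)) (C.idx_mem y)
  rw [W.cc_eq hx hy, map_mul, phi_e, phi_e, C.cc_eq (hρ _ hx) (hρ _ hy), ← h1, ← h2]
  unfold bb
  rw [C.e_symm (C.idx x) (ρ (W.idx x))]
  group

end V


end Pool.Agent.Helper499.HC
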