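import Pool.Agent.Helper499.HC.Defs
import Pool.Agent.Helper499.HC.V01

set_option autoImplicit false

namespace Pool.Agent.Helper499.HC

open Relation



open Filter Topology Set


section V
variable {X : Type} [MetricSpace X] [CompactSpace X] (C W : Cov X) (ρ : Fin W.m → Fin C.m)




theorem cmp_key (hρ : ∀ k, W.U k ⊆ C.U (ρ k)) (x₀ : X) (p q : Hat W.toCoc)
    (hd : dist p.pt q.pt < W.leb) (hg : q.g = p.g * W.cc p.pt q.pt) :
    (cmp C W ρ x₀ q).g = (cmp C W ρ x₀ p).g * C.cc p.pt q.pt := by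
  obtain ⟨k, hk⟩ := W.leb_spec p.pt
  have hx : p.pt ∈ W.U k := hk (Metric.mem_ball_self W.leb_pos)
  have hy : q.pt ∈ W.U k := hk (by rw [Metric.mem_ball, dist_comm]; exact hd)
  rw [refine_cc C W ρ hρ hx hy]
  change (bb C W ρ x₀)⁻¹ * phi C W ρ q.g * bb C W ρ q.pt =
    (bb C W ρ x₀)⁻¹ * phi C W ρ p.g * bb C W ρ p.pt * _
  rw [hg, map_mul]
  group

theorem cmp_step (hρ : ∀ k, W.U k ⊆ C.U (ρ k)) (x₀ : X) (δ : ℝ) (h1 : δ ≤ W.leb / 4)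
    (h2 : δ ≤ C.leb / 4) (p q : Hat W.toCoc) (h : dist p q < δ) :
    dist (cmp C W ρ x₀ p) (cmp C W ρ x₀ q) < δ := by
  have hW := W.leb_pos
  obtain ⟨h3, h4⟩ := (Hat.dist_lt_iff p q (r := δ) h1).mp h
  refine (Hat.dist_lt_iff _ _ (r := δ) h2).mpr ⟨h3, ?_⟩
  exact cmp_key C W ρ hρ x₀ p q (by linarith) h4

theorem cmp_chain (hρ : ∀ k, W.U k ⊆ C.U (ρ k)) (x₀ : X) (δ : ℝ) (h1 : δ ≤ W.leb / 4)
    (h2 : δ ≤ C.leb / 4) (p q : Hat W.toCoc) (h : CC δ p q) :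
    CC δ (cmp C W ρ x₀ p) (cmp C W ρ x₀ q) := by
  unfold CC at *
  induction h with
  | refl => exact ReflTransGen.refl
  | tail _ h3 ih => exact ih.tail (cmp_step C W ρ hρ x₀ δ h1 h2 _ _ h3)

theorem cmp_lift (hρ : ∀ k, W.U k ⊆ C.U (ρ k)) (x₀ : X) (δ : ℝ) (h1 : δ ≤ W.leb / 4)
    (h2 : δ ≤ C.leb / 4) (p : Hat W.toCoc) (q : Hat C.toCoc) (h : CC δ (cmp C W ρ x₀ p) q) :
    ∃ p', CC δ p p' ∧ cmp C W ρ x₀ p' = q := by
  have hW := W.leb_pos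
  unfold CC at h
  induction h with
  | refl => exact ⟨p, ReflTransGen.refl, rfl⟩
  | @tail q q2 _ h3 ih =>
    obtain ⟨p', hp', hq⟩ := ih
    obtain ⟨h4, h5⟩ := (Hat.dist_lt_iff q q2 (r := δ) h2).mp h3
    have hpt : p'.pt = q.pt := congrArg Hat.pt hq
    have h4' : dist p'.pt q2.pt < δ := by rw [hpt]; exact h4
    refine ⟨⟨q2.pt, p'.g * W.cc p'.pt q2.pt⟩, ?_, ?_⟩
    · refine ReflTransGen.tail hp' ?_
      exact (Hat.dist_lt_iff p' _ (r := δ) h1).mpr ⟨h4', rfl⟩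
    · apply Hat.ext
      · rfl
      · rw [cmp_key C W ρ hρ x₀ p' ⟨q2.pt, p'.g * W.cc p'.pt q2.pt⟩
          (lt_of_lt_of_le h4' (by linarith)) rfl, hq, h5, hpt]
        rfl

end V


end Pool.Agent.Helper499.HC
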