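import Pool.Agent.Helper499.HC.Defs
import Pool.Agent.Helper499.HC.G05
import Pool.Agent.Helper499.HC.V01
import Pool.Agent.Helper499.HC.V02

set_option autoImplicit false

namespace Pool.Agent.Helper499.HC

open Relation



open Filter Topology Set



section V
variable {X : Type} [MetricSpace X] [CompactSpace X] (C W : Cov X) (ρ : Fin W.m → Fin C.m)






theorem CC_mono_stb {Y : Type} [MetricSpace Y] {δ δ' : ℝ} (hd : δ ≤ δ') {p q : Y} (h : CC δ p q) :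
    CC δ' p q := by
  unfold CC at *
  induction h with
  | refl => exact ReflTransGen.refl
  | tail _ h2 ih => exact ih.tail (lt_of_lt_of_le h2 hd)

omit [CompactSpace X] in
theorem Gam_mono_stb {α : Type} [DecidableEq α] (S : Coc X α) (x₀ : X) {δ δ' : ℝ} (hd : δ ≤ δ') :
    Gam S x₀ δ ≤ Gam S x₀ δ' := fun _ h => CC_mono_stb hd h

theorem cmp_one_stb (x₀ : X) : cmp C W ρ x₀ (⟨x₀, 1⟩ : Hat W.toCoc) = ⟨x₀, 1⟩ := by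
  unfold cmp
  congr 1
  rw [map_one, mul_one, inv_mul_cancel]

theorem Gam_map_stb (hρ : ∀ k, W.U k ⊆ C.U (ρ k)) (x₀ : X) (δ : ℝ) (h1 : δ ≤ W.leb / 4)
    (h2 : δ ≤ C.leb / 4) (w : FreeGroup (Fin W.m × Fin W.m)) (hw : w ∈ Gam W.toCoc x₀ δ) :
    (bb C W ρ x₀)⁻¹ * phi C W ρ w * bb C W ρ x₀ ∈ Gam C.toCoc x₀ δ := by
  have h := cmp_chain C W ρ hρ x₀ δ h1 h2 _ _ hw
  rw [cmp_one_stb] at h
  exact h

theorem Gam_surj_stb (hρ : ∀ k, W.U k ⊆ C.U (ρ k)) (x₀ : X) (δ : ℝ) (h1 : δ ≤ W.leb / 4)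
    (h2 : δ ≤ C.leb / 4) (γ : FreeGroup (Fin C.m × Fin C.m)) (hγ : γ ∈ Gam C.toCoc x₀ δ) :
    ∃ w ∈ Gam W.toCoc x₀ δ, (bb C W ρ x₀)⁻¹ * phi C W ρ w * bb C W ρ x₀ = γ := by
  have h : CC δ (cmp C W ρ x₀ (⟨x₀, 1⟩ : Hat W.toCoc)) ⟨x₀, γ⟩ := by
    rw [cmp_one_stb]; exact hγ
  obtain ⟨p', hp1, hp2⟩ := cmp_lift C W ρ hρ x₀ δ h1 h2 _ _ h
  obtain ⟨x, g⟩ := p'
  unfold cmp at hp2
  rw [Hat.ext_iff] at hp2
  obtain ⟨hx, hg⟩ := hp2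
  dsimp only at hx hg
  subst hx
  exact ⟨g, hp1, hg⟩


theorem stable (hρ : ∀ k, W.U k ⊆ C.U (ρ k)) (x₀ : X) (δ₀ δ : ℝ) (h0 : 0 < δ) (h1 : δ ≤ δ₀)
    (h2 : δ₀ ≤ C.leb / 4) (h3 : δ ≤ W.leb / 4) (k₀ k : ℕ) (hk : k ≤ k₀) (hk₀ : 2 ≤ k₀)
    (e₀ : Gam C.toCoc x₀ δ₀ ≃* FreeGroup (Fin k₀)) (e : Gam W.toCoc x₀ δ ≃* FreeGroup (Fin k))
    (hfin : (Gam C.toCoc x₀ δ).relIndex (Gam C.toCoc x₀ δ₀) ≠ 0) :
    (∀ w ∈ Gam W.toCoc x₀ δ, phi C W ρ w = 1 → w = 1) ∧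
    (∀ γ ∈ Gam C.toCoc x₀ δ₀, ∃ w ∈ Gam W.toCoc x₀ δ,
      (bb C W ρ x₀)⁻¹ * phi C W ρ w * bb C W ρ x₀ = γ) := by
  have hC : δ ≤ C.leb / 4 := h1.trans h2
  have hmap : ∀ w ∈ Gam W.toCoc x₀ δ,
      (bb C W ρ x₀)⁻¹ * phi C W ρ w * bb C W ρ x₀ ∈ Gam C.toCoc x₀ δ₀ :=
    fun w hw => Gam_mono_stb _ x₀ h1 (Gam_map_stb C W ρ hρ x₀ δ h3 hC w hw)
  obtain ⟨Φ, hΦ⟩ : ∃ Φ : Gam W.toCoc x₀ δ →* Gam C.toCoc x₀ δ₀, ∀ w,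
      ((Φ w : Gam C.toCoc x₀ δ₀) : FreeGroup (Fin C.m × Fin C.m)) =
        (bb C W ρ x₀)⁻¹ * phi C W ρ w.1 * bb C W ρ x₀ := by
    refine ⟨MonoidHom.mk' (fun w => ⟨(bb C W ρ x₀)⁻¹ * phi C W ρ w.1 * bb C W ρ x₀, hmap w.1 w.2⟩) ?_,
      fun w => rfl⟩
    intro a b
    apply Subtype.ext
    show (bb C W ρ x₀)⁻¹ * phi C W ρ (a.1 * b.1) * bb C W ρ x₀ =
      ((bb C W ρ x₀)⁻¹ * phi C W ρ a.1 * bb C W ρ x₀) * ((bb C W ρ x₀)⁻¹ * phi C W ρ b.1 * bb C W ρ x₀)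
    rw [map_mul]
    group
  have hrange : Φ.range = (Gam C.toCoc x₀ δ).subgroupOf (Gam C.toCoc x₀ δ₀) := by
    ext γ
    rw [MonoidHom.mem_range, Subgroup.mem_subgroupOf]
    constructor
    · rintro ⟨w, rfl⟩
      rw [hΦ]
      exact Gam_map_stb C W ρ hρ x₀ δ h3 hC w.1 w.2
    · intro h
      obtain ⟨w, hw, hwe⟩ := Gam_surj_stb C W ρ hρ x₀ δ h3 hC γ.1 h
      refine ⟨⟨w, hw⟩, ?_⟩
      apply Subtype.ext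
      rw [hΦ]
      exact hwe
  have hidx : Φ.range.index ≠ 0 := by
    rw [hrange]
    exact hfin
  obtain ⟨Θ, hΘ⟩ : ∃ Θ : FreeGroup (Fin k) →* FreeGroup (Fin k₀),
      Θ = (e₀ : Gam C.toCoc x₀ δ₀ →* FreeGroup (Fin k₀)).comp
        (Φ.comp (e.symm : FreeGroup (Fin k) →* Gam W.toCoc x₀ δ)) := ⟨_, rfl⟩
  have hΘr : Θ.range = Φ.range.map (e₀ : Gam C.toCoc x₀ δ₀ →* FreeGroup (Fin k₀)) := by
    ext g
    rw [MonoidHom.mem_range, Subgroup.mem_map]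
    constructor
    · rintro ⟨x, rfl⟩
      rw [hΘ]
      exact ⟨Φ (e.symm x), ⟨e.symm x, rfl⟩, rfl⟩
    · rintro ⟨_, ⟨w, rfl⟩, rfl⟩
      refine ⟨e w, ?_⟩
      rw [hΘ]
      simp
  have hΘi : Θ.range.index ≠ 0 := by
    rw [hΘr, Subgroup.index_map_equiv]
    exact hidx
  have hbij := free_bijective hk hk₀ Θ hΘi
  have hΘa : ∀ w, Θ (e w) = e₀ (Φ w) := by
    intro w
    rw [hΘ]
    simp
  constructor
  · intro w hw h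
    have e1 : Φ ⟨w, hw⟩ = 1 := by
      apply Subtype.ext
      rw [hΦ]
      dsimp only
      rw [h, mul_one, inv_mul_cancel]
      rfl
    have e2 : Θ (e ⟨w, hw⟩) = Θ 1 := by
      rw [hΘa, e1, map_one, map_one]
    have e3 := hbij.1 e2
    have e4 : (⟨w, hw⟩ : Gam W.toCoc x₀ δ) = 1 := by
      apply e.injective
      rw [e3, map_one]
    exact congrArg Subtype.val e4
  · intro γ hγ
    obtain ⟨x, hx⟩ := hbij.2 (e₀ ⟨γ, hγ⟩)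
    obtain ⟨w, rfl⟩ := e.surjective x
    rw [hΘa] at hx
    have h4 := e₀.injective hx
    refine ⟨w.1, w.2, ?_⟩
    rw [← hΦ, h4]

end V


end Pool.Agent.Helper499.HC
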