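import Pool.Agent.Helper499.HC.Defs
import Pool.Agent.Helper499.HC.H01
import Pool.Agent.Helper499.HC.V01
import Pool.Agent.Helper499.HC.V02

set_option autoImplicit false

namespace Pool.Agent.Helper499.HC

open Relation



open Filter Topology Set


section HH
variable {X : Type} [MetricSpace X] {α : Type} [DecidableEq α]


end HH

section V
variable {X : Type} [MetricSpace X] [CompactSpace X] (C W : Cov X) (ρ : Fin W.m → Fin C.m)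






theorem level [ConnectedSpace X] (hρ : ∀ k, W.U k ⊆ C.U (ρ k)) (x₀ : X) (δ₀ δ : ℝ) (h0 : 0 < δ)
    (h1 : δ ≤ δ₀) (h2 : δ₀ ≤ C.leb / 4) (h3 : δ ≤ W.leb / 4)
    (hinj : ∀ w ∈ Gam W.toCoc x₀ δ, phi C W ρ w = 1 → w = 1)
    (hsurj : ∀ γ ∈ Gam C.toCoc x₀ δ₀, ∃ w ∈ Gam W.toCoc x₀ δ,
      (bb C W ρ x₀)⁻¹ * phi C W ρ w * bb C W ρ x₀ = γ) :
    ∃ τ : Hat C.toCoc → FreeGroup (Fin W.m × Fin W.m),
      (∀ q ∈ Comp C.toCoc x₀ δ₀, CC δ (⟨x₀, 1⟩ : Hat W.toCoc) ⟨q.pt, τ q⟩ ∧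
        cmp C W ρ x₀ ⟨q.pt, τ q⟩ = q) ∧
      (∀ q ∈ Comp C.toCoc x₀ δ₀, ∀ q' ∈ Comp C.toCoc x₀ δ₀, dist q q' < δ →
        τ q' = τ q * W.cc q.pt q'.pt) ∧
      (∀ w ∈ Gam W.toCoc x₀ δ, ∃ q ∈ Comp C.toCoc x₀ δ₀, τ q = w) := by
  classical
  have hlamW : (W.toCoc).lam = W.leb := rfl
  have hlamC : (C.toCoc).lam = C.leb := rfl
  have hδC : δ ≤ C.leb / 4 := h1.trans h2
  have hmono : ∀ p q : Hat C.toCoc, CC δ p q → CC δ₀ p q := by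
    intro p q h
    exact ReflTransGen.mono (fun a b (hab : dist a b < δ) => lt_of_lt_of_le hab h1) p q h
  have hbase : cmp C W ρ x₀ (⟨x₀, 1⟩ : Hat W.toCoc) = (⟨x₀, 1⟩ : Hat C.toCoc) := by
    simp [cmp]
  have hex : ∀ q ∈ Comp C.toCoc x₀ δ₀, ∃ w : FreeGroup (Fin W.m × Fin W.m),
      CC δ (⟨x₀, 1⟩ : Hat W.toCoc) ⟨q.pt, w⟩ ∧ cmp C W ρ x₀ ⟨q.pt, w⟩ = q := by
    intro q hq
    obtain ⟨w1, hw1⟩ := exists_hat_chain W.toCoc x₀ h0 (by rw [hlamW]; exact h3) q.pt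
    have hc1 := cmp_chain C W ρ hρ x₀ δ h3 hδC _ _ hw1
    rw [hbase] at hc1
    set g1 : FreeGroup (Fin C.m × Fin C.m) := (bb C W ρ x₀)⁻¹ * phi C W ρ w1 * bb C W ρ q.pt
      with hg1
    have hc2 : CC δ₀ (⟨x₀, 1⟩ : Hat C.toCoc) ⟨q.pt, g1⟩ := hmono _ _ hc1
    have hγ : q.g * g1⁻¹ ∈ Gam C.toCoc x₀ δ₀ := by
      have ha := CC.act (q.g * g1⁻¹) hc2
      have e1 : Hat.act (q.g * g1⁻¹) (⟨x₀, 1⟩ : Hat C.toCoc) = ⟨x₀, q.g * g1⁻¹⟩ := by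
        simp [Hat.act]
      have e2 : Hat.act (q.g * g1⁻¹) (⟨q.pt, g1⟩ : Hat C.toCoc) = q := by
        simp [Hat.act]
      rw [e1, e2] at ha
      exact CC.trans' hq (CC.symm' ha)
    obtain ⟨w2, hw2, hw2'⟩ := hsurj _ hγ
    refine ⟨w2 * w1, ?_, ?_⟩
    · have ha := CC.act w2 hw1
      have e1 : Hat.act w2 (⟨x₀, 1⟩ : Hat W.toCoc) = ⟨x₀, w2⟩ := by simp [Hat.act]
      have e2 : Hat.act w2 (⟨q.pt, w1⟩ : Hat W.toCoc) = ⟨q.pt, w2 * w1⟩ := by simp [Hat.act]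
      rw [e1, e2] at ha
      exact CC.trans' hw2 ha
    · apply Hat.ext
      · rfl
      · change (bb C W ρ x₀)⁻¹ * phi C W ρ (w2 * w1) * bb C W ρ q.pt = q.g
        have h5 : (bb C W ρ x₀)⁻¹ * phi C W ρ (w2 * w1) * bb C W ρ q.pt =
            ((bb C W ρ x₀)⁻¹ * phi C W ρ w2 * bb C W ρ x₀) * g1 := by
          rw [map_mul, hg1]; group
        rw [h5, hw2']
        group
  have huniq : ∀ (x : X) (w w' : FreeGroup (Fin W.m × Fin W.m)),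
      CC δ (⟨x₀, 1⟩ : Hat W.toCoc) ⟨x, w⟩ → CC δ (⟨x₀, 1⟩ : Hat W.toCoc) ⟨x, w'⟩ →
      cmp C W ρ x₀ (⟨x, w⟩ : Hat W.toCoc) = cmp C W ρ x₀ (⟨x, w'⟩ : Hat W.toCoc) → w = w' := by
    intro x w w' hw hw' he
    have hphi : phi C W ρ w = phi C W ρ w' := by
      have h5 := congrArg Hat.g he
      change (bb C W ρ x₀)⁻¹ * phi C W ρ w * bb C W ρ x =
        (bb C W ρ x₀)⁻¹ * phi C W ρ w' * bb C W ρ x at h5
      exact mul_left_cancel (mul_right_cancel h5)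
    have hmem : w * w'⁻¹ ∈ Gam W.toCoc x₀ δ := by
      have ha := CC.act (w * w'⁻¹) hw'
      have e1 : Hat.act (w * w'⁻¹) (⟨x₀, 1⟩ : Hat W.toCoc) = ⟨x₀, w * w'⁻¹⟩ := by
        simp [Hat.act]
      have e2 : Hat.act (w * w'⁻¹) (⟨x, w'⟩ : Hat W.toCoc) = ⟨x, w⟩ := by
        simp [Hat.act]
      rw [e1, e2] at ha
      exact CC.trans' hw (CC.symm' ha)
    have h6 := hinj _ hmem (by rw [map_mul, map_inv, hphi, mul_inv_cancel])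
    exact mul_inv_eq_one.mp h6
  let τ : Hat C.toCoc → FreeGroup (Fin W.m × Fin W.m) := fun q =>
    if h : q ∈ Comp C.toCoc x₀ δ₀ then (hex q h).choose else 1
  have hτ : ∀ q ∈ Comp C.toCoc x₀ δ₀, CC δ (⟨x₀, 1⟩ : Hat W.toCoc) ⟨q.pt, τ q⟩ ∧
      cmp C W ρ x₀ ⟨q.pt, τ q⟩ = q := by
    intro q hq
    have : τ q = (hex q hq).choose := by simp only [τ]; rw [dif_pos hq]
    rw [this]
    exact (hex q hq).choose_spec
  refine ⟨τ, hτ, ?_, ?_⟩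
  · intro q hq q' hq' hd
    obtain ⟨hd1, hd2⟩ := (Hat.dist_lt_iff q q' (r := δ) (by rw [hlamC]; exact hδC)).1 hd
    obtain ⟨ha, hb⟩ := hτ q hq
    obtain ⟨ha', hb'⟩ := hτ q' hq'
    have hstep : CC δ (⟨x₀, 1⟩ : Hat W.toCoc) ⟨q'.pt, τ q * W.cc q.pt q'.pt⟩ := by
      refine ReflTransGen.tail ha ?_
      exact (Hat.dist_lt_iff (⟨q.pt, τ q⟩ : Hat W.toCoc) ⟨q'.pt, τ q * W.cc q.pt q'.pt⟩
        (r := δ) (by rw [hlamW]; exact h3)).2 ⟨hd1, rfl⟩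
    refine huniq q'.pt _ _ ha' hstep ?_
    rw [hb']
    apply Hat.ext
    · rfl
    · change q'.g = (bb C W ρ x₀)⁻¹ * phi C W ρ (τ q * W.cc q.pt q'.pt) * bb C W ρ q'.pt
      obtain ⟨k, hk⟩ := W.leb_spec q.pt
      have hx : q.pt ∈ W.U k := hk (Metric.mem_ball_self W.leb_pos)
      have hy : q'.pt ∈ W.U k := by
        apply hk
        rw [Metric.mem_ball, dist_comm]
        have := W.leb_pos
        linarith
      have hr := refine_cc C W ρ hρ hx hy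
      have hbg := congrArg Hat.g hb
      change (bb C W ρ x₀)⁻¹ * phi C W ρ (τ q) * bb C W ρ q.pt = q.g at hbg
      have hd2' : q'.g = q.g * C.cc q.pt q'.pt := hd2
      rw [hd2', hr, ← hbg, map_mul]
      group
  · intro w hw
    have hc := cmp_chain C W ρ hρ x₀ δ h3 hδC _ _ hw
    rw [hbase] at hc
    have hmem : cmp C W ρ x₀ (⟨x₀, w⟩ : Hat W.toCoc) ∈ Comp C.toCoc x₀ δ₀ := hmono _ _ hc
    refine ⟨cmp C W ρ x₀ (⟨x₀, w⟩ : Hat W.toCoc), hmem, ?_⟩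
    obtain ⟨ha, hb⟩ := hτ _ hmem
    exact huniq x₀ _ _ ha hw hb


end V


end Pool.Agent.Helper499.HC
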