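import Pool.Agent.Helper499.HC.Defs

set_option autoImplicit false

namespace Pool.Agent.Helper499.HC

open Relation



open Filter Topology Set


section V
variable {X : Type} [MetricSpace X] [CompactSpace X] (W : Cov X)


def nerve_path_ch {X : Type} [TopologicalSpace X] (W : Cov X) :
    Fin W.m → List (Fin W.m) → Prop
  | _, [] => True
  | a, b :: L => (W.U a ∩ W.U b).Nonempty ∧ nerve_path_ch W b L

def nerve_path_end {X : Type} [TopologicalSpace X] (W : Cov X) :
    Fin W.m → List (Fin W.m) → Fin W.m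
  | a, [] => a
  | _, b :: L => nerve_path_end W b L

def nerve_path_pr {X : Type} [TopologicalSpace X] (W : Cov X) :
    Fin W.m → List (Fin W.m) → FreeGroup (Fin W.m × Fin W.m)
  | _, [] => 1
  | a, b :: L => W.e a b * nerve_path_pr W b L

/-- the letter of an edge -/
def nerve_path_lt {X : Type} [TopologicalSpace X] (W : Cov X) (i j : Fin W.m) :
    (Fin W.m × Fin W.m) × Bool := if i < j then ((i, j), true) else ((j, i), false)

def nerve_path_ls {X : Type} [TopologicalSpace X] (W : Cov X) :
    Fin W.m → List (Fin W.m) → List ((Fin W.m × Fin W.m) × Bool)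
  | _, [] => []
  | a, b :: L => nerve_path_lt W a b :: nerve_path_ls W b L

theorem nerve_path_ls_length {X : Type} [TopologicalSpace X] (W : Cov X) (a : Fin W.m)
    (L : List (Fin W.m)) : (nerve_path_ls W a L).length = L.length := by
  induction L generalizing a with
  | nil => rfl
  | cons b L ih => simp [nerve_path_ls, ih]

/-- a path of minimal length -/
def nerve_path_min {X : Type} [TopologicalSpace X] (W : Cov X) (a : Fin W.m)
    (L : List (Fin W.m)) : Prop :=
  ∀ L', nerve_path_ch W a L' → nerve_path_end W a L' = nerve_path_end W a L →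
    nerve_path_pr W a L' = nerve_path_pr W a L → L.length ≤ L'.length

theorem nerve_path_min_tail {X : Type} [TopologicalSpace X] (W : Cov X) (a b : Fin W.m)
    (L : List (Fin W.m)) (hc : nerve_path_ch W a (b :: L)) (h : nerve_path_min W a (b :: L)) :
    nerve_path_min W b L := by
  intro L' h1 h2 h3
  have h4 := h (b :: L') ⟨hc.1, h1⟩ h2 (by
    show W.e a b * nerve_path_pr W b L' = W.e a b * nerve_path_pr W b L
    rw [h3])
  simpa using h4

theorem nerve_path_ne {X : Type} [TopologicalSpace X] (W : Cov X) (a b : Fin W.m)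
    (L : List (Fin W.m)) (hc : nerve_path_ch W a (b :: L)) (h : nerve_path_min W a (b :: L)) :
    a ≠ b := by
  rintro rfl
  have h4 := h L hc.2 rfl (by
    show nerve_path_pr W a L = W.e a a * nerve_path_pr W a L
    rw [W.e_self, one_mul])
  simp at h4

theorem nerve_path_ne2 {X : Type} [TopologicalSpace X] (W : Cov X) (a b c : Fin W.m)
    (L : List (Fin W.m)) (hc : nerve_path_ch W a (b :: c :: L))
    (h : nerve_path_min W a (b :: c :: L)) : a ≠ c := by
  rintro rfl
  have h4 := h L hc.2.2 rfl (by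
    show nerve_path_pr W a L = W.e a b * (W.e b a * nerve_path_pr W a L)
    rw [W.e_symm a b, ← mul_assoc, mul_inv_cancel, one_mul])
  simp at h4

theorem nerve_path_mk {X : Type} [TopologicalSpace X] (W : Cov X) (a b : Fin W.m) (h : a ≠ b) :
    W.e a b = FreeGroup.mk [nerve_path_lt W a b] := by
  unfold Cov.e nerve_path_lt
  rcases lt_or_gt_of_ne h with h1 | h1
  · rw [if_pos h1, if_pos h1]
    rfl
  · rw [if_neg h1.not_gt, if_pos h1, if_neg h1.not_gt]
    rfl

theorem nerve_path_lt_ne {X : Type} [TopologicalSpace X] (W : Cov X) (a b c : Fin W.m)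
    (hab : a ≠ b) (hbc : b ≠ c) (hac : a ≠ c) :
    (nerve_path_lt W a b).1 ≠ (nerve_path_lt W b c).1 := by
  unfold nerve_path_lt
  split_ifs with h1 h2 h2
  · intro h
    exact hab (congrArg Prod.fst h)
  · intro h
    exact hac (congrArg Prod.fst h)
  · intro h
    exact hac (congrArg Prod.snd h)
  · intro h
    exact hbc (congrArg Prod.fst h)

theorem nerve_path_red {X : Type} [TopologicalSpace X] (W : Cov X) (a : Fin W.m)
    (L : List (Fin W.m)) (hc : nerve_path_ch W a L) (h : nerve_path_min W a L) :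
    FreeGroup.IsReduced (nerve_path_ls W a L) ∧
      nerve_path_pr W a L = FreeGroup.mk (nerve_path_ls W a L) := by
  induction L generalizing a with
  | nil => exact ⟨FreeGroup.IsReduced.nil, rfl⟩
  | cons b L ih =>
    have h1 := ih b hc.2 (nerve_path_min_tail W a b L hc h)
    have hab := nerve_path_ne W a b L hc h
    constructor
    · cases L with
      | nil => exact FreeGroup.IsReduced.singleton
      | cons c L =>
        show FreeGroup.IsReduced (nerve_path_lt W a b :: nerve_path_lt W b c ::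
          nerve_path_ls W c L)
        rw [FreeGroup.isReduced_cons_cons]
        refine ⟨fun h2 => ?_, h1.1⟩
        exact absurd h2 (nerve_path_lt_ne W a b c hab
          (nerve_path_ne W b c L hc.2 (nerve_path_min_tail W a b _ hc h))
          (nerve_path_ne2 W a b c L hc h))
    · show W.e a b * nerve_path_pr W b L =
        FreeGroup.mk (nerve_path_lt W a b :: nerve_path_ls W b L)
      rw [h1.2, nerve_path_mk W a b hab]
      rfl

theorem nerve_path_fun {X : Type} [TopologicalSpace X] (W : Cov X) (a : Fin W.m)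
    (L : List (Fin W.m)) (hc : nerve_path_ch W a L) :
    ∃ k : ℕ → Fin W.m, k 0 = a ∧ k L.length = nerve_path_end W a L ∧
      (∀ i < L.length, (W.U (k i) ∩ W.U (k (i + 1))).Nonempty) ∧
      nerve_path_pr W a L = ((List.range L.length).map (fun i => W.e (k i) (k (i + 1)))).prod := by
  induction L generalizing a with
  | nil => exact ⟨fun _ => a, rfl, rfl, fun i hi => absurd hi (Nat.not_lt_zero i), by simp [nerve_path_pr]⟩
  | cons b L ih =>
    obtain ⟨k, h0, h1, h2, h3⟩ := ih b hc.2
    refine ⟨fun i => match i with | 0 => a | i + 1 => k i, rfl, h1, ?_, ?_⟩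
    · intro i hi
      cases i with
      | zero =>
        show (W.U a ∩ W.U (k 0)).Nonempty
        rw [h0]
        exact hc.1
      | succ i =>
        rw [List.length_cons, Nat.succ_lt_succ_iff] at hi
        exact h2 i hi
    · rw [List.length_cons, List.range_succ_eq_map, List.map_cons, List.prod_cons, List.map_map]
      show W.e a b * nerve_path_pr W b L = W.e a (k 0) * _
      rw [h0, h3]
      rfl

theorem nerve_path_exists (δ : ℝ) (hδ : δ ≤ W.leb / 4) (p q : Hat W.toCoc) (h : CC δ p q) :
    ∃ L : List (Fin W.m), nerve_path_ch W (W.idx p.pt) L ∧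
      nerve_path_end W (W.idx p.pt) L = W.idx q.pt ∧
      nerve_path_pr W (W.idx p.pt) L = p.g⁻¹ * q.g := by
  unfold CC at h
  induction h using ReflTransGen.head_induction_on with
  | refl => exact ⟨[], trivial, rfl, (inv_mul_cancel _).symm⟩
  | head hpy _ ih =>
    rename_i p y _
    obtain ⟨L, h1, h2, h3⟩ := ih
    have h4 := (Hat.dist_lt_iff p y (r := δ) hδ).1 hpy
    have hleb := W.leb_pos
    obtain ⟨i, hi⟩ := W.leb_spec p.pt
    have hp : p.pt ∈ W.U i := hi (Metric.mem_ball_self hleb)
    have hy : y.pt ∈ W.U i := hi (by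
      rw [Metric.mem_ball, dist_comm]
      linarith [h4.1])
    refine ⟨i :: W.idx y.pt :: L, ⟨⟨p.pt, W.idx_mem _, hp⟩, ⟨y.pt, hy, W.idx_mem _⟩, h1⟩, h2, ?_⟩
    show W.e (W.idx p.pt) i * (W.e i (W.idx y.pt) * nerve_path_pr W (W.idx y.pt) L) = _
    have h5 : y.g = p.g * (W.e (W.idx p.pt) i * W.e i (W.idx y.pt)) := by
      rw [← W.cc_eq hp hy]
      exact h4.2
    rw [h3, h5]
    group

theorem nerve_path (δ : ℝ) (hδ : δ ≤ W.leb / 4) (p q : Hat W.toCoc) (h : CC δ p q) :
    ∃ (ℓ : ℕ) (k : ℕ → Fin W.m), ℓ ≤ (p.g⁻¹ * q.g).norm ∧ k 0 = W.idx p.pt ∧ k ℓ = W.idx q.pt ∧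
      (∀ i < ℓ, (W.U (k i) ∩ W.U (k (i + 1))).Nonempty) ∧
      p.g⁻¹ * q.g = ((List.range ℓ).map (fun i => W.e (k i) (k (i + 1)))).prod := by
  classical
  have hex : ∃ n : ℕ, ∃ L : List (Fin W.m), L.length = n ∧ nerve_path_ch W (W.idx p.pt) L ∧
      nerve_path_end W (W.idx p.pt) L = W.idx q.pt ∧
      nerve_path_pr W (W.idx p.pt) L = p.g⁻¹ * q.g := by
    obtain ⟨L, hL⟩ := nerve_path_exists W δ hδ p q h
    exact ⟨L.length, L, rfl, hL⟩
  obtain ⟨L, hlen, hc, he, hpr⟩ := Nat.find_spec hex
  have hmin : nerve_path_min W (W.idx p.pt) L := by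
    intro L' h1 h2 h3
    rw [hlen]
    exact Nat.find_min' hex ⟨L', rfl, h1, h2.trans he, h3.trans hpr⟩
  obtain ⟨hred, hmk⟩ := nerve_path_red W _ L hc hmin
  obtain ⟨k, h0, h1, h2, h3⟩ := nerve_path_fun W _ L hc
  refine ⟨L.length, k, ?_, h0, h1.trans he, h2, ?_⟩
  · rw [← hpr, hmk]
    have h4 : (FreeGroup.mk (nerve_path_ls W (W.idx p.pt) L)).norm = L.length := by
      unfold FreeGroup.norm
      rw [FreeGroup.toWord_mk, hred.reduce_eq, nerve_path_ls_length]
    exact h4.ge
  · rw [← hpr, h3]

end V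


end Pool.Agent.Helper499.HC
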