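import Pool.Agent.Helper499.HC.Defs
import Pool.Agent.Helper499.HC.V01
import Pool.Agent.Helper499.HC.V05

set_option autoImplicit false

namespace Pool.Agent.Helper499.HC

open Relation



open Filter Topology Set


section V
variable {X : Type} [MetricSpace X] [CompactSpace X] (C W : Cov X) (ρ : Fin W.m → Fin C.m)



end V

section V3
variable {X : Type} [MetricSpace X] [CompactSpace X] (W : Cov X)


end V3

section V4
variable {X : Type} [MetricSpace X] [CompactSpace X] (C W : Cov X) (ρ : Fin W.m → Fin C.m)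


theorem level_close (hρ : ∀ k, W.U k ⊆ C.U (ρ k)) (x₀ : X) (δ : ℝ) (hδ : δ ≤ W.leb / 4)
    (p q : Hat W.toCoc) (h : CC δ p q) (μ : ℝ)
    (hmesh : ∀ k, ∀ x ∈ W.U k, ∀ y ∈ W.U k, dist x y < μ) (hμ : 6 * μ ≤ C.leb / 4)
    (hn : (p.g⁻¹ * q.g).norm ≤ 5) : dist (cmp C W ρ x₀ p) (cmp C W ρ x₀ q) < 6 * μ := by
  obtain ⟨ℓ, k, hℓ, hk0, hkl, hne, hprod⟩ := nerve_path W δ hδ p q h
  have hμ0 : 0 < μ := by
    have := hmesh _ p.pt (W.idx_mem p.pt) p.pt (W.idx_mem p.pt)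
    simpa using this
  have hl := C.leb_pos
  have hA : ∀ i, i ≤ ℓ → ∀ y ∈ W.U (k i), dist p.pt y < ((i : ℝ) + 1) * μ := by
    intro i
    induction i with
    | zero =>
      intro _ y hy
      have := hmesh (k 0) p.pt (by rw [hk0]; exact W.idx_mem p.pt) y hy
      simpa using this
    | succ i ih =>
      intro hi y hy
      obtain ⟨z, hz1, hz2⟩ := hne i (by omega)
      have h1 := ih (by omega) z hz1
      have h2 := hmesh (k (i + 1)) z hz2 y hy
      have h3 := dist_triangle p.pt z y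
      push_cast
      linarith
  have hℓ5 : (ℓ : ℝ) ≤ 5 := by exact_mod_cast hℓ.trans hn
  have hB : ∀ i, i ≤ ℓ → ∀ y ∈ W.U (k i), dist p.pt y < 6 * μ := by
    intro i hi y hy
    have h1 := hA i hi y hy
    have h2 : (i : ℝ) ≤ ℓ := by exact_mod_cast hi
    have h3 : ((i : ℝ) + 1) * μ ≤ 6 * μ := mul_le_mul_of_nonneg_right (by linarith) hμ0.le
    linarith
  obtain ⟨j, hj⟩ := C.leb_spec p.pt
  have hjm : ∀ i, i ≤ ℓ → ∀ y ∈ W.U (k i), y ∈ C.U j := by
    intro i hi y hy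
    apply hj
    rw [Metric.mem_ball, dist_comm]
    have := hB i hi y hy
    linarith
  have hcancel : ∀ a b, C.e a b * C.e b a = 1 := by
    intro a b
    rw [C.e_symm a b]; group
  have hphi : ∀ n, n ≤ ℓ → phi C W ρ (((List.range n).map (fun i => W.e (k i) (k (i + 1)))).prod)
      = C.e (ρ (k 0)) j * C.e j (ρ (k n)) := by
    intro n
    induction n with
    | zero =>
      intro _
      simp [hcancel]
    | succ n ih =>
      intro hn'
      obtain ⟨z, hz1, hz2⟩ := hne n (by omega)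
      have h1 : C.e (ρ (k n)) j * C.e j (ρ (k (n + 1))) = C.e (ρ (k n)) (ρ (k (n + 1))) :=
        C.e_triple (hρ _ hz1) (hjm n (by omega) z hz1) (hρ _ hz2)
      rw [List.range_succ, List.map_append, List.prod_append, map_mul, ih (by omega)]
      simp only [List.map_cons, List.map_nil, List.prod_cons, List.prod_nil, mul_one]
      rw [phi_e, ← h1]
      calc _ = C.e (ρ (k 0)) j * (C.e j (ρ (k n)) * C.e (ρ (k n)) j) * C.e j (ρ (k (n + 1))) := by
            group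
        _ = _ := by rw [hcancel, mul_one]
  have hP := hphi ℓ le_rfl
  rw [← hprod, hk0, hkl] at hP
  have hqj : q.pt ∈ C.U j := hjm ℓ le_rfl q.pt (by rw [hkl]; exact W.idx_mem q.pt)
  have hpj : p.pt ∈ C.U j := hj (Metric.mem_ball_self hl)
  have hdist : dist p.pt q.pt < 6 * μ := hB ℓ le_rfl q.pt (by rw [hkl]; exact W.idx_mem q.pt)
  rw [Hat.dist_lt_iff _ _ (show 6 * μ ≤ C.toCoc.lam / 4 from hμ)]
  refine ⟨hdist, ?_⟩
  have e1 : C.e j (ρ (W.idx q.pt)) * C.e (ρ (W.idx q.pt)) (C.idx q.pt) = C.e j (C.idx q.pt) :=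
    C.e_triple hqj (hρ _ (W.idx_mem q.pt)) (C.idx_mem q.pt)
  have e2 : C.e (ρ (W.idx p.pt)) (C.idx p.pt) * C.e (C.idx p.pt) j = C.e (ρ (W.idx p.pt)) j :=
    C.e_triple (hρ _ (W.idx_mem p.pt)) (C.idx_mem p.pt) hpj
  have e3 : C.cc p.pt q.pt = C.e (C.idx p.pt) j * C.e j (C.idx q.pt) := C.cc_eq hpj hqj
  have e4 : phi C W ρ q.g = phi C W ρ p.g * phi C W ρ (p.g⁻¹ * q.g) := by
    rw [← map_mul]; congr 1; group
  show (bb C W ρ x₀)⁻¹ * phi C W ρ q.g * bb C W ρ q.pt =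
    (bb C W ρ x₀)⁻¹ * phi C W ρ p.g * bb C W ρ p.pt * C.cc p.pt q.pt
  rw [e4, hP, e3]
  unfold bb
  calc _ = (C.e (ρ (W.idx x₀)) (C.idx x₀))⁻¹ * phi C W ρ p.g * (C.e (ρ (W.idx p.pt)) j *
        (C.e j (ρ (W.idx q.pt)) * C.e (ρ (W.idx q.pt)) (C.idx q.pt))) := by
        simp only [mul_assoc]
    _ = (C.e (ρ (W.idx x₀)) (C.idx x₀))⁻¹ * phi C W ρ p.g * (C.e (ρ (W.idx p.pt)) (C.idx p.pt) *
        C.e (C.idx p.pt) j * C.e j (C.idx q.pt)) := by rw [e1, e2]
    _ = _ := by simp only [mul_assoc]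

end V4


end Pool.Agent.Helper499.HC
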