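import Pool.Agent.Helper499.HC.Defs
import Pool.Agent.Helper499.HC.H01

set_option autoImplicit false

namespace Pool.Agent.Helper499.HC

open Relation



open Filter Topology Set


section HH
variable {X : Type} [MetricSpace X] {α : Type} [DecidableEq α]


end HH

section V2
variable {X : Type} [MetricSpace X] [CompactSpace X] {α : Type} [DecidableEq α]

theorem CC_map {Y Z : Type} [MetricSpace Y] [MetricSpace Z] {η δ : ℝ} (f : Y → Z)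
    (h : ∀ a b : Y, dist a b < η → dist (f a) (f b) < δ) {p q : Y} (hpq : CC η p q) :
    CC δ (f p) (f q) := by
  unfold CC at *
  induction hpq with
  | refl => exact ReflTransGen.refl
  | tail _ h2 ih => exact ih.tail (h _ _ h2)

theorem CC_lift (S : Coc X α) (x₀ : X) {δ₀ δ : ℝ} (h1 : δ ≤ δ₀) {a b : Hat S}
    (ha : a ∈ Comp S x₀ δ₀) (h : CC δ a b) :
    ∃ hb : b ∈ Comp S x₀ δ₀, CC δ (⟨a, ha⟩ : Comp S x₀ δ₀) ⟨b, hb⟩ := by
  unfold CC at h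
  induction h with
  | refl => exact ⟨ha, ReflTransGen.refl⟩
  | tail _ h2 ih =>
    obtain ⟨hb, hc⟩ := ih
    refine ⟨?_, ?_⟩
    · exact ReflTransGen.tail hb (lt_of_lt_of_le h2 h1)
    · exact ReflTransGen.tail hc h2


theorem comp_chain [ConnectedSpace X] (S : Coc X α) (x₀ : X) (δ₀ δ : ℝ) (h0 : 0 < δ) (h1 : δ ≤ δ₀)
    (h2 : δ₀ ≤ S.lam / 4) (hG : Gam S x₀ δ₀ ≤ Gam S x₀ δ) (p q : Comp S x₀ δ₀) : CC δ p q := by
  have key : ∀ p : Hat S, p ∈ Comp S x₀ δ₀ → CC δ (⟨x₀, 1⟩ : Hat S) p := by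
    intro p hp
    obtain ⟨g, hg⟩ := exists_hat_chain S x₀ h0 (h1.trans h2) p.pt
    have hg0 : CC δ₀ (⟨x₀, 1⟩ : Hat S) ⟨p.pt, g⟩ :=
      CC_map (f := id) (fun a b hab => lt_of_lt_of_le hab h1) hg
    have e1 : Hat.act (p.g * g⁻¹) (⟨x₀, 1⟩ : Hat S) = ⟨x₀, p.g * g⁻¹⟩ := by simp [Hat.act]
    have e2 : Hat.act (p.g * g⁻¹) (⟨p.pt, g⟩ : Hat S) = p := by
      apply Hat.ext <;> simp [Hat.act]
    have h3 := CC.act (p.g * g⁻¹) hg0
    rw [e1, e2] at h3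
    have h4 : p.g * g⁻¹ ∈ Gam S x₀ δ₀ := CC.trans' hp (CC.symm' h3)
    have h5 : CC δ (⟨x₀, 1⟩ : Hat S) ⟨x₀, p.g * g⁻¹⟩ := hG h4
    have h6 := CC.act (p.g * g⁻¹) hg
    rw [e1, e2] at h6
    exact CC.trans' h5 h6
  obtain ⟨p, hp⟩ := p
  obtain ⟨q, hq⟩ := q
  obtain ⟨_, h⟩ := CC_lift S x₀ h1 hp (CC.trans' (CC.symm' (key p hp)) (key q hq))
  exact h

theorem good_preserves (S : Coc X α) (x₀ : X) (δ₀ : ℝ) (hδ₀ : 0 < δ₀)
    (hch : ∀ δ > 0, ∀ p q : Comp S x₀ δ₀, CC δ p q) (H : Hat S ≃ₜ Hat S) (hH : Good S H)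
    (p : Hat S) (hp : p ∈ Comp S x₀ δ₀) (hp' : H p ∈ Comp S x₀ δ₀) (q : Hat S) :
    q ∈ Comp S x₀ δ₀ ↔ H q ∈ Comp S x₀ δ₀ := by
  obtain ⟨_, hu, hu', _⟩ := hH
  constructor
  · intro hq
    obtain ⟨η, hη, h⟩ := Metric.uniformContinuous_iff.1 hu δ₀ hδ₀
    have h1 := hch η hη ⟨p, hp⟩ ⟨q, hq⟩
    have h2 := CC_map (δ := δ₀) (fun r : Comp S x₀ δ₀ => H r.1) (fun a b hab => h hab) h1
    exact CC.trans' hp' h2
  · intro hq
    obtain ⟨η, hη, h⟩ := Metric.uniformContinuous_iff.1 hu' δ₀ hδ₀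
    have h1 := hch η hη ⟨H p, hp'⟩ ⟨H q, hq⟩
    have h2 := CC_map (δ := δ₀) (fun r : Comp S x₀ δ₀ => H.symm r.1) (fun a b hab => h hab) h1
    simp only [Homeomorph.symm_apply_apply] at h2
    exact CC.trans' hp h2

end V2


end Pool.Agent.Helper499.HC
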