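import Pool.Agent.Helper499.HC.Defs
import Pool.Agent.Helper499.HC.H01

set_option autoImplicit false

namespace Pool.Agent.Helper499.HC

open Relation



open Filter Topology Set


section HH
variable {X : Type} [MetricSpace X] {α : Type} [DecidableEq α]


end HH

section V2
variable {X : Type} [MetricSpace X] [CompactSpace X] {α : Type} [DecidableEq α]


/-- chains with `N` steps inside a set -/
def displacement_CN {S : Coc X α} (K : Set (Hat S)) (δ : ℝ) : ℕ → Hat S → Hat S → Prop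
  | 0, p, q => p = q ∧ p ∈ K
  | n + 1, p, q => ∃ r, displacement_CN K δ n p r ∧ dist r q < δ ∧ q ∈ K

theorem displacement_CN_mem {S : Coc X α} {K : Set (Hat S)} {δ : ℝ} {n : ℕ} :
    ∀ {p q : Hat S}, displacement_CN K δ n p q → q ∈ K := by
  induction n with
  | zero => intro p q h; exact h.1 ▸ h.2
  | succ n _ => intro p q h; obtain ⟨r, _, _, h⟩ := h; exact h

theorem displacement_CN_norm {S : Coc X α} {K : Set (Hat S)} {δ : ℝ} {β : Type} [DecidableEq β]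
    (τ : Hat S → FreeGroup β)
    (hτ : ∀ q ∈ K, ∀ q' ∈ K, dist q q' < δ → ((τ q)⁻¹ * τ q').norm ≤ 2) {n : ℕ} :
    ∀ {p q : Hat S}, displacement_CN K δ n p q → ((τ p)⁻¹ * τ q).norm ≤ 2 * n := by
  induction n with
  | zero =>
    intro p q h
    rw [h.1]
    simp
  | succ n ih =>
    intro p q h
    obtain ⟨r, h1, h2, h3⟩ := h
    have h4 := ih h1
    have h5 := hτ r (displacement_CN_mem h1) q h3 h2
    have h6 : (τ p)⁻¹ * τ q = ((τ p)⁻¹ * τ r) * ((τ r)⁻¹ * τ q) := by group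
    rw [h6]
    have h7 := FreeGroup.norm_mul_le ((τ p)⁻¹ * τ r) ((τ r)⁻¹ * τ q)
    omega

theorem displacement_CN_act {S : Coc X α} {K : Set (Hat S)} {δ : ℝ} (γ : FreeGroup α)
    (hγ : ∀ p ∈ K, Hat.act γ p ∈ K) {n : ℕ} :
    ∀ {p q : Hat S}, displacement_CN K δ n p q →
      displacement_CN K δ n (Hat.act γ p) (Hat.act γ q) := by
  induction n with
  | zero => intro p q h; exact ⟨by rw [h.1], hγ p h.2⟩
  | succ n ih =>
    intro p q h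
    obtain ⟨r, h1, h2, h3⟩ := h
    exact ⟨Hat.act γ r, ih h1, by rw [Hat.dist_act]; exact h2, hγ q h3⟩

theorem displacement_CN_of_CC {S : Coc X α} {K : Set (Hat S)} {δ : ℝ} (p q : K)
    (h : CC δ p q) : ∃ n, displacement_CN K δ n (p : Hat S) (q : Hat S) := by
  unfold CC at h
  induction h with
  | refl => exact ⟨0, rfl, p.2⟩
  | @tail b c _ h2 ih =>
    obtain ⟨n, hn⟩ := ih
    exact ⟨n + 1, b, hn, h2, c.2⟩

theorem displacement [ConnectedSpace X] (S : Coc X α) (x₀ : X) (δ₀ : ℝ) (hδ₀ : 0 < δ₀)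
    (hδ₀' : δ₀ ≤ S.lam / 4)
    (hch : ∀ δ > 0, ∀ p q : Comp S x₀ δ₀, CC δ p q) (H : Hat S ≃ₜ Hat S) (hH : Good S H)
    (hHO : ∀ q, q ∈ Comp S x₀ δ₀ → H q ∈ Comp S x₀ δ₀) {β : Type} [DecidableEq β]
    (τ : Hat S → FreeGroup β) (δ : ℝ) (hδ : 0 < δ)
    (hτ : ∀ q ∈ Comp S x₀ δ₀, ∀ q' ∈ Comp S x₀ δ₀, dist q q' < δ →
      ((τ q)⁻¹ * τ q').norm ≤ 2) :
    ∃ M : ℕ, ∀ q ∈ Comp S x₀ δ₀, ((τ q)⁻¹ * τ (H q)).norm ≤ M := by
  choose g hg using fun x => exists_hat_chain S x₀ hδ₀ hδ₀' x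
  have hQ : ∀ x, (⟨x, g x⟩ : Hat S) ∈ Comp S x₀ δ₀ := fun x => hg x
  have hN : ∀ x, ∃ n, displacement_CN (Comp S x₀ δ₀) δ n (⟨x, g x⟩ : Hat S) (H ⟨x, g x⟩) := by
    intro x
    exact displacement_CN_of_CC ⟨_, hQ x⟩ ⟨_, hHO _ (hQ x)⟩ (hch δ hδ _ _)
  choose N hN using hN
  obtain ⟨hact, huc, -, -⟩ := hH
  obtain ⟨η₁, hη₁, hη₁'⟩ := Metric.uniformContinuous_iff.mp huc δ hδ
  set η : ℝ := min η₁ (min δ δ₀) with hη
  have hη0 : 0 < η := lt_min hη₁ (lt_min hδ hδ₀)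
  obtain ⟨t, -, htf, ht⟩ := (isCompact_univ (X := X)).finite_cover_balls hη0
  obtain ⟨B, hB⟩ := (htf.image N).bddAbove
  refine ⟨2 + 2 * B + 2, fun q hq => ?_⟩
  have hx := ht (mem_univ q.pt)
  simp only [mem_iUnion, Metric.mem_ball] at hx
  obtain ⟨z, hz, hqz⟩ := hx
  have hNz : N z ≤ B := hB ⟨z, hz, rfl⟩
  set q' : Hat S := ⟨z, q.g * S.c q.pt z⟩ with hq'
  have hηle : η ≤ S.lam / 4 := ((min_le_right _ _).trans (min_le_right _ _)).trans hδ₀'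
  have hd : dist q q' < η := (Hat.dist_lt_iff q q' hηle).mpr ⟨hqz, rfl⟩
  have hd1 : dist q q' < η₁ := lt_of_lt_of_le hd (min_le_left _ _)
  have hd2 : dist q q' < δ := lt_of_lt_of_le hd ((min_le_right _ _).trans (min_le_left _ _))
  have hd3 : dist q q' < δ₀ := lt_of_lt_of_le hd ((min_le_right _ _).trans (min_le_right _ _))
  have hq'm : q' ∈ Comp S x₀ δ₀ := by
    have h1 : CC δ₀ (⟨x₀, 1⟩ : Hat S) q := hq
    exact ReflTransGen.tail h1 hd3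
  set γ : FreeGroup α := q'.g * (g z)⁻¹ with hγ
  have hact' : Hat.act γ (⟨z, g z⟩ : Hat S) = q' := by
    apply Hat.ext
    · rfl
    · show γ * g z = q'.g
      rw [hγ]; group
  have hγc : ∀ p ∈ Comp S x₀ δ₀, Hat.act γ p ∈ Comp S x₀ δ₀ := by
    intro p hp
    have h1 : CC δ₀ (⟨x₀, 1⟩ : Hat S) p := hp
    have h2 : CC δ₀ (⟨x₀, 1⟩ : Hat S) q' := hq'm
    have h3 : CC δ₀ (Hat.act γ (⟨x₀, 1⟩ : Hat S)) q' := by
      rw [← hact']
      exact CC.act γ (hQ z)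
    have h4 : CC δ₀ (⟨x₀, 1⟩ : Hat S) (Hat.act γ (⟨x₀, 1⟩ : Hat S)) := CC.trans' h2 (CC.symm' h3)
    exact CC.trans' h4 (CC.act γ h1)
  have hc1 := displacement_CN_act γ hγc (hN z)
  rw [← hact, hact'] at hc1
  have n1 := hτ q hq q' hq'm hd2
  have n2 := displacement_CN_norm τ hτ hc1
  have n3 := hτ (H q') (hHO _ hq'm) (H q) (hHO _ hq) (by rw [dist_comm]; exact hη₁' hd1)
  have e : (τ q)⁻¹ * τ (H q) =
      ((τ q)⁻¹ * τ q') * (((τ q')⁻¹ * τ (H q')) * ((τ (H q'))⁻¹ * τ (H q))) := by group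
  rw [e]
  have m1 := FreeGroup.norm_mul_le ((τ q)⁻¹ * τ q')
    (((τ q')⁻¹ * τ (H q')) * ((τ (H q'))⁻¹ * τ (H q)))
  have m2 := FreeGroup.norm_mul_le ((τ q')⁻¹ * τ (H q')) ((τ (H q'))⁻¹ * τ (H q))
  omega

end V2


end Pool.Agent.Helper499.HC
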