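import Pool.Agent.Helper499.HC.Defs
import Pool.Agent.Helper499.HC.T01
import Pool.Agent.Helper499.HC.T02
import Pool.Agent.Helper499.HC.T03
import Pool.Agent.Helper499.HC.T04
import Pool.Agent.Helper499.HC.T05
import Pool.Agent.Helper499.HC.T06
import Pool.Agent.Helper499.HC.G01
import Pool.Agent.Helper499.HC.G02
import Pool.Agent.Helper499.HC.G03
import Pool.Agent.Helper499.HC.G04
import Pool.Agent.Helper499.HC.G05
import Pool.Agent.Helper499.HC.G06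
import Pool.Agent.Helper499.HC.E01
import Pool.Agent.Helper499.HC.E02
import Pool.Agent.Helper499.HC.C01
import Pool.Agent.Helper499.HC.C02
import Pool.Agent.Helper499.HC.C03
import Pool.Agent.Helper499.HC.H01
import Pool.Agent.Helper499.HC.H02
import Pool.Agent.Helper499.HC.H03
import Pool.Agent.Helper499.HC.H04
import Pool.Agent.Helper499.HC.H05
import Pool.Agent.Helper499.HC.H06
import Pool.Agent.Helper499.HC.H07
import Pool.Agent.Helper499.HC.P01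
import Pool.Agent.Helper499.HC.P02
import Pool.Agent.Helper499.HC.P03
import Pool.Agent.Helper499.HC.P04
import Pool.Agent.Helper499.HC.P05
import Pool.Agent.Helper499.HC.N01
import Pool.Agent.Helper499.HC.N02
import Pool.Agent.Helper499.HC.N03
import Pool.Agent.Helper499.HC.N04
import Pool.Agent.Helper499.HC.V01
import Pool.Agent.Helper499.HC.V02
import Pool.Agent.Helper499.HC.V03
import Pool.Agent.Helper499.HC.V04
import Pool.Agent.Helper499.HC.V05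
import Pool.Agent.Helper499.HC.V06
import Pool.Agent.Helper499.HC.V07
import Pool.Agent.Helper499.HC.V08

set_option autoImplicit false

namespace Pool.Agent.Helper499.HC

open Relation Filter Topology Set

theorem circle_reduction {X : Type} [MetricSpace X] [CompactSpace X]
    (H : ∀ m : ℕ, (∀ a : Fin (m + 1) → X → X → ℤ, (∀ i, ∃ r > 0, LocCoc r (a i)) →
        ∃ k : Fin (m + 1) → ℤ, k ≠ 0 ∧ LocCob (fun x y => ∑ i, k i * a i x y)) →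
      ∀ a₁ a₂ : X → X → ℤ, (∃ r > 0, LocCoc r a₁) → (∃ r > 0, LocCoc r a₂) →
        ∃ k l : ℤ, (k ≠ 0 ∨ l ≠ 0) ∧ LocCob (fun x y => k * a₁ x y + l * a₂ x y))
    (hm : ∃ m : ℕ, ∀ g : Fin (m + 1) → C(X, Circle), ∃ k : Fin (m + 1) → ℤ, k ≠ 0 ∧
        ∃ f : C(X, ℝ), ∀ x : X,
          (((∏ i, (g i x) ^ (k i) : Circle)) : ℂ) = Complex.exp ((f x : ℂ) * Complex.I))
    (g₁ g₂ : C(X, Circle)) : ∃ a b : ℤ, (a ≠ 0 ∨ b ≠ 0) ∧
        ∃ f : C(X, ℝ), ∀ x : X,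
          ((((g₁ x) ^ a * (g₂ x) ^ b : Circle)) : ℂ) = Complex.exp ((f x : ℂ) * Complex.I) := by
  obtain ⟨m, hm⟩ := hm
  obtain ⟨a₁, hc₁, hr₁⟩ := rep_of_map g₁
  obtain ⟨a₂, hc₂, hr₂⟩ := rep_of_map g₂
  obtain ⟨k, l, hkl, hcob⟩ := H m (by
    intro a ha
    choose r hr hc using ha
    choose u hu using fun i => map_of_coc (a i) (r i) (hr i) (hc i)
    obtain ⟨k, hk, f, hf⟩ := hm u
    exact ⟨k, hk, cob_of_lift _ _ (rep_prod u a hu k) f hf⟩) a₁ a₂ hc₁ hc₂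
  refine ⟨k, l, hkl, ?_⟩
  have hrep := rep_prod ![g₁, g₂] ![a₁, a₂] (by
    intro i
    fin_cases i
    · exact hr₁
    · exact hr₂) ![k, l]
  obtain ⟨f, hf⟩ := lift_of_cob _ _ hrep (by simpa [Fin.sum_univ_two] using hcob)
  refine ⟨f, fun x => ?_⟩
  have := hf x
  simpa [Fin.prod_univ_two] using this

theorem CC.mono {Y : Type} [MetricSpace Y] {δ δ' : ℝ} (h : δ ≤ δ') {p q : Y} (hc : CC δ p q) :
    CC δ' p q := by
  unfold CC at *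
  induction hc with
  | refl => exact ReflTransGen.refl
  | tail _ h2 ih => exact ih.tail (lt_of_lt_of_le h2 h)

theorem comp_isClopen {X : Type} [MetricSpace X] {α : Type} [DecidableEq α] (S : Coc X α) (x₀ : X)
    {δ : ℝ} (hδ : 0 < δ) : IsClosed (Comp S x₀ δ) ∧ IsOpen (Comp S x₀ δ) := by
  constructor
  · rw [← isOpen_compl_iff, Metric.isOpen_iff]
    intro q hq
    refine ⟨δ, hδ, fun q' hq' hq'' => hq ?_⟩
    exact CC.trans' hq'' (ReflTransGen.single (by simpa [dist_comm] using hq'))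
  · rw [Metric.isOpen_iff]
    intro q hq
    refine ⟨δ, hδ, fun q' hq' => ?_⟩
    exact CC.trans' hq (ReflTransGen.single (by rw [dist_comm]; exact hq'))

theorem LocCoc.mono {X : Type} [MetricSpace X] {r r' : ℝ} (h : r' ≤ r) {a : X → X → ℤ}
    (ha : LocCoc r a) : LocCoc r' a := fun x y z h1 h2 h3 =>
  ha x y z (h1.trans_le h) (h2.trans_le h) (h3.trans_le h)

/-- admissible pairs -/
def Adm {X : Type} [MetricSpace X] [CompactSpace X] (r : ℝ) (C : Cov X) (δ : ℝ) : Prop :=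
  (∀ i, ∀ x ∈ C.U i, ∀ y ∈ C.U i, dist x y < r / 4) ∧ 0 < δ ∧ δ ≤ C.leb / 4 ∧
    ∀ x y, dist x y < δ → ∃ h : X ≃ₜ X, h x = y ∧ ∀ z, dist z (h z) < C.leb / 4

theorem main_core {X : Type} [MetricSpace X] [CompactSpace X] [ConnectedSpace X]
    (hdim : DimLeOne X) (x₀ : X) (r : ℝ) (hr : 0 < r) (C₀ : Cov X) (δ₀ : ℝ)
    (hAdm : Adm r C₀ δ₀)
    (hex : ∀ (C : Cov X), (∀ i, ∀ x ∈ C.U i, ∀ y ∈ C.U i, dist x y < r / 4) → ∀ η > 0,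
      ∃ δ ≤ η, Adm r C δ)
    (hna : ∀ (C : Cov X), (∀ i, ∀ x ∈ C.U i, ∀ y ∈ C.U i, dist x y < r / 4) → ∀ δ > 0,
      ∃ a ∈ Gam C.toCoc x₀ δ, ∃ b ∈ Gam C.toCoc x₀ δ, a * b ≠ b * a)
    (hstable : ∀ (W : Cov X) (ρ : Fin W.m → Fin C₀.m), (∀ k, W.U k ⊆ C₀.U (ρ k)) → ∀ δ ≤ δ₀,
      Adm r W δ → (∀ w ∈ Gam W.toCoc x₀ δ, phi C₀ W ρ w = 1 → w = 1) ∧
      (∀ γ ∈ Gam C₀.toCoc x₀ δ₀, ∃ w ∈ Gam W.toCoc x₀ δ,
        (bb C₀ W ρ x₀)⁻¹ * phi C₀ W ρ w * bb C₀ W ρ x₀ = γ)) : False := by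
  obtain ⟨hmesh₀, hδ₀, hδ₀', hE₀⟩ := hAdm
  set S := C₀.toCoc with hS
  have hlebeq : S.lam = C₀.leb := rfl
  -- chain connectedness at all scales
  have hch : ∀ δ > 0, ∀ p q : Comp S x₀ δ₀, CC δ p q := by
    intro δ hδ p q
    obtain ⟨δ', hle, hadm'⟩ := hex C₀ hmesh₀ (min δ δ₀) (lt_min hδ hδ₀)
    have hst := hstable C₀ id (fun k => subset_rfl) δ' (hle.trans (min_le_right _ _)) hadm'
    have hG : Gam S x₀ δ₀ ≤ Gam S x₀ δ' := by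
      intro γ hγ
      obtain ⟨w, hw, hwγ⟩ := hst.2 γ hγ
      have h1 := cmp_chain C₀ C₀ id (fun k => subset_rfl) x₀ δ' hadm'.2.2.1 hadm'.2.2.1 _ _ hw
      have e1 : cmp C₀ C₀ id x₀ (⟨x₀, 1⟩ : Hat C₀.toCoc) = ⟨x₀, 1⟩ := by
        simp [cmp]
      have e2 : cmp C₀ C₀ id x₀ (⟨x₀, w⟩ : Hat C₀.toCoc) = ⟨x₀, γ⟩ := by
        simp only [cmp]
        rw [hwγ]
      rw [e1, e2] at h1
      exact h1
    exact CC.mono (hle.trans (min_le_left _ _))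
      (comp_chain S x₀ δ₀ δ' hadm'.2.1 (hle.trans (min_le_right _ _)) hδ₀' hG p q)
  -- the refinements
  have hW : ∀ n : ℕ, ∃ (W : Cov X) (ρ : Fin W.m → Fin C₀.m) (δ : ℝ)
      (τ : Hat C₀.toCoc → FreeGroup (Fin W.m × Fin W.m)), (∀ k, W.U k ⊆ C₀.U (ρ k)) ∧
      (∀ k, ∀ x ∈ W.U k, ∀ y ∈ W.U k, dist x y < min (1 / ((n : ℝ) + 1)) (C₀.leb / 24)) ∧
      (∀ i, ∀ x ∈ W.U i, ∀ y ∈ W.U i, dist x y < r / 4) ∧ 0 < δ ∧ δ ≤ W.leb / 4 ∧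
      (∀ q ∈ Comp C₀.toCoc x₀ δ₀, CC δ (⟨x₀, 1⟩ : Hat W.toCoc) ⟨q.pt, τ q⟩ ∧
        cmp C₀ W ρ x₀ ⟨q.pt, τ q⟩ = q) ∧
      (∀ q ∈ Comp C₀.toCoc x₀ δ₀, ∀ q' ∈ Comp C₀.toCoc x₀ δ₀, dist q q' < δ →
        τ q' = τ q * W.cc q.pt q'.pt) ∧
      (∀ w ∈ Gam W.toCoc x₀ δ, ∃ q ∈ Comp C₀.toCoc x₀ δ₀, τ q = w) := by
    intro n
    have hpos : 0 < min (min (1 / ((n : ℝ) + 1)) (C₀.leb / 24)) (r / 4) := by
      have := C₀.leb_pos
      positivity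
    obtain ⟨W, ρ, hρ, hmesh⟩ := exists_refine hdim C₀ _ hpos
    have hm1 : ∀ i, ∀ x ∈ W.U i, ∀ y ∈ W.U i, dist x y < r / 4 := fun i x hx y hy =>
      (hmesh i x hx y hy).trans_le (min_le_right _ _)
    obtain ⟨δ, hle, hadm⟩ := hex W hm1 δ₀ hδ₀
    have hst := hstable W ρ hρ δ hle hadm
    obtain ⟨τ, h1, h2, h3⟩ := level C₀ W ρ hρ x₀ δ₀ δ hadm.2.1 hle hδ₀' hadm.2.2.1 hst.1 hst.2
    exact ⟨W, ρ, δ, τ, hρ, fun k x hx y hy => (hmesh k x hx y hy).trans_le (min_le_left _ _), hm1,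
      hadm.2.1, hadm.2.2.1, h1, h2, h3⟩
  choose W ρ δ τ hρ hmesh hmeshr hδ hδleb hτ1 hτ2 hτ3 using hW
  haveI : LocallyCompactSpace (Hat S) := hat_locallyCompact S
  obtain ⟨hclosed, hopen⟩ := comp_isClopen S x₀ hδ₀
  haveI : LocallyCompactSpace (Comp S x₀ δ₀) := hclosed.locallyCompactSpace
  haveI : Nonempty (Comp S x₀ δ₀) := ⟨⟨⟨x₀, 1⟩, ReflTransGen.refl⟩⟩
  let HH : Set (Comp S x₀ δ₀ ≃ₜ Comp S x₀ δ₀) :=
    {h | ∀ n, ∃ M : ℕ, ∀ p, ((τ n p.1)⁻¹ * τ n (h p).1).norm ≤ M}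
  refine tree_false (O := Comp S x₀ δ₀) hch HH ?_ (fun n => Fin (W n).m × Fin (W n).m)
    (fun n q => τ n q.1) ?_ ?_ ?_ ?_ ?_
  · -- transitivity
    intro p q
    have hpq : CC δ₀ p.1 q.1 := CC.trans' (CC.symm' p.2) q.2
    obtain ⟨Hh, hHp, hgood⟩ := chain_homeo S δ₀ hδ₀' hE₀ p.1 q.1 hpq
    have hpres := good_preserves S x₀ δ₀ hδ₀ hch Hh hgood p.1 p.2 (by rw [hHp]; exact q.2)
    refine ⟨Hh.subtype hpres, ?_, ?_⟩
    · intro n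
      obtain ⟨M, hM⟩ := displacement S x₀ δ₀ hδ₀ hδ₀' hch Hh hgood (fun q hq => (hpres q).mp hq)
        (τ n) (δ n) (hδ n) (by
          intro q hq q' hq' hd
          rw [hτ2 n q hq q' hq' hd]
          simpa using (W n).cc_norm q.pt q'.pt)
      exact ⟨M, fun p => hM p.1 p.2⟩
    · apply Subtype.ext
      exact hHp
  · -- P0
    intro n A hA
    let A' : Set (FreeGroup (Fin C₀.m × Fin C₀.m)) :=
      (fun z : FreeGroup (Fin (W n).m × Fin (W n).m) × (Fin C₀.m × Fin C₀.m) =>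
        (bb C₀ (W n) (ρ n) x₀)⁻¹ * phi C₀ (W n) (ρ n) z.1 * C₀.e z.2.1 z.2.2) ''
        (A ×ˢ (Set.univ : Set (Fin C₀.m × Fin C₀.m)))
    have hA' : A'.Finite := (hA.prod Set.finite_univ).image _
    obtain ⟨K, hK, hKs⟩ := hat_relcompact S A' hA'
    refine ⟨Subtype.val ⁻¹' K, ?_, ?_⟩
    · exact hclosed.isClosedEmbedding_subtypeVal.isCompact_preimage hK
    · intro q hq
      apply hKs
      change q.1.g ∈ A'
      refine ⟨(τ n q.1, ((ρ n) ((W n).idx q.1.pt), C₀.idx q.1.pt)), ⟨hq, trivial⟩, ?_⟩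
      have := congrArg Hat.g (hτ1 n q.1 q.2).2
      simpa [cmp, bb] using this
  · -- P1
    intro n
    refine ⟨δ n, hδ n, fun p q hpq => ?_⟩
    have := hτ2 n p.1 p.2 q.1 q.2 hpq
    change ((τ n p.1)⁻¹ * τ n q.1).norm ≤ 2
    rw [this]
    simpa using (W n).cc_norm p.1.pt q.1.pt
  · -- P2
    intro ε hε
    obtain ⟨N, hN⟩ := exists_nat_gt (6 / ε)
    refine ⟨N, fun n hn p q hpq => ?_⟩
    have hμ : min (1 / ((n : ℝ) + 1)) (C₀.leb / 24) ≤ C₀.leb / 24 := min_le_right _ _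
    have hclose := level_close C₀ (W n) (ρ n) (hρ n) x₀ (δ n) (hδleb n)
      ⟨p.1.pt, τ n p.1⟩ ⟨q.1.pt, τ n q.1⟩
      (CC.trans' (CC.symm' (hτ1 n p.1 p.2).1) (hτ1 n q.1 q.2).1)
      (min (1 / ((n : ℝ) + 1)) (C₀.leb / 24)) (hmesh n) (by linarith) hpq
    rw [(hτ1 n p.1 p.2).2, (hτ1 n q.1 q.2).2] at hclose
    have h1 : dist p q = dist p.1 q.1 := rfl
    rw [h1]
    refine hclose.trans_le ?_
    have h2 : min (1 / ((n : ℝ) + 1)) (C₀.leb / 24) ≤ 1 / ((n : ℝ) + 1) := min_le_left _ _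
    have h3 : (N : ℝ) ≤ n := by exact_mod_cast hn
    have h4 : 6 * (1 / ((n : ℝ) + 1)) ≤ ε := by
      rw [div_lt_iff₀ hε] at hN
      rw [mul_one_div, div_le_iff₀ (by positivity)]
      nlinarith
    linarith
  · -- P3
    intro n h hh
    exact hh n
  · -- P4
    obtain ⟨a, ha, b, hb, hab⟩ := hna (W 0) (hmeshr 0) (δ 0) (hδ 0)
    obtain ⟨v, t₁, t₂, t₃, h12, h13, h23, i1, i2, i3⟩ :=
      three_ends (Gam (W 0).toCoc x₀ (δ 0)) a b ha hb hab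
    have hsub : ∀ t, {g | g ∈ Gam (W 0).toCoc x₀ (δ 0) ∧ hd (v⁻¹ * g) = some t} ⊆
        {g | g ∈ Set.range (fun q : Comp S x₀ δ₀ => τ 0 q.1) ∧ hd (v⁻¹ * g) = some t} := by
      rintro t g ⟨hg, hg'⟩
      obtain ⟨q, hq, hqg⟩ := hτ3 0 g hg
      exact ⟨⟨⟨q, hq⟩, hqg⟩, hg'⟩
    exact ⟨v, t₁, t₂, t₃, h12, h13, h23, i1.mono (hsub _), i2.mono (hsub _), i3.mono (hsub _)⟩

theorem main_discrete {X : Type} [MetricSpace X] [CompactSpace X] [ConnectedSpace X]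
    (hdim : DimLeOne X) (hom : ∀ x y : X, ∃ h : X ≃ₜ X, h x = y) (m : ℕ)
    (hFR : ∀ a : Fin (m + 1) → X → X → ℤ, (∀ i, ∃ r > 0, LocCoc r (a i)) →
        ∃ k : Fin (m + 1) → ℤ, k ≠ 0 ∧ LocCob (fun x y => ∑ i, k i * a i x y))
    (a₁ a₂ : X → X → ℤ) (h₁ : ∃ r > 0, LocCoc r a₁) (h₂ : ∃ r > 0, LocCoc r a₂) :
    ∃ k l : ℤ, (k ≠ 0 ∨ l ≠ 0) ∧ LocCob (fun x y => k * a₁ x y + l * a₂ x y) := by
  by_contra hcon
  have hind : ∀ k l : ℤ, (k ≠ 0 ∨ l ≠ 0) → ¬ LocCob (fun x y => k * a₁ x y + l * a₂ x y) :=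
    fun k l h h' => hcon ⟨k, l, h, h'⟩
  obtain ⟨r₁, hr₁, hc₁⟩ := h₁
  obtain ⟨r₂, hr₂, hc₂⟩ := h₂
  obtain ⟨r, hr, hr1, hr2⟩ : ∃ r > 0, r ≤ r₁ ∧ r ≤ r₂ :=
    ⟨min r₁ r₂, lt_min hr₁ hr₂, min_le_left _ _, min_le_right _ _⟩
  obtain ⟨x₀⟩ : Nonempty X := inferInstance
  have hna : ∀ (C : Cov X), (∀ i, ∀ x ∈ C.U i, ∀ y ∈ C.U i, dist x y < r / 4) → ∀ δ > 0,
      ∃ a ∈ Gam C.toCoc x₀ δ, ∃ b ∈ Gam C.toCoc x₀ δ, a * b ≠ b * a := fun C hC δ hδ =>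
    gam_nonabelian a₁ a₂ r hr (hc₁.mono hr1) (hc₂.mono hr2) hind C hC x₀ δ hδ
  have hex : ∀ (C : Cov X), (∀ i, ∀ x ∈ C.U i, ∀ y ∈ C.U i, dist x y < r / 4) → ∀ η > 0,
      ∃ δ ≤ η, Adm r C δ := by
    intro C hC η hη
    have hleb := C.leb_pos
    obtain ⟨δ, hδ, h⟩ := effros hom (C.leb / 4) (by positivity)
    refine ⟨min η (min δ (C.leb / 4)), min_le_left _ _, hC, by positivity,
      (min_le_right _ _).trans (min_le_right _ _), fun x y hxy => h x y ?_⟩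
    exact hxy.trans_le ((min_le_right _ _).trans (min_le_left _ _))
  have hidx : ∀ (C : Cov X) (δ : ℝ), Adm r C δ → ∀ δ', 0 < δ' → δ' ≤ δ →
      (Gam C.toCoc x₀ δ').relIndex (Gam C.toCoc x₀ δ) ≠ 0 := by
    intro C δ hadm δ' h0 h1
    exact index_ne_zero C.toCoc x₀ δ hadm.2.2.1 hadm.2.2.2 (hna C hadm.1) δ δ' h0 h1 le_rfl
  have hrank : ∀ (C : Cov X) (δ : ℝ), Adm r C δ →
      ∃ k ≤ m, 2 ≤ k ∧ Nonempty (Gam C.toCoc x₀ δ ≃* FreeGroup (Fin k)) := by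
    intro C δ hadm
    obtain ⟨k, hk, ⟨e⟩⟩ := gam_rank m hFR C.toCoc x₀ δ hadm.2.1 hadm.2.2.1 (hidx C δ hadm)
    refine ⟨k, hk, ?_, ⟨e⟩⟩
    by_contra hk2
    obtain ⟨a, ha, b, hb, hab⟩ := hna C hadm.1 δ hadm.2.1
    have hcomm : ∀ x y : FreeGroup (Fin k), x * y = y * x := by
      interval_cases k
      · intro x y
        exact Subsingleton.elim _ _
      · intro x y
        haveI : IsCyclic (FreeGroup (Fin 1)) := inferInstance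
        obtain ⟨g, hg⟩ := IsCyclic.exists_generator (α := FreeGroup (Fin 1))
        obtain ⟨i, rfl⟩ := hg x
        obtain ⟨j, rfl⟩ := hg y
        simp only [← zpow_add, add_comm]
    apply hab
    have h1 := hcomm (e ⟨a, ha⟩) (e ⟨b, hb⟩)
    rw [← map_mul, ← map_mul] at h1
    have h2 := e.injective h1
    exact congrArg Subtype.val h2
  obtain ⟨C₁, hC₁⟩ := exists_cov hdim (r / 4) (by positivity)
  obtain ⟨δ₁, -, hadm₁⟩ := hex C₁ hC₁ 1 one_pos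
  obtain ⟨k₁, hk₁m, hk₁2, hk₁e⟩ := hrank C₁ δ₁ hadm₁
  -- maximal rank
  let P : ℕ → Prop := fun k => ∃ (C : Cov X) (δ : ℝ), Adm r C δ ∧
    Nonempty (Gam C.toCoc x₀ δ ≃* FreeGroup (Fin k))
  classical
  obtain ⟨k₀, hk₀m, hk₀2, ⟨C₀, δ₀, hadm₀, ⟨e₀⟩⟩, hmax⟩ : ∃ k₀ ≤ m, 2 ≤ k₀ ∧ P k₀ ∧
      ∀ k ≤ m, P k → k ≤ k₀ := by
    have hP1 : P k₁ := ⟨C₁, δ₁, hadm₁, hk₁e⟩
    refine ⟨Nat.findGreatest P m, Nat.findGreatest_le m, ?_, Nat.findGreatest_spec hk₁m hP1, ?_⟩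
    · exact hk₁2.trans (Nat.le_findGreatest hk₁m hP1)
    · intro k hk hPk
      exact Nat.le_findGreatest hk hPk
  refine main_core hdim x₀ r hr C₀ δ₀ hadm₀ hex hna ?_
  intro W ρ hρ δ hδ hadm
  obtain ⟨k, hkm, hk2, ⟨e⟩⟩ := hrank W δ hadm
  have hkk : k ≤ k₀ := hmax k hkm ⟨W, δ, hadm, ⟨e⟩⟩
  exact stable C₀ W ρ hρ x₀ δ₀ δ hadm.2.1 hδ hadm₀.2.2.1 hadm.2.2.1 k₀ k hkk hk₀2 e₀ e
    (hidx C₀ δ₀ hadm₀ δ hadm.2.1 hδ)

end Pool.Agent.Helper499.HC
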